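import Pool.Agent.Helper6.BP.IdentC

/-!
PROJECT BP, block V, module BP-V5: `h` is invariant under the infinitesimal action of `O(p+1) × U(m)`.

PROOF. `dot_rotv`: `∑ w_i (B w)_i = 0` as `B` is skew, and by `inner_Sm`, `Sm_rotv` the other part is `Re tr (S (A S + S Aᵀ)ᴴ)`; with `Aᴴ = -A`:
`tr (S Sᴴ Aᴴ) = - tr (S Sᴴ A)`, `tr (S Aᵀᴴ Sᴴ) = tr (Sᴴ S Aᵀᴴ)`, `Aᵀᴴ` is again skew-hermitian, and `Re tr (H A) = 0` for `H` hermitian, `A` skew-hermitian
(`star (tr (H A)) = tr (Aᴴ Hᴴ) = - tr (A H) = - tr (H A)`).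
`dh_rotv`: the same with `dh_eq`: `X = c S - S Sᴴ S`, `X Sᴴ` and `Sᴴ X` are hermitian.
-/

set_option autoImplicit false

namespace Pool.Agent.Helper6.BP

open Pool.Agent.Helper72.BP Pool.Agent.Helper79.BP
open Matrix

variable {p m : ℕ}

/-- `Re tr (H A) = 0`. -/
theorem re_trace_mul (H A : Matrix (Fin m) (Fin m) ℂ) (hH : Hᴴ = H) (hA : Aᴴ = -A) : (trace (H * A)).re = 0 := by
  have h1 : star (trace (H * A)) = -trace (H * A) := by
    rw [← trace_conjTranspose, conjTranspose_mul, hH, hA, Matrix.neg_mul, trace_neg, trace_mul_comm]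
  have h2 := congrArg Complex.re h1
  simp only [RCLike.star_def, Complex.conj_re, Complex.neg_re] at h2
  linarith

theorem inv_frob (X Z : Matrix (Fin m) (Fin m) ℂ) : ∑ i, ∑ j, (X i j * star (Z i j)).re = (trace (X * Zᴴ)).re := by
  simp only [Matrix.trace, Matrix.diag, Matrix.mul_apply, Matrix.conjTranspose_apply, Complex.re_sum]

theorem inv_skew (B : Matrix (Fin (p + 1)) (Fin (p + 1)) ℝ) (hB : Bᵀ = -B) (w : Fin (p + 1) → ℝ) :
    ∑ i, w i * (∑ i', B i i' * w i') = 0 := by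
  have h1 : ∑ i, w i * (∑ i', B i i' * w i') = ∑ i, ∑ i', w i * (B i i' * w i') := by
    refine Finset.sum_congr rfl (fun i _ => ?_)
    rw [Finset.mul_sum]
  have h2 : ∑ i, ∑ i', w i * (B i i' * w i') = -∑ i, ∑ i', w i * (B i i' * w i') := by
    conv_lhs => rw [Finset.sum_comm]
    rw [← Finset.sum_neg_distrib]
    refine Finset.sum_congr rfl (fun i _ => ?_)
    rw [← Finset.sum_neg_distrib]
    refine Finset.sum_congr rfl (fun j _ => ?_)
    have h3 : B j i = -B i j := by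
      have h4 := congrFun (congrFun hB i) j
      simpa [Matrix.transpose_apply, Matrix.neg_apply] using h4
    rw [h3]
    ring
  rw [h1]
  linarith

theorem inv_main (A S X : Matrix (Fin m) (Fin m) ℂ) (hA : Aᴴ = -A) (h1 : (X * Sᴴ)ᴴ = X * Sᴴ)
    (h2 : (Sᴴ * X)ᴴ = Sᴴ * X) : ∑ i, ∑ j, (X i j * star ((A * S + S * Aᵀ) i j)).re = 0 := by
  rw [inv_frob, conjTranspose_add, conjTranspose_mul, conjTranspose_mul, Matrix.mul_add, trace_add,
    Complex.add_re, ← Matrix.mul_assoc, ← Matrix.mul_assoc, trace_mul_comm (X * Aᵀᴴ) Sᴴ, ← Matrix.mul_assoc]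
  have hA2 : (Aᴴ)ᴴ = -Aᴴ := by
    rw [hA, conjTranspose_neg, hA]
  have hA3 : Aᵀᴴ = -Aᵀ := by
    have : Aᵀᴴ = (Aᴴ)ᵀ := by
      ext i j
      simp [Matrix.conjTranspose_apply, Matrix.transpose_apply]
    rw [this, hA, transpose_neg]
  have hA4 : (Aᵀᴴ)ᴴ = -(Aᵀᴴ) := by
    rw [hA3, conjTranspose_neg, hA3]
  rw [re_trace_mul _ _ h1 hA2, re_trace_mul _ _ h2 hA4, add_zero]

theorem dot_rotv (B : Matrix (Fin (p + 1)) (Fin (p + 1)) ℝ) (hB : Bᵀ = -B) (A : Matrix (Fin m) (Fin m) ℂ)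
    (hA : Aᴴ = -A) (y : Ix p (Kx m) → ℝ) : dotProduct y (rotv B A y) = 0 := by
  have h0 : dotProduct y (rotv B A y) = (∑ i : Fin (p + 1), y (Sum.inl i) * rotv B A y (Sum.inl i))
      + ∑ k : Kx m, y (Sum.inr k) * rotv B A y (Sum.inr k) := by
    unfold dotProduct
    exact Fintype.sum_sum_type _
  have h1 : ∑ i : Fin (p + 1), y (Sum.inl i) * rotv B A y (Sum.inl i) = 0 :=
    inv_skew B hB (fun i => y (Sum.inl i))
  rw [h0, h1, ← inner_Sm, Sm_rotv, zero_add]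
  refine inv_main A (Sm y) (Sm y) hA ?_ ?_
  · rw [conjTranspose_mul, conjTranspose_conjTranspose]
  · rw [conjTranspose_mul, conjTranspose_conjTranspose]

theorem dh_rotv (B : Matrix (Fin (p + 1)) (Fin (p + 1)) ℝ) (hB : Bᵀ = -B) (A : Matrix (Fin m) (Fin m) ℂ)
    (hA : Aᴴ = -A) (y : Ix p (Kx m) → ℝ) : dh y (rotv B A y) = 0 := by
  have h1 : ∑ i : Fin (p + 1), y (Sum.inl i) * rotv B A y (Sum.inl i) = 0 :=
    inv_skew B hB (fun i => y (Sum.inl i))
  rw [dh_eq, h1, Sm_rotv, mul_zero, zero_add]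
  rw [inv_main A (Sm y) (((wsq y + ssq y : ℝ) : ℂ) • Sm y - Sm y * (Sm y)ᴴ * Sm y) hA ?_ ?_, mul_zero]
  · rw [Matrix.sub_mul, Matrix.smul_mul, conjTranspose_sub, conjTranspose_smul]
    simp only [conjTranspose_mul, conjTranspose_conjTranspose, Matrix.mul_assoc, RCLike.star_def, Complex.conj_ofReal]
  · rw [Matrix.mul_sub, Matrix.mul_smul, conjTranspose_sub, conjTranspose_smul]
    simp only [conjTranspose_mul, conjTranspose_conjTranspose, Matrix.mul_assoc, RCLike.star_def, Complex.conj_ofReal]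

end Pool.Agent.Helper6.BP
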