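import Pool.Agent.Helper79.BP.KitB
import Pool.Agent.Helper79.BP.KitC

/-!
PROJECT BP, block V, module BP-V13: directional derivatives of polynomials and the criteria for `NonsingAt` and `Tan`.

PROOF. `pd f x v = ∑_j ∂_j f(x) v_j` is a derivation in `f` (`Derivation.leibniz`, `MvPolynomial.pderiv_X`, `pderiv_C`, `map_add`, ..).
`nonsing_of`: reindex `f` along `Fintype.equivFin I` (`c = Fintype.card I`); the gradients are linearly independent: if `∑_i a_i grad f_i = 0` choose `v` with `pd (f i) x v = a_i`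
for all `i`, then `0 = ∑_i a_i pd (f i) x v = ∑ a_i²` (`Fintype.linearIndependent_iff`).
`tan_of`: `Pool.Agent.Helper79.BP.tan_iff` for `g y = fun i => eval y (f i)` (with values in `I → ℝ`), whose derivative is `v ↦ (pd (f i) x v)_i` (`hasFDerivAt_pi`, `hasFDerivAt_eval`).
-/

set_option autoImplicit false

namespace Pool.Agent.Helper6.BP

open Pool.Agent.Helper79.BP
open MvPolynomial
open scoped ContDiff

variable {σ I : Type} [Fintype σ] [Fintype I]

/-- The derivative of the polynomial `f` at `x` in the direction `v`. -/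
noncomputable def pd (f : MvPolynomial σ ℝ) (x v : σ → ℝ) : ℝ := ∑ j, eval x (pderiv j f) * v j

theorem pd_add (f g : MvPolynomial σ ℝ) (x v : σ → ℝ) : pd (f + g) x v = pd f x v + pd g x v := by
  unfold pd
  rw [← Finset.sum_add_distrib]
  exact Finset.sum_congr rfl (fun j _ => by rw [map_add, map_add, add_mul])

theorem pd_sub (f g : MvPolynomial σ ℝ) (x v : σ → ℝ) : pd (f - g) x v = pd f x v - pd g x v := by
  unfold pd
  rw [← Finset.sum_sub_distrib]
  exact Finset.sum_congr rfl (fun j _ => by rw [map_sub, map_sub, sub_mul])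

theorem pd_neg (f : MvPolynomial σ ℝ) (x v : σ → ℝ) : pd (-f) x v = -pd f x v := by
  unfold pd
  rw [← Finset.sum_neg_distrib]
  exact Finset.sum_congr rfl (fun j _ => by rw [map_neg, map_neg, neg_mul])

theorem pd_mul (f g : MvPolynomial σ ℝ) (x v : σ → ℝ) :
    pd (f * g) x v = pd f x v * eval x g + eval x f * pd g x v := by
  unfold pd
  rw [Finset.sum_mul, Finset.mul_sum, ← Finset.sum_add_distrib]
  refine Finset.sum_congr rfl (fun j _ => ?_)
  rw [pderiv_mul, map_add, map_mul, map_mul]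
  ring

theorem pd_sq (f : MvPolynomial σ ℝ) (x v : σ → ℝ) : pd (f ^ 2) x v = 2 * eval x f * pd f x v := by
  rw [pow_two, pd_mul]
  ring

theorem pd_C (a : ℝ) (x v : σ → ℝ) : pd (C a) x v = 0 := by
  unfold pd
  exact Finset.sum_eq_zero (fun j _ => by rw [pderiv_C, map_zero, zero_mul])

theorem pd_one (x v : σ → ℝ) : pd (1 : MvPolynomial σ ℝ) x v = 0 := by
  rw [← C_1]
  exact pd_C 1 x v

theorem pd_X (j : σ) (x v : σ → ℝ) : pd (X j) x v = v j := by
  classical
  unfold pd
  rw [Finset.sum_eq_single j]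
  · rw [pderiv_X_self, map_one, one_mul]
  · intro i _ hi
    rw [pderiv_X_of_ne (fun h => hi h.symm), map_zero, zero_mul]
  · intro h
    exact absurd (Finset.mem_univ j) h

theorem pd_sum {J : Type} (s : Finset J) (f : J → MvPolynomial σ ℝ) (x v : σ → ℝ) :
    pd (∑ j ∈ s, f j) x v = ∑ j ∈ s, pd (f j) x v := by
  classical
  induction s using Finset.induction_on with
  | empty =>
    rw [Finset.sum_empty, Finset.sum_empty, ← C_0]
    exact pd_C 0 x v
  | insert a s ha ih => rw [Finset.sum_insert ha, Finset.sum_insert ha, pd_add, ih]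

theorem pd_add_right (f : MvPolynomial σ ℝ) (x v w : σ → ℝ) : pd f x (v + w) = pd f x v + pd f x w := by
  unfold pd
  rw [← Finset.sum_add_distrib]
  exact Finset.sum_congr rfl (fun j _ => by rw [Pi.add_apply, mul_add])

theorem pd_smul_right (f : MvPolynomial σ ℝ) (c : ℝ) (x v : σ → ℝ) : pd f x (c • v) = c * pd f x v := by
  unfold pd
  rw [Finset.mul_sum]
  exact Finset.sum_congr rfl (fun j _ => by rw [Pi.smul_apply, smul_eq_mul]; ring)

theorem nonsing_of {d : ℕ} (Z : Set (σ → ℝ)) (x : σ → ℝ) (hx : x ∈ Z) (f : I → MvPolynomial σ ℝ)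
    (hc : Fintype.card I + d = Fintype.card σ) (h0 : ∀ i, ∀ y ∈ Z, eval y (f i) = 0)
    (hs : ∀ u : I → ℝ, ∃ v, ∀ i, pd (f i) x v = u i) (U : Set (σ → ℝ)) (hU : IsOpen U) (hxU : x ∈ U)
    (hloc : ∀ y ∈ U, (∀ i, eval y (f i) = 0) → y ∈ Z) : NonsingAt d Z x := by
  classical
  let e : I ≃ Fin (Fintype.card I) := Fintype.equivFin I
  refine ⟨hx, Fintype.card I, fun i => f (e.symm i), U, hc, fun i y hy => h0 _ y hy, ?_, hU, hxU,
    fun y hy h => hloc y hy (fun i => by simpa using h (e i))⟩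
  rw [Fintype.linearIndependent_iff]
  intro g hg
  obtain ⟨v, hv⟩ := hs (fun i => g (e i))
  have h1 : ∑ i, g i * g i = 0 := by
    have h2 : ∀ i, g i * g i = ∑ j, g i * (eval x (pderiv j (f (e.symm i))) * v j) := by
      intro i
      have h3 := hv (e.symm i)
      unfold pd at h3
      rw [e.apply_symm_apply] at h3
      rw [← Finset.mul_sum, h3]
    rw [Finset.sum_congr rfl (fun i _ => h2 i), Finset.sum_comm]
    refine Finset.sum_eq_zero (fun j _ => ?_)
    have h4 := congrFun hg j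
    rw [Finset.sum_apply, Pi.zero_apply] at h4
    simp only [Pi.smul_apply, smul_eq_mul] at h4
    calc ∑ i, g i * (eval x (pderiv j (f (e.symm i))) * v j)
        = (∑ i, g i * eval x (pderiv j (f (e.symm i)))) * v j := by
          rw [Finset.sum_mul]
          exact Finset.sum_congr rfl (fun i _ => by ring)
      _ = 0 := by rw [h4, zero_mul]
  intro i
  have h5 := (Finset.sum_eq_zero_iff_of_nonneg (fun i _ => mul_self_nonneg (g i))).1 h1 i (Finset.mem_univ i)
  exact mul_self_eq_zero.1 h5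

theorem tan_of (Z : Set (σ → ℝ)) (x : σ → ℝ) (hx : x ∈ Z) (f : I → MvPolynomial σ ℝ)
    (h0 : ∀ i, ∀ y ∈ Z, eval y (f i) = 0)
    (hs : ∀ u : I → ℝ, ∃ v, ∀ i, pd (f i) x v = u i) (U : Set (σ → ℝ)) (hU : IsOpen U) (hxU : x ∈ U)
    (hloc : ∀ y ∈ U, (∀ i, eval y (f i) = 0) → y ∈ Z) (v : σ → ℝ) (hv : ∀ i, pd (f i) x v = 0) : Tan Z x v := by
  have hd : HasFDerivAt (fun y : σ → ℝ => fun i => eval y (f i))
      (ContinuousLinearMap.pi fun i => ∑ j, eval x (pderiv j (f i)) •
        (ContinuousLinearMap.proj j : (σ → ℝ) →L[ℝ] ℝ)) x :=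
    hasFDerivAt_pi.2 fun i => hasFDerivAt_eval (f i) x
  have happ : ∀ w : σ → ℝ, fderiv ℝ (fun y : σ → ℝ => fun i => eval y (f i)) x w = fun i => pd (f i) x w := by
    intro w
    rw [hd.fderiv]
    ext i
    simp [pd]
  have hcd : ContDiffOn ℝ ∞ (fun y : σ → ℝ => fun i => eval y (f i)) U :=
    (contDiff_pi.2 fun i => contDiff_eval (f i)).contDiffOn
  refine (tan_iff hU hxU (g := fun y : σ → ℝ => fun i => eval y (f i)) hcd ?_ hx ?_).2 ?_
  · intro y hy
    constructor
    · intro hyZ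
      ext i
      exact h0 i y hyZ
    · intro h
      exact hloc y hy (fun i => congrFun h i)
  · intro u
    obtain ⟨w, hw⟩ := hs u
    refine ⟨w, ?_⟩
    rw [happ]
    ext i
    exact hw i
  · rw [happ]
    ext i
    exact hv i

end Pool.Agent.Helper6.BP
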