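import Pool.Agent.Helper6.BP.VDefs
import Pool.Agent.Helper6.BP.Pd

/-!
PROJECT BP, block V: local equations of `V` and `N` near a point `(y yᵀ, t)` with `y_j ≠ 0`, for arbitrary symmetric matrices `G_l` and linear forms `L_k`. Definitions only.

`NG G ε L` is `V = Vemb G ε` cut by the equations `Y L_k = 0`. The polynomials `PP` are `Y_ab Y_jj - Y_aj Y_jb` (`a, b ≠ j`), `Y_aj - Y_ja` (`a ≠ j`), `tr Y - 1`, `|t|² + ∑ (∑ G_l Y)² - ε`,
`(Y L_k)_j`.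
-/

set_option autoImplicit false

namespace Pool.Agent.Helper6.BP

open Pool.Agent.Helper72.BP Pool.Agent.Helper79.BP
open MvPolynomial

/-- The tube cut by the linear equations `L_k = 0`. -/
def NG {ι τ : Type} [Fintype ι] [Fintype τ] {r q : ℕ} (G : Fin r → Matrix ι ι ℝ) (ε : ℝ) (L : Fin q → ι → ℝ) :
    Set (Amb ι τ → ℝ) := {x | x ∈ Vemb G ε ∧ ∀ k i, ∑ b, x (Sum.inl (i, b)) * L k b = 0}

/-- Index type of the local equations. -/
abbrev LI (ι : Type) (j : ι) (q : ℕ) : Type :=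
  ({a : ι // a ≠ j} × {a : ι // a ≠ j}) ⊕ ({a : ι // a ≠ j} ⊕ (Bool ⊕ Fin q))

/-- The local equations. -/
noncomputable def PP {ι τ : Type} [Fintype ι] [Fintype τ] {r q : ℕ} (G : Fin r → Matrix ι ι ℝ) (ε : ℝ)
    (L : Fin q → ι → ℝ) (j : ι) : LI ι j q → MvPolynomial (Amb ι τ) ℝ
  | Sum.inl (a, b) => X (Sum.inl (a.1, b.1)) * X (Sum.inl (j, j)) - X (Sum.inl (a.1, j)) * X (Sum.inl (j, b.1))
  | Sum.inr (Sum.inl a) => X (Sum.inl (a.1, j)) - X (Sum.inl (j, a.1))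
  | Sum.inr (Sum.inr (Sum.inl false)) => ∑ a, X (Sum.inl (a, a)) - 1
  | Sum.inr (Sum.inr (Sum.inl true)) =>
      ∑ s, X (Sum.inr s) ^ 2 + ∑ l, (∑ a, ∑ b, C (G l a b) * X (Sum.inl (a, b))) ^ 2 - C ε
  | Sum.inr (Sum.inr (Sum.inr k)) => ∑ b, X (Sum.inl (j, b)) * C (L k b)

end Pool.Agent.Helper6.BP
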