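import Pool.Agent.Helper6.BP.Tube
import Pool.Agent.Helper6.BP.LocDefs

/-!
PROJECT BP, block V, module BP-V19: elementary facts on the concrete `V`.

PROOF. `dd_eq`: `card (Ix p _) ≥ p + 1`, `card (Tx ..) ≥ card (Qx ..) + p`, `card (Qx ..) ≥ 1` (as `Mu` is nonempty); so the sum is `≥ p + 2` (`Fintype.card_sum`, `Fintype.card_fin`, `Fintype.card_pos`).
`sY_emb`, `Yl_emb`, `tpp_emb`: unfold (`emb`, `Yl`, `lam`). `hh_le`: `Ffun = 0`, `nsq y = 1`: `nsq t + h = ε`. `ssq_ne`: `wsq = 1 - ssq` (`nsq_eq`), `wsq_mul_ssq_le`: `ssq = 1/2` would give `1/4 ≤ h ≤ ε`.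
`sY_ne`: a point of `VV` is `emb x`. `NN_eq`: unfold. `V_cases`, `mem_NN`: `(Y λ_j)_i = y_i (λ_j·y)` and some `y_i ≠ 0`.
-/

set_option autoImplicit false

namespace Pool.Agent.Helper6.BP

open Pool.Agent.Helper72.BP Pool.Agent.Helper79.BP
open Matrix

variable {p m : ℕ}

theorem dd_eq (p m : ℕ) : dd p m + p + 2 = Fintype.card (Ix p (Kx m)) + Fintype.card (Tx p (rr p m) (Kx m)) := by
  have h1 : p + 1 ≤ Fintype.card (Ix p (Kx m)) := by
    rw [Fintype.card_sum, Fintype.card_fin]; omega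
  have h2 : 1 ≤ Fintype.card (Tx p (rr p m) (Kx m)) := by
    haveI : Nonempty (Tx p (rr p m) (Kx m)) := ⟨Sum.inl (Sum.inl (Sum.inl 0, Sum.inl 0))⟩
    exact Fintype.card_pos
  unfold dd
  omega

theorem sY_emb {τ : Type} (x : (Ix p (Kx m) → ℝ) × (τ → ℝ)) : sY (emb x) = ssq x.1 := by
  unfold sY ssq
  refine Finset.sum_congr rfl fun k _ => ?_
  simp only [emb, Sum.elim_inl]
  ring

theorem Yl_emb {τ : Type} (x : (Ix p (Kx m) → ℝ) × (τ → ℝ)) (j : Fin p) (i : Ix p (Kx m)) :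
    Yl (emb x) j i = x.1 i * dotProduct (lam j) x.1 := by
  unfold Yl
  rw [dotProduct, Finset.mul_sum]
  refine Finset.sum_congr rfl fun b _ => ?_
  simp only [emb, Sum.elim_inl]
  ring

theorem tpp_emb {r : ℕ} (x : (Ix p (Kx m) → ℝ) × (Tx p r (Kx m) → ℝ)) (j : Fin p) :
    tpp (emb x) j = x.2 (Sum.inr (Sum.inr j)) := by
  rfl

theorem hh_le (ε : ℝ) (x : (Ix p (Kx m) → ℝ) × (Tx p (rr p m) (Kx m) → ℝ)) (hx : x ∈ Vt (GG p m) ε) :
    hh x.1 ≤ ε := by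
  obtain ⟨h1, h2⟩ := hx
  unfold Ffun at h2
  rw [h1] at h2
  have h3 : (0 : ℝ) ≤ nsq x.2 := Finset.sum_nonneg fun i _ => sq_nonneg _
  have h4 : (algebraMap ℝ ℝ) ε = ε := rfl
  rw [h4] at h2
  unfold hh
  linarith

theorem ssq_ne (ε : ℝ) (h1 : ε < 1 / 4) (x : (Ix p (Kx m) → ℝ) × (Tx p (rr p m) (Kx m) → ℝ))
    (hx : x ∈ Vt (GG p m) ε) : ssq x.1 ≠ 1 / 2 := by
  intro h
  have h2 := hh_le ε x hx
  have h3 := wsq_mul_ssq_le x.1
  have h4 := nsq_eq x.1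
  rw [hx.1] at h4
  have h5 : wsq x.1 = 1 / 2 := by linarith
  rw [h5, h] at h3
  linarith

theorem sY_ne (ε : ℝ) (h1 : ε < 1 / 4) (x : Amb (Ix p (Kx m)) (Tx p (rr p m) (Kx m)) → ℝ) (hx : x ∈ VV p m ε) :
    sY x ≠ 1 / 2 := by
  obtain ⟨y, hy, rfl⟩ := hx
  rw [sY_emb]
  exact ssq_ne ε h1 y hy

theorem NN_eq (p m : ℕ) (ε : ℝ) : NN p m ε = NG (GG p m) ε lam := by
  rfl


theorem Yl_zero_iff {τ : Type} (x : (Ix p (Kx m) → ℝ) × (τ → ℝ)) (hx : nsq x.1 = 1) :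
    (∀ j i, Yl (emb x) j i = 0) ↔ ∀ j, dotProduct (lam j) x.1 = 0 := by
  constructor
  · intro h j
    by_contra hne
    have h1 : ∀ i, x.1 i = 0 := by
      intro i
      have h2 := h j i
      rw [Yl_emb] at h2
      exact (mul_eq_zero.mp h2).resolve_right hne
    have h3 : nsq x.1 = 0 := by
      unfold nsq
      exact Finset.sum_eq_zero fun i _ => by rw [h1 i]; ring
    rw [h3] at hx
    exact zero_ne_one hx
  · intro h j i
    rw [Yl_emb, h j, mul_zero]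

end Pool.Agent.Helper6.BP
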