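import Pool.Agent.Helper72.BP.Defs2
import Pool.Agent.Helper79.BP.Stat

/-!
PROJECT BP (MP_1cfd37_ag), block V (owner helper6): the concrete tube.

`Kx m = Sym2 (Fin m) × Bool`: real (`false`) and imaginary (`true`) parts of the entries of a complex symmetric `m × m` matrix `S`,
off-diagonal entries scaled by `√2`, so that `∑_ij ‖S_ij‖² = ∑_k y_k²`.
-/

set_option autoImplicit false

namespace Pool.Agent.Helper6.BP

open Pool.Agent.Helper72.BP Pool.Agent.Helper79.BP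
open Matrix

/-- Index type of the real coordinates of complex symmetric matrices. -/
abbrev Kx (m : ℕ) : Type := Sym2 (Fin m) × Bool

/-- The scaling factor. -/
noncomputable def cs {m : ℕ} (i j : Fin m) : ℝ := if i = j then 1 else Real.sqrt 2

theorem cs_comm {m : ℕ} (i j : Fin m) : cs i j = cs j i := by
  unfold cs
  by_cases h : i = j
  · rw [if_pos h, if_pos h.symm]
  · rw [if_neg h, if_neg (fun h' => h h'.symm)]

/-- Coefficient vector of the linear form `Re S_ij`. -/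
noncomputable def vr {p m : ℕ} (i j : Fin m) : Ix p (Kx m) → ℝ :=
  fun x => if x = Sum.inr (s(i, j), false) then 1 / cs i j else 0

/-- Coefficient vector of the linear form `Im S_ij`. -/
noncomputable def vi {p m : ℕ} (i j : Fin m) : Ix p (Kx m) → ℝ :=
  fun x => if x = Sum.inr (s(i, j), true) then 1 / cs i j else 0

/-- The complex symmetric matrix `S(y)`. -/
noncomputable def Sm {p m : ℕ} (y : Ix p (Kx m) → ℝ) : Matrix (Fin m) (Fin m) ℂ :=
  fun i j => ((y (Sum.inr (s(i, j), false)) / cs i j : ℝ) : ℂ) +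
    ((y (Sum.inr (s(i, j), true)) / cs i j : ℝ) : ℂ) * Complex.I

/-- The coordinates of (the symmetric part of) a complex matrix. -/
noncomputable def ofS {m : ℕ} (A : Matrix (Fin m) (Fin m) ℂ) : Kx m → ℝ :=
  fun k => Sym2.lift ⟨fun i j => cs i j * (if k.2 then ((A i j + A j i) / 2).im else ((A i j + A j i) / 2).re),
    fun i j => by
      change cs i j * (if k.2 then ((A i j + A j i) / 2).im else ((A i j + A j i) / 2).re) =
        cs j i * (if k.2 then ((A j i + A i j) / 2).im else ((A j i + A i j) / 2).re)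
      rw [cs_comm i j, add_comm (A i j)]⟩ k.1

/-- The symmetric matrix of the quadratic form `y ↦ (a·y)(b·y)`. -/
noncomputable def sp {ι : Type} (a b : ι → ℝ) : Matrix ι ι ℝ := fun i j => (a i * b j + b i * a j) / 2

/-- A coordinate vector. -/
def cv {ι : Type} [DecidableEq ι] (i : ι) : ι → ℝ := fun j => if j = i then 1 else 0

/-- Index type of the quadratic forms. -/
abbrev Lx (p m : ℕ) : Type := (Fin (p + 1) × Kx m) ⊕ (((Fin m × Fin m) × (Fin m × Fin m)) × Bool)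

/-- The quadratic forms: `w_i y_k` and half of the real and imaginary parts of `S_ij S_kl - S_il S_kj`. -/
noncomputable def Gm {p m : ℕ} : Lx p m → Matrix (Ix p (Kx m)) (Ix p (Kx m)) ℝ
  | Sum.inl (i, k) => sp (cv (Sum.inl i)) (cv (Sum.inr k))
  | Sum.inr (((i, j), (k, l)), false) => (1 / 2 : ℝ) • (sp (vr i j) (vr k l) - sp (vi i j) (vi k l) -
      sp (vr i l) (vr k j) + sp (vi i l) (vi k j))
  | Sum.inr (((i, j), (k, l)), true) => (1 / 2 : ℝ) • (sp (vr i j) (vi k l) + sp (vi i j) (vr k l) -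
      sp (vr i l) (vi k j) - sp (vi i l) (vr k j))

/-- The number of quadratic forms. -/
def rr (p m : ℕ) : ℕ := Fintype.card (Lx p m)

/-- The quadratic forms, indexed by `Fin`. -/
noncomputable def GG (p m : ℕ) : Fin (rr p m) → Matrix (Ix p (Kx m)) (Ix p (Kx m)) ℝ :=
  fun l => Gm ((Fintype.equivFin (Lx p m)).symm l)

/-- `z ↦ (0, z zᵀ)`. -/
noncomputable def qq (p m : ℕ) (z : Fin m → ℂ) : Ix p (Kx m) → ℝ :=
  Sum.elim (fun _ => 0) (ofS (Matrix.vecMulVec z z))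

/-- `h = ∑ g_l²`. -/
noncomputable def hh {p m : ℕ} (y : Ix p (Kx m) → ℝ) : ℝ := ∑ l, qf (GG p m l) y ^ 2

/-- `|w|²`. -/
def wsq {p m : ℕ} (y : Ix p (Kx m) → ℝ) : ℝ := ∑ i : Fin (p + 1), y (Sum.inl i) ^ 2

/-- `|S|²`. -/
def ssq {p m : ℕ} (y : Ix p (Kx m) → ℝ) : ℝ := ∑ k : Kx m, y (Sum.inr k) ^ 2

/-- The coefficients `c_jl`: `C_l(w) = (Re (c_jl w))_j` is `(w, θ w, θ² w, ..)` (truncated), `θ = l`. -/
noncomputable def cc {p m : ℕ} (j : Fin p) (l : Fin m) : ℂ :=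
  ((l : ℕ) : ℂ) ^ ((j : ℕ) / 2) * (if (j : ℕ) % 2 = 0 then 1 else -Complex.I)

/-- `f_j(S) = Re ∑_l c_jl S_ll`. -/
noncomputable def ff {p m : ℕ} (j : Fin p) (A : Matrix (Fin m) (Fin m) ℂ) : ℝ := (∑ l, cc j l * A l l).re

/-- The coefficients of `f_j(S(y))` with respect to the coordinates `y_k`. -/
noncomputable def aa {p m : ℕ} (j : Fin p) : Kx m → ℝ :=
  fun k => ∑ l : Fin m, ((cc j l).re * (if k = (s(l, l), false) then 1 else 0) -
    (cc j l).im * (if k = (s(l, l), true) then 1 else 0))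

/-- The coefficient vector of `l_j(y) = w_(j+1) + f_j(S(y))`. -/
noncomputable def lam {p m : ℕ} (j : Fin p) : Ix p (Kx m) → ℝ :=
  Sum.elim (fun i => if i = j.succ then 1 else 0) (aa j)

/-- `V`. -/
noncomputable def VV (p m : ℕ) (ε : ℝ) : Set (Amb (Ix p (Kx m)) (Tx p (rr p m) (Kx m)) → ℝ) :=
  Vemb (GG p m) ε

/-- `s = |S|²` as a function on `V`. -/
def sY {p m : ℕ} {τ : Type} (x : Amb (Ix p (Kx m)) τ → ℝ) : ℝ := ∑ k : Kx m, x (Sum.inl (Sum.inr k, Sum.inr k))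

/-- The vector `Y λ_j`. -/
noncomputable def Yl {p m : ℕ} {τ : Type} (x : Amb (Ix p (Kx m)) τ → ℝ) (j : Fin p) (i : Ix p (Kx m)) : ℝ :=
  ∑ b, x (Sum.inl (i, b)) * lam j b

/-- The coordinates `t''`. -/
def tpp {p m r : ℕ} (x : Amb (Ix p (Kx m)) (Tx p r (Kx m)) → ℝ) (j : Fin p) : ℝ :=
  x (Sum.inr (Sum.inr (Sum.inr j)))

/-- `N = {l_1 = .. = l_p = 0}`. -/
noncomputable def NN (p m : ℕ) (ε : ℝ) : Set (Amb (Ix p (Kx m)) (Tx p (rr p m) (Kx m)) → ℝ) :=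
  {x | x ∈ VV p m ε ∧ ∀ j i, Yl x j i = 0}

/-- `M_1 = N ∩ {s < 1/2}`. -/
noncomputable def M1 (p m : ℕ) (ε : ℝ) : Set (Amb (Ix p (Kx m)) (Tx p (rr p m) (Kx m)) → ℝ) :=
  {x | x ∈ VV p m ε ∧ sY x < 1 / 2 ∧ ∀ j i, Yl x j i = 0}

/-- `N_2 = N ∩ {s > 1/2}`. -/
noncomputable def N2 (p m : ℕ) (ε : ℝ) : Set (Amb (Ix p (Kx m)) (Tx p (rr p m) (Kx m)) → ℝ) :=
  {x | x ∈ VV p m ε ∧ 1 / 2 < sY x ∧ ∀ j i, Yl x j i = 0}

/-- `M_2 = V ∩ {s > 1/2, t'' = 0}`. -/
noncomputable def M2 (p m : ℕ) (ε : ℝ) : Set (Amb (Ix p (Kx m)) (Tx p (rr p m) (Kx m)) → ℝ) :=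
  {x | x ∈ VV p m ε ∧ 1 / 2 < sY x ∧ ∀ j, tpp x j = 0}

/-- `M`. -/
noncomputable def MM (p m : ℕ) (ε : ℝ) : Set (Amb (Ix p (Kx m)) (Tx p (rr p m) (Kx m)) → ℝ) := M1 p m ε ∪ M2 p m ε

/-- The bilinear form of a matrix. -/
def bf {ι : Type} [Fintype ι] (A : Matrix ι ι ℝ) (y v : ι → ℝ) : ℝ := ∑ i, ∑ j, A i j * y i * v j

/-- The derivative of `∑_l g_l²` at `y` in the direction `v` (the matrices are symmetric). -/
noncomputable def dG {ι : Type} [Fintype ι] {r : ℕ} (G : Fin r → Matrix ι ι ℝ) (y v : ι → ℝ) : ℝ :=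
  ∑ l, 4 * (qf (G l) y * bf (G l) y v)

/-- The derivative of `h`. -/
noncomputable def dh {p m : ℕ} (y v : Ix p (Kx m) → ℝ) : ℝ := dG (GG p m) y v

/-- The infinitesimal action of `O(p+1) × U(m)` on `y`: `w ↦ B w`, `S ↦ A S + S Aᵀ`. -/
noncomputable def rotv {p m : ℕ} (B : Matrix (Fin (p + 1)) (Fin (p + 1)) ℝ) (A : Matrix (Fin m) (Fin m) ℂ)
    (y : Ix p (Kx m) → ℝ) : Ix p (Kx m) → ℝ :=
  Sum.elim (fun i => ∑ i', B i i' * y (Sum.inl i')) (ofS (A * Sm y + Sm y * Aᵀ))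

/-- The derivative of `emb` at `(y, t)` in the direction `(v, u)`. -/
def tv {ι τ : Type} (y v : ι → ℝ) (u : τ → ℝ) : Amb ι τ → ℝ :=
  Sum.elim (fun b => v b.1 * y b.2 + y b.1 * v b.2) u

/-- The dimension of `M` and `N`. -/
noncomputable def dd (p m : ℕ) : ℕ :=
  Fintype.card (Ix p (Kx m)) + Fintype.card (Tx p (rr p m) (Kx m)) - (p + 2)

end Pool.Agent.Helper6.BP
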