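import Pool.Agent.Helper6.BP.VDefs

/-!
PROJECT BP, block V, module BP-V1: coordinates of complex symmetric matrices.

PROOF. Everything is linear. `sum_sym2`: sum over `(i, j)` by the fibres of `s(i, j)` (Finset.sum_fiberwise / Finset.sum_comp / `Finset.card`):
the fibre of `s(a, b)` is `{(a, a)}` if `a = b` (factor `1`) and `{(a, b), (b, a)}` if `a ≠ b` (two terms, each `1 / (√2)^2`).
`sum_normSq_Sm`, `inner_Sm`: `sum_sym2` with `F e = y (inr (e, false))² + y (inr (e, true))²` etc. and `Fintype.sum_prod_type`, `Fintype.sum_bool`.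
`Sm_ofS`: `ofS A (s(i, j), b)` is by definition `cs i j * ..`, divide by `cs i j ≠ 0`.
`ofS_Sm`: `Sym2.ind` on `k.1`.
`ff_Sm`, `dot_lam`: expand; `cs l l = 1`.
-/

set_option autoImplicit false

namespace Pool.Agent.Helper6.BP

open Pool.Agent.Helper72.BP Pool.Agent.Helper79.BP
open Matrix

variable {p m : ℕ}

private theorem h86_re (y : Ix p (Kx m) → ℝ) (i j : Fin m) :
    (Sm y i j).re = y (Sum.inr (s(i, j), false)) / cs i j := by
  unfold Sm
  simp

private theorem h86_im (y : Ix p (Kx m) → ℝ) (i j : Fin m) :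
    (Sm y i j).im = y (Sum.inr (s(i, j), true)) / cs i j := by
  unfold Sm
  simp

theorem cs_pos (i j : Fin m) : 0 < cs i j := by
  unfold cs
  split_ifs
  · exact one_pos
  · exact Real.sqrt_pos.2 two_pos

theorem cs_self (i : Fin m) : cs i i = 1 := by
  unfold cs
  rw [if_pos rfl]

theorem Sm_symm (y : Ix p (Kx m) → ℝ) (i j : Fin m) : Sm y i j = Sm y j i := by
  unfold Sm
  rw [cs_comm i j, Sym2.eq_swap]

theorem Sm_transpose (y : Ix p (Kx m) → ℝ) : (Sm y)ᵀ = Sm y := by
  ext i j
  rw [transpose_apply]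
  exact Sm_symm y j i

theorem Sm_add (y v : Ix p (Kx m) → ℝ) : Sm (y + v) = Sm y + Sm v := by
  ext i j
  simp only [Sm, Pi.add_apply, Matrix.add_apply]
  push_cast
  ring

theorem Sm_smul (c : ℝ) (y : Ix p (Kx m) → ℝ) : Sm (c • y) = (c : ℂ) • Sm y := by
  ext i j
  simp only [Sm, Pi.smul_apply, Matrix.smul_apply, smul_eq_mul]
  push_cast
  ring

theorem Sm_re (y : Ix p (Kx m) → ℝ) (i j : Fin m) : (Sm y i j).re = dotProduct (vr i j) y := by
  rw [h86_re]
  unfold vr dotProduct
  simp only [ite_mul, zero_mul, Finset.sum_ite_eq', Finset.mem_univ, if_true]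
  ring

theorem Sm_im (y : Ix p (Kx m) → ℝ) (i j : Fin m) : (Sm y i j).im = dotProduct (vi i j) y := by
  rw [h86_im]
  unfold vi dotProduct
  simp only [ite_mul, zero_mul, Finset.sum_ite_eq', Finset.mem_univ, if_true]
  ring

theorem continuous_Sm : Continuous (fun y : Ix p (Kx m) → ℝ => Sm y) := by
  refine continuous_matrix fun i j => ?_
  unfold Sm
  refine Continuous.add ?_ (Continuous.mul ?_ continuous_const)
  · exact Complex.continuous_ofReal.comp ((continuous_apply _).div_const _)
  · exact Complex.continuous_ofReal.comp ((continuous_apply _).div_const _)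

theorem continuous_ofS : Continuous (fun A : Matrix (Fin m) (Fin m) ℂ => ofS A) := by
  refine continuous_pi fun k => ?_
  rcases k with ⟨e, b⟩
  induction e using Sym2.ind with
  | _ i j =>
    have h : Continuous fun A : Matrix (Fin m) (Fin m) ℂ => (A i j + A j i) / 2 :=
      ((continuous_id.matrix_elem i j).add (continuous_id.matrix_elem j i)).div_const _
    cases b
    · exact continuous_const.mul (Complex.continuous_re.comp h)
    · exact continuous_const.mul (Complex.continuous_im.comp h)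

theorem Sm_ofS (w : Fin (p + 1) → ℝ) (A : Matrix (Fin m) (Fin m) ℂ) (hA : Aᵀ = A) :
    Sm (Sum.elim w (ofS A) : Ix p (Kx m) → ℝ) = A := by
  ext i j
  have hs : A j i = A i j := congrFun (congrFun hA i) j
  have h1 : ofS A (s(i, j), false) = cs i j * (A i j).re := by
    change cs i j * ((A i j + A j i) / 2).re = _
    rw [hs, add_self_div_two]
  have h2 : ofS A (s(i, j), true) = cs i j * (A i j).im := by
    change cs i j * ((A i j + A j i) / 2).im = _
    rw [hs, add_self_div_two]
  unfold Sm
  rw [Sum.elim_inr, Sum.elim_inr, h1, h2, mul_div_cancel_left₀ _ (cs_pos i j).ne',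
    mul_div_cancel_left₀ _ (cs_pos i j).ne', Complex.re_add_im]

theorem ofS_Sm (y : Ix p (Kx m) → ℝ) : ofS (Sm y) = fun k => y (Sum.inr k) := by
  funext k
  rcases k with ⟨e, b⟩
  induction e using Sym2.ind with
  | _ i j =>
    cases b
    · change cs i j * ((Sm y i j + Sm y j i) / 2).re = _
      rw [← Sm_symm y i j, add_self_div_two, h86_re, mul_div_cancel₀ _ (cs_pos i j).ne']
    · change cs i j * ((Sm y i j + Sm y j i) / 2).im = _
      rw [← Sm_symm y i j, add_self_div_two, h86_im, mul_div_cancel₀ _ (cs_pos i j).ne']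

theorem ofS_add (A B : Matrix (Fin m) (Fin m) ℂ) : ofS (A + B) = ofS A + ofS B := by
  funext k
  rcases k with ⟨e, b⟩
  induction e using Sym2.ind with
  | _ i j =>
    have h : ((A + B) i j + (A + B) j i) / 2 = (A i j + A j i) / 2 + (B i j + B j i) / 2 := by
      rw [Matrix.add_apply, Matrix.add_apply]
      ring
    cases b
    · change cs i j * (((A + B) i j + (A + B) j i) / 2).re =
        cs i j * ((A i j + A j i) / 2).re + cs i j * ((B i j + B j i) / 2).re
      rw [h, Complex.add_re, mul_add]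
    · change cs i j * (((A + B) i j + (A + B) j i) / 2).im =
        cs i j * ((A i j + A j i) / 2).im + cs i j * ((B i j + B j i) / 2).im
      rw [h, Complex.add_im, mul_add]

theorem ofS_smul (c : ℝ) (A : Matrix (Fin m) (Fin m) ℂ) : ofS ((c : ℂ) • A) = c • ofS A := by
  funext k
  rcases k with ⟨e, b⟩
  induction e using Sym2.ind with
  | _ i j =>
    have h : (((c : ℂ) • A) i j + ((c : ℂ) • A) j i) / 2 = (c : ℂ) * ((A i j + A j i) / 2) := by
      rw [Matrix.smul_apply, Matrix.smul_apply, smul_eq_mul, smul_eq_mul]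
      ring
    cases b
    · change cs i j * ((((c : ℂ) • A) i j + ((c : ℂ) • A) j i) / 2).re =
        c * (cs i j * ((A i j + A j i) / 2).re)
      rw [h, Complex.re_ofReal_mul]
      ring
    · change cs i j * ((((c : ℂ) • A) i j + ((c : ℂ) • A) j i) / 2).im =
        c * (cs i j * ((A i j + A j i) / 2).im)
      rw [h, Complex.im_ofReal_mul]
      ring

theorem sum_sym2 (F : Sym2 (Fin m) → ℝ) : ∑ i : Fin m, ∑ j : Fin m, F s(i, j) * (1 / cs i j) ^ 2 = ∑ e, F e := by
  rw [← Fintype.sum_prod_type' (fun i j : Fin m => F s(i, j) * (1 / cs i j) ^ 2),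
    ← Finset.sum_fiberwise Finset.univ (fun x : Fin m × Fin m => s(x.1, x.2))]
  refine Finset.sum_congr rfl fun e _ => ?_
  induction e using Sym2.ind with
  | _ a b =>
    have hf : (Finset.univ.filter fun x : Fin m × Fin m => s(x.1, x.2) = s(a, b)) = {(a, b), (b, a)} := by
      ext ⟨i, j⟩
      simp only [Finset.mem_filter, Finset.mem_univ, true_and, Sym2.eq_iff, Finset.mem_insert,
        Finset.mem_singleton, Prod.mk.injEq]
    rw [hf]
    by_cases hab : a = b
    · subst hab
      rw [Finset.pair_eq_singleton, Finset.sum_singleton]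
      simp only [cs_self]
      norm_num
    · rw [Finset.sum_pair (fun h => hab (congrArg Prod.fst h))]
      have h2 : (1 / cs a b) ^ 2 = 1 / 2 := by
        unfold cs
        rw [if_neg hab, div_pow, one_pow, Real.sq_sqrt (by norm_num : (0 : ℝ) ≤ 2)]
      simp only [cs_comm b a, h2, Sym2.eq_swap (a := b) (b := a)]
      ring

theorem sum_normSq_Sm (y : Ix p (Kx m) → ℝ) : ∑ i, ∑ j, Complex.normSq (Sm y i j) = ssq y := by
  rw [ssq, Fintype.sum_prod_type, ← sum_sym2]
  refine Finset.sum_congr rfl fun i _ => Finset.sum_congr rfl fun j _ => ?_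
  rw [Complex.normSq_apply, h86_re, h86_im, Fintype.sum_bool]
  ring

theorem inner_Sm (y v : Ix p (Kx m) → ℝ) :
    ∑ i, ∑ j, (Sm y i j * star (Sm v i j)).re = ∑ k : Kx m, y (Sum.inr k) * v (Sum.inr k) := by
  rw [Fintype.sum_prod_type, ← sum_sym2]
  refine Finset.sum_congr rfl fun i _ => Finset.sum_congr rfl fun j _ => ?_
  rw [Complex.star_def, Complex.mul_re, Complex.conj_re, Complex.conj_im, h86_re, h86_im, h86_re, h86_im,
    Fintype.sum_bool]
  ring

theorem nsq_eq (y : Ix p (Kx m) → ℝ) : nsq y = wsq y + ssq y := by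
  unfold nsq wsq ssq
  rw [Fintype.sum_sum_type]

theorem ff_add (j : Fin p) (A B : Matrix (Fin m) (Fin m) ℂ) : ff j (A + B) = ff j A + ff j B := by
  unfold ff
  rw [← Complex.add_re, ← Finset.sum_add_distrib]
  congr 1
  refine Finset.sum_congr rfl fun l _ => ?_
  rw [Matrix.add_apply, mul_add]

theorem ff_smul (j : Fin p) (c : ℝ) (A : Matrix (Fin m) (Fin m) ℂ) : ff j ((c : ℂ) • A) = c * ff j A := by
  unfold ff
  rw [← Complex.re_ofReal_mul, Finset.mul_sum]
  congr 1
  refine Finset.sum_congr rfl fun l _ => ?_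
  rw [Matrix.smul_apply, smul_eq_mul]
  ring

theorem continuous_ff (j : Fin p) : Continuous (fun A : Matrix (Fin m) (Fin m) ℂ => ff j A) := by
  unfold ff
  refine Complex.continuous_re.comp (continuous_finsetSum _ fun l _ => ?_)
  exact continuous_const.mul (continuous_id.matrix_elem l l)

theorem ff_Sm (j : Fin p) (y : Ix p (Kx m) → ℝ) : ff j (Sm y) = ∑ k : Kx m, aa j k * y (Sum.inr k) := by
  unfold ff aa
  rw [Complex.re_sum]
  simp only [Finset.sum_mul]
  rw [Finset.sum_comm]
  refine Finset.sum_congr rfl fun l _ => ?_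
  simp only [sub_mul, mul_assoc, ite_mul, one_mul, zero_mul, Finset.sum_sub_distrib]
  rw [← Finset.mul_sum, ← Finset.mul_sum, Finset.sum_ite_eq' Finset.univ (s(l, l), false),
    Finset.sum_ite_eq' Finset.univ (s(l, l), true), if_pos (Finset.mem_univ _), if_pos (Finset.mem_univ _),
    Complex.mul_re, h86_re, h86_im, cs_self, div_one, div_one]

theorem dot_lam (j : Fin p) (y : Ix p (Kx m) → ℝ) :
    dotProduct (lam j) y = y (Sum.inl j.succ) + ff j (Sm y) := by
  rw [ff_Sm]
  unfold lam dotProduct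
  rw [Fintype.sum_sum_type]
  simp only [Sum.elim_inl, Sum.elim_inr, ite_mul, one_mul, zero_mul, Finset.sum_ite_eq', Finset.mem_univ,
    if_true]

/-- `S` of the infinitesimal action. -/
theorem Sm_rotv (B : Matrix (Fin (p + 1)) (Fin (p + 1)) ℝ) (A : Matrix (Fin m) (Fin m) ℂ) (y : Ix p (Kx m) → ℝ) :
    Sm (rotv B A y) = A * Sm y + Sm y * Aᵀ := by
  unfold rotv
  refine Sm_ofS _ _ ?_
  rw [transpose_add, transpose_mul, transpose_mul, transpose_transpose, Sm_transpose, add_comm]

end Pool.Agent.Helper6.BP
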