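import Pool.Agent.Helper6.BP.SpanA
import Pool.Agent.Helper6.BP.Coord

/-!
PROJECT BP, block V, module BP-V10: the infinitesimal unitary directions at a matrix of rank one.

PROOF of `onto_rank_one`. `f_j(z zᵀ) = Re ∑_l c_jl z_l²`. Take `A = {l | z_l ≠ 0}` (nonempty), `w_l = z_l²`: there is `v` with `Re ∑_(l ∈ A) c_jl v_l = u_j`. `x_l = v_l / (2 z_l)` on `A`,
`x_l = 0` off `A`: `Re ∑_l c_jl 2 x_l z_l = u_j`. `c = ∑_l conj(z_l) x_l`. `A = x zᴴ - z xᴴ - i Im(c) z zᴴ` (i.e. `A_ab = x_a conj(z_b) - z_a conj(x_b) - i Im(c) z_a conj(z_b)`):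
`Aᴴ = -A`, `A z = x - conj(c) z - i Im(c) z = x - Re(c) z`. `A z zᵀ + z zᵀ Aᵀ = (A z) zᵀ + z (A z)ᵀ` has diagonal `2 (A z)_l z_l`, so
`f_j = Re ∑_l c_jl 2 x_l z_l - 2 Re(c) Re ∑_l c_jl z_l² = u_j - 0`.
-/

set_option autoImplicit false

namespace Pool.Agent.Helper6.BP

open Pool.Agent.Helper72.BP Pool.Agent.Helper79.BP
open Matrix

variable {p m : ℕ}

theorem onto_rank_one (z : Fin m → ℂ) (hz : ∑ a, ‖z a‖ ^ 2 = 1) (h : ∀ j : Fin p, ff j (vecMulVec z z) = 0)
    (u : Fin p → ℝ) : ∃ A : Matrix (Fin m) (Fin m) ℂ, Aᴴ = -A ∧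
      ∀ j, ff j (A * vecMulVec z z + vecMulVec z z * Aᵀ) = u j := by
  classical
  have hzz : ∑ a, star (z a) * z a = 1 := by
    have h1 : ∀ a, star (z a) * z a = ((‖z a‖ ^ 2 : ℝ) : ℂ) := by
      intro a
      rw [Complex.star_def, mul_comm, Complex.mul_conj, Complex.normSq_eq_norm_sq]
    rw [Finset.sum_congr rfl (fun a _ => h1 a), ← Complex.ofReal_sum, hz, Complex.ofReal_one]
  have h0 : ∀ j : Fin p, (∑ l, cc j l * (z l * z l)).re = 0 := fun j => h j
  obtain ⟨S, hS⟩ : ∃ S : Finset (Fin m), S = Finset.univ.filter fun l => z l ≠ 0 := ⟨_, rfl⟩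
  have hmem : ∀ l, l ∈ S ↔ z l ≠ 0 := by
    intro l
    rw [hS]
    simp
  have hne : S.Nonempty := by
    by_contra hcon
    rw [Finset.not_nonempty_iff_eq_empty] at hcon
    have h1 : ∀ l, z l = 0 := by
      intro l
      by_contra hl
      have h2 := (hmem l).2 hl
      rw [hcon] at h2
      simp at h2
    simp [h1] at hz
  obtain ⟨v, hv⟩ := span_cc (p := p) S hne (fun l => z l * z l)
    (fun l hl => mul_ne_zero ((hmem l).1 hl) ((hmem l).1 hl))
    (fun j => by
      rw [← h0 j]
      congr 1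
      refine Finset.sum_subset (Finset.subset_univ S) ?_
      intro l _ hl
      have h1 : z l = 0 := by
        by_contra hc
        exact hl ((hmem l).2 hc)
      simp [h1]) u
  obtain ⟨x, hx⟩ : ∃ x : Fin m → ℂ, x = fun l => if z l = 0 then 0 else v l / (2 * z l) := ⟨_, rfl⟩
  have hx1 : ∀ j : Fin p, (∑ l, cc j l * (2 * x l * z l)).re = u j := by
    intro j
    rw [← hv j]
    congr 1
    symm
    rw [← Finset.sum_subset (Finset.subset_univ S)]
    · refine Finset.sum_congr rfl fun l hl => ?_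
      have h1 := (hmem l).1 hl
      rw [hx]
      simp only [h1, if_false]
      field_simp
    · intro l _ hl
      have h1 : z l = 0 := by
        by_contra hc
        exact hl ((hmem l).2 hc)
      simp [h1]
  obtain ⟨c, hc⟩ : ∃ c : ℂ, c = ∑ l, star (z l) * x l := ⟨_, rfl⟩
  have hc' : ∑ l, star (x l) * z l = star c := by
    rw [hc, star_sum]
    refine Finset.sum_congr rfl fun l _ => ?_
    rw [star_mul, star_star]
  obtain ⟨M, hM⟩ : ∃ M : Matrix (Fin m) (Fin m) ℂ,
      ∀ a b, M a b = x a * star (z b) - z a * star (x b) - Complex.I * (c.im : ℂ) * (z a * star (z b)) :=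
    ⟨fun a b => _, fun a b => rfl⟩
  refine ⟨M, ?_, ?_⟩
  · ext a b
    rw [conjTranspose_apply, Matrix.neg_apply, hM, hM]
    simp only [star_sub, star_mul, Complex.star_def, Complex.conj_I, Complex.conj_ofReal, Complex.conj_conj]
    ring
  · intro j
    have hA : ∀ l, ∑ b, M l b * z b = x l - (c.re : ℂ) * z l := by
      intro l
      have h1 : ∀ b, M l b * z b =
          x l * (star (z b) * z b) - z l * (star (x b) * z b) - Complex.I * (c.im : ℂ) * z l * (star (z b) * z b) := by
        intro b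
        rw [hM]
        ring
      rw [Finset.sum_congr rfl (fun b _ => h1 b), Finset.sum_sub_distrib, Finset.sum_sub_distrib, ← Finset.mul_sum,
        ← Finset.mul_sum, ← Finset.mul_sum, hzz, hc']
      have h2 : star c = (c.re : ℂ) - (c.im : ℂ) * Complex.I := by
        rw [Complex.star_def]
        apply Complex.ext <;> simp
      rw [h2]
      ring
    have hd : ∀ l, (M * vecMulVec z z + vecMulVec z z * Mᵀ) l l = 2 * x l * z l - 2 * (c.re : ℂ) * (z l * z l) := by
      intro l
      rw [Matrix.add_apply, Matrix.mul_apply, Matrix.mul_apply]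
      simp only [vecMulVec_apply, transpose_apply]
      have h1 : ∀ b, M l b * (z b * z l) = M l b * z b * z l := by
        intro b
        ring
      have h2 : ∀ b, z l * z b * M l b = M l b * z b * z l := by
        intro b
        ring
      rw [Finset.sum_congr rfl (fun b _ => h1 b), Finset.sum_congr rfl (fun b _ => h2 b), ← Finset.sum_mul, hA l]
      ring
    have he : ff j (M * vecMulVec z z + vecMulVec z z * Mᵀ) =
        (∑ l, cc j l * (2 * x l * z l - 2 * (c.re : ℂ) * (z l * z l))).re := by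
      unfold ff
      congr 1
      exact Finset.sum_congr rfl fun l _ => by rw [hd l]
    have h3 : ∀ l, cc j l * (2 * x l * z l - 2 * (c.re : ℂ) * (z l * z l)) =
        cc j l * (2 * x l * z l) - ((2 * c.re : ℝ) : ℂ) * (cc j l * (z l * z l)) := by
      intro l
      push_cast
      ring
    rw [he, Finset.sum_congr rfl (fun l _ => h3 l), Finset.sum_sub_distrib, ← Finset.mul_sum, Complex.sub_re, hx1 j,
      Complex.re_ofReal_mul, h0 j, mul_zero, sub_zero]

end Pool.Agent.Helper6.BP
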