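import Pool.Agent.Helper6.BP.SmallA
import Pool.Agent.Helper6.BP.SpanB

/-!
PROJECT BP, block V, module BP-V12: the unitary directions are onto on `N_2` for small `ε`, by compactness.

PROOF of `small2`. Otherwise for every `n` there are `y_n` with `nsq y_n = 1`, `1/2 ≤ ssq y_n`, `h(y_n) < 1/(n+1)`, `λ_j·y_n = 0`, for which the conclusion fails. A subsequence converges
to `y*` (compact sphere) with `h(y*) = 0`, `ssq ≥ 1/2`, `λ_j·y* = 0`. By `hh_zero` `w* = 0`, `Sm y* = z zᵀ`, `|z| = 1`, and `f_j(z zᵀ) = λ_j·y* - w_(j+1) = 0`. By `onto_rank_one` there are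
skew-hermitian `A_k` (`k : Fin p`) with `f_j(A_k S* + S* A_kᵀ) = δ_jk`. The determinant of the real matrix `(f_j(A_k S + S A_kᵀ))_(j,k)` is continuous in `S`, so it is `≠ 0` at `y_n` for `n`
large; then for every `u` a real combination `A = ∑ x_k A_k` solves the problem: contradiction.
(Or: the set `O` of `y` for which that determinant is `≠ 0` for some choice of skew-hermitian `A_k` is open and contains the compact zero set.)
-/

set_option autoImplicit false

namespace Pool.Agent.Helper6.BP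

open Pool.Agent.Helper72.BP Pool.Agent.Helper79.BP
open Matrix

variable {p m : ℕ}

private def Good (y : Ix p (Kx m) → ℝ) : Prop :=
  ∀ u : Fin p → ℝ, ∃ A : Matrix (Fin m) (Fin m) ℂ, Aᴴ = -A ∧ ∀ j, ff j (A * Sm y + Sm y * Aᵀ) = u j

private theorem nsq_cont (p m : ℕ) : Continuous (fun y : Ix p (Kx m) → ℝ => nsq y) := by
  unfold nsq
  exact continuous_finsetSum _ fun i _ => (continuous_apply i).pow 2

private theorem ssq_cont (p m : ℕ) : Continuous (fun y : Ix p (Kx m) → ℝ => ssq y) := by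
  unfold ssq
  exact continuous_finsetSum _ fun i _ => (continuous_apply _).pow 2

private theorem dot_cont (j : Fin p) : Continuous (fun y : Ix p (Kx m) → ℝ => dotProduct (lam j) y) := by
  unfold dotProduct
  exact continuous_finsetSum _ fun i _ => continuous_const.mul (continuous_apply i)

private theorem isCompact_K (p m : ℕ) : IsCompact {y : Ix p (Kx m) → ℝ |
    nsq y = 1 ∧ 1 / 2 ≤ ssq y ∧ ∀ j : Fin p, dotProduct (lam j) y = 0} := by
  have h0 : {y : Ix p (Kx m) → ℝ | nsq y = 1 ∧ 1 / 2 ≤ ssq y ∧ ∀ j : Fin p, dotProduct (lam j) y = 0} =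
      {y : Ix p (Kx m) → ℝ | nsq y = 1} ∩ ({y : Ix p (Kx m) → ℝ | 1 / 2 ≤ ssq y} ∩
        ⋂ j : Fin p, {y : Ix p (Kx m) → ℝ | dotProduct (lam j) y = 0}) := by
    ext y
    simp only [Set.mem_setOf_eq, Set.mem_inter_iff, Set.mem_iInter]
  rw [h0]
  refine Metric.isCompact_of_isClosed_isBounded ?_ ?_
  · exact (isClosed_eq (nsq_cont p m) continuous_const).inter
      ((isClosed_le continuous_const (ssq_cont p m)).inter
        (isClosed_iInter fun j => isClosed_eq (dot_cont j) continuous_const))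
  · refine (Metric.isBounded_closedBall (x := (0 : Ix p (Kx m) → ℝ)) (r := 1)).subset ?_
    rintro y ⟨hy, -⟩
    rw [mem_closedBall_zero_iff, pi_norm_le_iff_of_nonneg zero_le_one]
    intro i
    have h1 : y i ^ 2 ≤ 1 := by
      have h2 : nsq y = 1 := hy
      rw [← h2]
      exact Finset.single_le_sum (f := fun i => y i ^ 2) (fun i _ => sq_nonneg (y i)) (Finset.mem_univ i)
    rw [Real.norm_eq_abs, abs_le]
    constructor <;> nlinarith

private theorem good_of_zero (y : Ix p (Kx m) → ℝ) (h1 : nsq y = 1) (h2 : 1 / 2 ≤ ssq y)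
    (h3 : ∀ j : Fin p, dotProduct (lam j) y = 0) (h4 : hh y = 0) : Good y := by
  rcases hh_zero y h1 h4 with h | ⟨hw, z, hz, hz1⟩
  · exfalso
    rw [h] at h2
    norm_num at h2
  · have hw' : ∀ i : Fin (p + 1), y (Sum.inl i) = 0 := by
      intro i
      have h5 := (Finset.sum_eq_zero_iff_of_nonneg (fun i _ => sq_nonneg (y (Sum.inl i)))).mp hw i
        (Finset.mem_univ i)
      exact pow_eq_zero_iff (two_ne_zero) |>.mp h5
    have h6 : ∀ j : Fin p, ff j (vecMulVec z z) = 0 := by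
      intro j
      have h7 := h3 j
      rw [dot_lam, hw', zero_add, hz] at h7
      exact h7
    intro u
    rw [hz]
    exact onto_rank_one z hz1 h6 u

/-- The matrix of the images of given directions. -/
private noncomputable def dm (A : Fin p → Matrix (Fin m) (Fin m) ℂ) (y : Ix p (Kx m) → ℝ) :
    Matrix (Fin p) (Fin p) ℝ := fun j k => ff j (A k * Sm y + Sm y * (A k)ᵀ)

private theorem dm_cont (A : Fin p → Matrix (Fin m) (Fin m) ℂ) : Continuous (fun y => dm A y) := by
  refine continuous_matrix fun j k => ?_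
  unfold dm
  refine (continuous_ff j).comp ?_
  exact (continuous_const.mul continuous_Sm).add (continuous_Sm.mul continuous_const)

private theorem ff_sum (j : Fin p) (x : Fin p → ℝ) (B : Fin p → Matrix (Fin m) (Fin m) ℂ) (s : Finset (Fin p)) :
    ff j (∑ k ∈ s, (x k : ℂ) • B k) = ∑ k ∈ s, x k * ff j (B k) := by
  induction s using Finset.induction_on with
  | empty =>
    rw [Finset.sum_empty, Finset.sum_empty]
    unfold ff
    simp
  | insert a s ha ih =>
    rw [Finset.sum_insert ha, Finset.sum_insert ha, ff_add, ff_smul, ih]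

private theorem good_of_det (A : Fin p → Matrix (Fin m) (Fin m) ℂ) (hA : ∀ k, (A k)ᴴ = -A k)
    (y : Ix p (Kx m) → ℝ) (h : (dm A y).det ≠ 0) : Good y := by
  intro u
  set x : Fin p → ℝ := (dm A y)⁻¹.mulVec u with hx
  have hx1 : (dm A y).mulVec x = u := by
    rw [hx, Matrix.mulVec_mulVec, Matrix.mul_nonsing_inv _ (isUnit_iff_ne_zero.mpr h), Matrix.one_mulVec]
  refine ⟨∑ k, (x k : ℂ) • A k, ?_, ?_⟩
  · rw [Matrix.conjTranspose_sum, ← Finset.sum_neg_distrib]
    refine Finset.sum_congr rfl fun k _ => ?_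
    rw [Matrix.conjTranspose_smul, hA k, Complex.star_def, Complex.conj_ofReal, smul_neg]
  · intro j
    have h1 : (∑ k, (x k : ℂ) • A k) * Sm y + Sm y * (∑ k, (x k : ℂ) • A k)ᵀ =
        ∑ k, (x k : ℂ) • (A k * Sm y + Sm y * (A k)ᵀ) := by
      rw [Matrix.transpose_sum, Finset.sum_mul, Finset.mul_sum, ← Finset.sum_add_distrib]
      refine Finset.sum_congr rfl fun k _ => ?_
      rw [Matrix.transpose_smul, Matrix.smul_mul, Matrix.mul_smul, smul_add]
    rw [h1, ff_sum]
    have h2 := congrFun hx1 j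
    rw [← h2]
    unfold Matrix.mulVec dotProduct
    refine Finset.sum_congr rfl fun k _ => ?_
    exact mul_comm _ _

private theorem isOpen_good (p m : ℕ) : IsOpen {y : Ix p (Kx m) → ℝ | Good y} := by
  rw [isOpen_iff_mem_nhds]
  intro y hy
  have hy' : Good y := hy
  choose A hA hA1 using fun k : Fin p => hy' (Pi.single k 1)
  have h1 : dm A y = 1 := by
    ext j k
    change ff j (A k * Sm y + Sm y * (A k)ᵀ) = _
    rw [hA1 k j, Matrix.one_apply, Pi.single_apply]
  have h2 : (dm A y).det ≠ 0 := by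
    rw [h1, Matrix.det_one]
    exact one_ne_zero
  have h3 : Continuous (fun y => (dm A y).det) := (dm_cont A).matrix_det
  filter_upwards [h3.continuousAt.eventually_ne h2] with y' hy'
  exact good_of_det A hA y' hy'

theorem small2 (p m : ℕ) : ∃ ε0 > 0, ∀ y : Ix p (Kx m) → ℝ, nsq y = 1 → 1 / 2 ≤ ssq y → hh y < ε0 →
    (∀ j, dotProduct (lam j) y = 0) → ∀ u : Fin p → ℝ, ∃ A : Matrix (Fin m) (Fin m) ℂ, Aᴴ = -A ∧
      ∀ j, ff j (A * Sm y + Sm y * Aᵀ) = u j := by
  have hK : IsCompact ({y : Ix p (Kx m) → ℝ |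
      nsq y = 1 ∧ 1 / 2 ≤ ssq y ∧ ∀ j : Fin p, dotProduct (lam j) y = 0} ∩ {y | Good y}ᶜ) :=
    (isCompact_K p m).inter_right (isOpen_good p m).isClosed_compl
  have h0 : ∀ y : Ix p (Kx m) → ℝ, 0 ≤ hh y := fun y => Finset.sum_nonneg fun l _ => sq_nonneg _
  rcases Set.eq_empty_or_nonempty ({y : Ix p (Kx m) → ℝ |
      nsq y = 1 ∧ 1 / 2 ≤ ssq y ∧ ∀ j : Fin p, dotProduct (lam j) y = 0} ∩ {y | Good y}ᶜ) with he | hne
  · refine ⟨1, one_pos, ?_⟩
    intro y h1 h2 _ h3
    have h4 : Good y := by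
      by_contra h5
      have h6 : y ∈ ({y : Ix p (Kx m) → ℝ |
          nsq y = 1 ∧ 1 / 2 ≤ ssq y ∧ ∀ j : Fin p, dotProduct (lam j) y = 0} ∩ {y | Good y}ᶜ) :=
        ⟨⟨h1, h2, h3⟩, h5⟩
      rw [he] at h6
      exact h6
    exact h4
  · obtain ⟨y0, hy0, hmin⟩ := hK.exists_isMinOn hne (continuous_hh p m).continuousOn
    refine ⟨hh y0, ?_, ?_⟩
    · refine lt_of_le_of_ne (h0 y0) ?_
      intro h1
      exact hy0.2 (good_of_zero y0 hy0.1.1 hy0.1.2.1 hy0.1.2.2 h1.symm)
    · intro y h1 h2 h7 h3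
      have h4 : Good y := by
        by_contra h5
        exact absurd h7 (not_lt.mpr (hmin ⟨⟨h1, h2, h3⟩, h5⟩))
      exact h4

end Pool.Agent.Helper6.BP
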