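import Pool.Agent.Helper6.BP.GeoB
import Pool.Agent.Helper6.BP.Inv
import Pool.Agent.Helper6.BP.SmallB

/-!
PROJECT BP, block V, module BP-V21: `N` is nonsingular for small `ε`.

PROOF. `onto_N`: take `ε0` = minimum of the two numbers of `small1`, `small2`. Let `x = (y, t) ∈ V~`, `λ_j·y = 0`, `h(y) ≤ ε < ε0` (`hh_le`).
 If `ssq y ≤ 1/2`, `y_0 ≠ 0`: `B = ∑_k (u_k / y_0) (E_(k+1,0) - E_(0,k+1))` (skew), `A = 0`, `v = rotv B 0 y`: `λ_j·v = (B w)_(j+1) + f_j(S v) = u_j` (`dot_lam`, `Sm_rotv`).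
 If `1/2 ≤ ssq y`: `A` from `small2`, `v = rotv 0 A y`: `λ_j·v = 0 + f_j(A S + S Aᵀ) = u_j`.
 `dot_rotv`, `dh_rotv` give the other two equations.
`isCNV_NN`: `NN_eq`, `isAlg_NG`, `isCompact_NG`, `nonsing_NG` (`d = dd p m`, `q = p`, `dd_eq`; `H1` from `h1V`, `H2` from `onto_N` with `u = 0`; a point of `NN` is `emb x` with `λ_j·x.1 = 0`, `emb_mem_NG`).
-/

set_option autoImplicit false

namespace Pool.Agent.Helper6.BP

open Pool.Agent.Helper72.BP Pool.Agent.Helper79.BP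
open Matrix

variable {p m : ℕ}

private theorem dot_lam_rotv (B : Matrix (Fin (p + 1)) (Fin (p + 1)) ℝ) (A : Matrix (Fin m) (Fin m) ℂ)
    (y : Ix p (Kx m) → ℝ) (j : Fin p) :
    dotProduct (lam j) (rotv B A y) = (∑ i', B j.succ i' * y (Sum.inl i')) + ff j (A * Sm y + Sm y * Aᵀ) := by
  rw [dot_lam, Sm_rotv]
  rfl

theorem onto_N (p m : ℕ) : ∃ ε0 > 0, ∀ ε, 0 < ε → ε < ε0 → ∀ x : (Ix p (Kx m) → ℝ) × (Tx p (rr p m) (Kx m) → ℝ),
    x ∈ Vt (GG p m) ε → (∀ j, dotProduct (lam j) x.1 = 0) → ∀ u : Fin p → ℝ,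
    ∃ v : Ix p (Kx m) → ℝ, dotProduct x.1 v = 0 ∧ dh x.1 v = 0 ∧ ∀ j, dotProduct (lam j) v = u j := by
  obtain ⟨e1, he1, h1⟩ := small1 p m
  obtain ⟨e2, he2, h2⟩ := small2 p m
  refine ⟨min e1 e2, lt_min he1 he2, ?_⟩
  intro ε hε hlt x hx hL u
  have hh1 : hh x.1 < min e1 e2 := lt_of_le_of_lt (hh_le ε x hx) hlt
  have hn : nsq x.1 = 1 := hx.1
  rcases le_total (ssq x.1) (1 / 2) with hs | hs
  · have hy0 := h1 x.1 hn hs (lt_of_lt_of_le hh1 (min_le_left _ _)) hL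
    obtain ⟨a, ha⟩ : ∃ a : Fin (p + 1) → ℝ, a = Fin.cons 0 (fun k => u k / x.1 (Sum.inl 0)) := ⟨_, rfl⟩
    obtain ⟨B, hBd⟩ : ∃ B : Matrix (Fin (p + 1)) (Fin (p + 1)) ℝ,
        B = fun i j => a i * (if j = 0 then 1 else 0) - (if i = 0 then 1 else 0) * a j := ⟨_, rfl⟩
    have hB : Bᵀ = -B := by
      ext i j
      rw [Matrix.transpose_apply, Matrix.neg_apply, hBd]
      ring
    have hA : (0 : Matrix (Fin m) (Fin m) ℂ)ᴴ = -0 := by simp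
    refine ⟨rotv B 0 x.1, dot_rotv B hB 0 hA x.1, dh_rotv B hB 0 hA x.1, fun j => ?_⟩
    rw [dot_lam_rotv]
    have e : ∑ i', B j.succ i' * x.1 (Sum.inl i') = u j := by
      rw [Finset.sum_eq_single (0 : Fin (p + 1))]
      · rw [hBd]
        simp only [if_true, Fin.succ_ne_zero, if_false, ha, Fin.cons_succ]
        field_simp
        ring
      · intro i _ hi
        rw [hBd]
        simp [hi, Fin.succ_ne_zero]
      · intro h
        exact absurd (Finset.mem_univ _) h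
    have f : ff j (0 * Sm x.1 + Sm x.1 * (0 : Matrix (Fin m) (Fin m) ℂ)ᵀ) = 0 := by
      simp [ff]
    rw [e, f, add_zero]
  · obtain ⟨A, hA, hA2⟩ := h2 x.1 hn hs (lt_of_lt_of_le hh1 (min_le_right _ _)) hL u
    refine ⟨rotv 0 A x.1, dot_rotv 0 (by simp) A hA x.1, dh_rotv 0 (by simp) A hA x.1, fun j => ?_⟩
    rw [dot_lam_rotv, hA2]
    simp

theorem isCNV_NN (p m : ℕ) : ∃ ε0 > 0, ∀ ε, 0 < ε → ε < ε0 → ε < 1 / 4 → IsCNV (dd p m) (NN p m ε) := by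
  obtain ⟨e0, he0, h0⟩ := onto_N p m
  refine ⟨e0, he0, ?_⟩
  intro ε hε hlt h14
  rw [NN_eq p m ε]
  refine ⟨isAlg_NG _ _ _, isCompact_NG _ _ _, ?_⟩
  intro z hz
  obtain ⟨x, hx, rfl⟩ := hz.1
  have hL : ∀ k, dotProduct (lam k) x.1 = 0 := (emb_mem_NG (GG p m) ε lam x hx).1 hz
  refine nonsing_NG (GG p m) ε lam (dd_eq p m) GG_symm x hx hL (h1V ε hε h14 x hx) ?_
  intro w
  obtain ⟨v, hv1, hv2, hv3⟩ := h0 ε hε hlt x hx hL w
  refine ⟨v, 0, hv1, ?_, hv3⟩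
  have h3 : dG (GG p m) x.1 v = 0 := hv2
  rw [dotProduct_zero, h3]
  ring

end Pool.Agent.Helper6.BP
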