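import Pool.Agent.Helper6.BP.MfdB
import Pool.Agent.Helper6.BP.GeoC

/-!
PROJECT BP, block V, module BP-V24: the normal bundle of `M` in `V` is trivial.

PROOF. `L x = (v ↦ (∑_b v (inl (inl 0, b)) * lam j b)_j)` if `sY x < 1/2` and `v ↦ tpp v` otherwise. Continuous on `M` because `{s < 1/2}` and `{s > 1/2}` are open and cover `M` (`L` is locally constant on `M`).
 `x ∈ M1`, `Tan M x v`: `Tan.ker` (KitA) with `U = {s < 1/2}`, `g x' = (Yl x' j (inl 0))_j` (linear; it vanishes on `M ∩ U = M1`) gives `L x v = 0`. `x ∈ M2`: `U = {s > 1/2}`, `g = tpp`.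
 Onto: `x = emb (y, t) ∈ M1` (`λ_j·y = 0`, `Yl_zero_iff`): `y_0 ≠ 0` by `small1` (`hh_le`, `sY_emb`), by `onto_N` there is `v` with `λ_j·v = w_j / y_0`, and `tv y v 0` is tangent to `V` (`tan_VV`), `L x (tv y v 0) = v_0 (λ_j·y) + y_0 (λ_j·v) = w_j`.
 `x ∈ M2`: `tan_tpp`.
-/

set_option autoImplicit false

namespace Pool.Agent.Helper6.BP

open Pool.Agent.Helper72.BP Pool.Agent.Helper79.BP
open Matrix

variable {p m : ℕ}

/-- The linear map used on `M_1`. -/
noncomputable def tmL1 (p m : ℕ) : (Amb (Ix p (Kx m)) (Tx p (rr p m) (Kx m)) → ℝ) →ₗ[ℝ] (Fin p → ℝ) where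
  toFun := fun v j => Yl v j (Sum.inl 0)
  map_add' := by
    intro v w
    funext j
    simp only [Yl, Pi.add_apply, add_mul, Finset.sum_add_distrib]
  map_smul' := by
    intro c v
    funext j
    simp only [Yl, Pi.smul_apply, smul_eq_mul, RingHom.id_apply, Finset.mul_sum, mul_assoc]

/-- The linear map used on `M_2`. -/
noncomputable def tmL2 (p m : ℕ) : (Amb (Ix p (Kx m)) (Tx p (rr p m) (Kx m)) → ℝ) →ₗ[ℝ] (Fin p → ℝ) where
  toFun := fun v j => tpp v j
  map_add' := by
    intro v w
    rfl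
  map_smul' := by
    intro c v
    rfl

theorem tmL_fderiv {κ : Type} [Fintype κ] (L : (κ → ℝ) →ₗ[ℝ] (Fin p → ℝ)) (x v : κ → ℝ) :
    fderiv ℝ (fun y => L y) x v = L v := by
  have h : (fun y => L y) = (LinearMap.toContinuousLinearMap L : (κ → ℝ) → (Fin p → ℝ)) := rfl
  rw [h, ContinuousLinearMap.fderiv]
  rfl

theorem tmL_contDiff {κ : Type} [Fintype κ] (L : (κ → ℝ) →ₗ[ℝ] (Fin p → ℝ)) {n : WithTop ℕ∞} :
    ContDiff ℝ n (fun y => L y) := (LinearMap.toContinuousLinearMap L).contDiff

theorem triv_MM (p m : ℕ) : ∃ ε0 > 0, ∀ ε, 0 < ε → ε < ε0 → ε < 1 / 4 → TrivNormal p (VV p m ε) (MM p m ε) := by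
  obtain ⟨ε1, hε1, hs1⟩ := small1 p m
  obtain ⟨ε2, hε2, hon⟩ := onto_N p m
  refine ⟨min ε1 ε2, lt_min hε1 hε2, fun ε h0 hlt h1 => ?_⟩
  have hl1 : ε < ε1 := lt_of_lt_of_le hlt (min_le_left _ _)
  have hl2 : ε < ε2 := lt_of_lt_of_le hlt (min_le_right _ _)
  classical
  refine ⟨fun x => if sY x < 1 / 2 then LinearMap.toContinuousLinearMap (tmL1 p m)
    else LinearMap.toContinuousLinearMap (tmL2 p m), ?_, ?_⟩
  · intro x hx
    rcases hx with hx | hx
    · have hU : {x' : Amb (Ix p (Kx m)) (Tx p (rr p m) (Kx m)) → ℝ | sY x' < 1 / 2} ∈ nhds x :=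
        (isOpen_lt continuous_sY continuous_const).mem_nhds hx.2.1
      refine ContinuousAt.continuousWithinAt ?_
      refine (continuousAt_const (y := LinearMap.toContinuousLinearMap (tmL1 p m))).congr ?_
      filter_upwards [hU] with x' hx'
      exact (if_pos hx').symm
    · have hU : {x' : Amb (Ix p (Kx m)) (Tx p (rr p m) (Kx m)) → ℝ | 1 / 2 < sY x'} ∈ nhds x :=
        (isOpen_lt continuous_const continuous_sY).mem_nhds hx.2.1
      refine ContinuousAt.continuousWithinAt ?_
      refine (continuousAt_const (y := LinearMap.toContinuousLinearMap (tmL2 p m))).congr ?_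
      filter_upwards [hU] with x' hx'
      exact (if_neg (not_lt.2 (le_of_lt hx'))).symm
  · intro x hx
    rcases hx with hx | hx
    · have hsx : sY x < 1 / 2 := hx.2.1
      simp only [if_pos hsx]
      refine ⟨fun v hv => ?_, fun w => ?_⟩
      · have h := Tan.ker (isOpen_lt continuous_sY continuous_const) (show x ∈ {x' | sY x' < 1 / 2} from hsx)
          (g := fun y => tmL1 p m y) (tmL_contDiff _).contDiffOn (fun y hy hyM => ?_) hv
        · rw [tmL_fderiv] at h
          exact h
        · rcases hyM with hyM | hyM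
          · funext j
            exact hyM.2.2 j (Sum.inl 0)
          · exact absurd (lt_trans (show sY y < 1 / 2 from hy) hyM.2.1) (lt_irrefl _)
      · obtain ⟨hxV, -, hY⟩ := hx
        obtain ⟨⟨y, t⟩, hyt, rfl⟩ := hxV
        have hn : nsq y = 1 := hyt.1
        have hlam := (Yl_zero_iff (y, t) hn).1 hY
        have hss : ssq y < 1 / 2 := by
          have := sY_emb (m := m) (y, t)
          rw [this] at hsx
          exact hsx
        have hh1 : hh y < ε1 := lt_of_le_of_lt (hh_le ε (y, t) hyt) hl1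
        have hy0 : y (Sum.inl 0) ≠ 0 := hs1 y hn hss.le hh1 hlam
        obtain ⟨v, hv1, hv2, hv3⟩ := hon ε h0 hl2 (y, t) hyt hlam (fun j => w j / y (Sum.inl 0))
        refine ⟨tv y v 0, tan_VV ε h0 h1 (y, t) hyt v 0 hv1 ?_, ?_⟩
        · rw [hv2, dotProduct_zero]
          norm_num
        · funext j
          change ∑ b, (v (Sum.inl 0) * y b + y (Sum.inl 0) * v b) * lam j b = w j
          have e : ∑ b, (v (Sum.inl 0) * y b + y (Sum.inl 0) * v b) * lam j b =
              v (Sum.inl 0) * dotProduct (lam j) y + y (Sum.inl 0) * dotProduct (lam j) v := by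
            simp only [dotProduct, Finset.mul_sum, ← Finset.sum_add_distrib]
            exact Finset.sum_congr rfl fun b _ => by ring
          rw [e, hlam j, hv3 j]
          field_simp
          ring
    · have hsx : ¬ sY x < 1 / 2 := not_lt.2 (le_of_lt hx.2.1)
      simp only [if_neg hsx]
      refine ⟨fun v hv => ?_, fun w => ?_⟩
      · have h := Tan.ker (isOpen_lt continuous_const continuous_sY) (show x ∈ {x' | 1 / 2 < sY x'} from hx.2.1)
          (g := fun y => tmL2 p m y) (tmL_contDiff _).contDiffOn (fun y hy hyM => ?_) hv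
        · rw [tmL_fderiv] at h
          exact h
        · rcases hyM with hyM | hyM
          · exact absurd (lt_trans hyM.2.1 (show 1 / 2 < sY y from hy)) (lt_irrefl _)
          · funext j
            exact hyM.2.2 j
      · obtain ⟨v, hv1, hv2⟩ := tan_tpp ε h0 h1 x hx.1 hx.2.2 w
        exact ⟨v, hv1, funext hv2⟩

end Pool.Agent.Helper6.BP
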