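import Pool.Agent.Helper6.BP.IsMB
import Pool.Agent.Helper6.BP.MfdC
import Pool.Agent.Helper79.BP.KitK

/-!
PROJECT BP, block V: assembly of the interface theorem `vMain` from the output `FOut` of block F.
-/

set_option autoImplicit false

namespace Pool.Agent.Helper6.BP

open Pool.Agent.Helper72.BP Pool.Agent.Helper79.BP

theorem M1_sub (p m : ℕ) (ε : ℝ) : M1 p m ε ⊆ VV p m ε := fun _ hx => hx.1

theorem M2_sub (p m : ℕ) (ε : ℝ) : M2 p m ε ⊆ VV p m ε := fun _ hx => hx.1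

theorem N2_sub (p m : ℕ) (ε : ℝ) : N2 p m ε ⊆ VV p m ε := fun _ hx => hx.1

/-- Output of block F: `M_2` and `N_2` are bordant over `V`. -/
def FOut (p : ℕ) : Prop :=
  ∃ ε0 > 0, ∀ ε, 0 < ε → ε < ε0 → ∀ (hc : IsCompact (M2 p (2 * p + 1) ε))
    (hs : IsSubmfd (dd p (2 * p + 1)) (M2 p (2 * p + 1) ε)) (hc' : IsCompact (N2 p (2 * p + 1) ε))
    (hs' : IsSubmfd (dd p (2 * p + 1)) (N2 p (2 * p + 1) ε)),
    Relation.EqvGen Bord (incl (VV p (2 * p + 1) ε) (M2 p (2 * p + 1) ε) (dd p (2 * p + 1)) hc hs (M2_sub _ _ _))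
      (incl (VV p (2 * p + 1) ε) (N2 p (2 * p + 1) ε) (dd p (2 * p + 1)) hc' hs' (N2_sub _ _ _))

/-- The interface theorem `vMain` of Final.lean, from the output of block F. -/
theorem vMain_of (p : ℕ) (hp : 2 ≤ p) (hF : FOut p) :
    ∃ (κ : Type) (_ : Fintype κ) (_ : DecidableEq κ) (r : ℕ) (G : Fin r → Matrix (Ix p κ) (Ix p κ) ℝ)
      (q : (Fin (2 * p + 1) → ℂ) → Ix p κ → ℝ) (ε : ℝ) (a : Fin p → κ → ℝ)
      (M : Set (Amb (Ix p κ) (Tx p r κ) → ℝ)) (d : ℕ),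
      IsTube G q ε ∧ IsM (by omega : 0 < p) G q ε a M ∧
      d + p + 2 = Fintype.card (Ix p κ) + Fintype.card (Tx p r κ) ∧ IsCNV (d + p) (Vemb G ε : Set (Amb (Ix p κ) (Tx p r κ) → ℝ)) ∧
      ∃ (hc : IsCompact M) (hs : IsSubmfd d M) (hMV : M ⊆ Vemb G ε), TrivNormal p (Vemb G ε) M ∧
        AlgClass (incl (Vemb G ε) M d hc hs hMV) := by
  have hp0 : 0 < p := by omega
  obtain ⟨ε1, hε1, hF⟩ := hF
  obtain ⟨ε2, hε2, hN⟩ := isCNV_NN p (2 * p + 1)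
  obtain ⟨ε3, hε3, hT⟩ := triv_MM p (2 * p + 1)
  obtain ⟨ε, h0, he⟩ : ∃ ε : ℝ, 0 < ε ∧ ε < min (min ε1 ε2) (min ε3 (1 / 4)) := by
    refine ⟨min (min ε1 ε2) (min ε3 (1 / 4)) / 2, ?_, ?_⟩
    · have : 0 < min (min ε1 ε2) (min ε3 (1 / 4)) := by positivity
      linarith
    · have : 0 < min (min ε1 ε2) (min ε3 (1 / 4)) := by positivity
      linarith
  have e1 : ε < ε1 := he.trans_le ((min_le_left _ _).trans (min_le_left _ _))
  have e2 : ε < ε2 := he.trans_le ((min_le_left _ _).trans (min_le_right _ _))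
  have e3 : ε < ε3 := he.trans_le ((min_le_right _ _).trans (min_le_left _ _))
  have e4 : ε < 1 / 4 := he.trans_le ((min_le_right _ _).trans (min_le_right _ _))
  have hN := hN ε h0 e2 e4
  have hT := hT ε h0 e3 e4
  have cM1 := compact_M1 (p := p) (m := 2 * p + 1) ε e4
  have cM2 := compact_M2 (p := p) (m := 2 * p + 1) ε e4
  have cN2 := compact_N2 (p := p) (m := 2 * p + 1) ε e4
  have sM1 := submfd_M1 ε hN
  have sN2 := submfd_N2 ε hN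
  have sM2 := submfd_M2 (p := p) (m := 2 * p + 1) ε h0 e4
  have sM := submfd_MM ε h0 e4 hN
  have hMc : IsCompact (MM p (2 * p + 1) ε) := cM1.union cM2
  have hMV : MM p (2 * p + 1) ε ⊆ VV p (2 * p + 1) ε := Set.union_subset (M1_sub _ _ _) (M2_sub _ _ _)
  refine ⟨Kx (2 * p + 1), inferInstance, inferInstance, rr p (2 * p + 1), GG p (2 * p + 1), qq p (2 * p + 1), ε,
    fun j => aa j, MM p (2 * p + 1) ε, dd p (2 * p + 1), isTube ε h0 e4, isM_MM hp0 ε h0 e4, dd_eq p _,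
    isCNV_VV ε h0 e4, hMc, sM, hMV, hT, ?_⟩
  have hNU := NN_union (p := p) (m := 2 * p + 1) ε e4
  have sU : IsSubmfd (dd p (2 * p + 1)) (M1 p (2 * p + 1) ε ∪ N2 p (2 * p + 1) ε) := by
    rw [← hNU]
    exact hN.isSubmfd
  have hUV : M1 p (2 * p + 1) ε ∪ N2 p (2 * p + 1) ε ⊆ VV p (2 * p + 1) ε :=
    Set.union_subset (M1_sub _ _ _) (N2_sub _ _ _)
  have key := incl_union_eqv (V := VV p (2 * p + 1) ε) cM1 sM1 (M1_sub _ _ _) cM2 sM2 (M2_sub _ _ _) cN2 sN2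
    (N2_sub _ _ _) (disjoint_M1_M2 ε) (disjoint_M1_N2 ε) (hF ε h0 e1 cM2 sM2 cN2 sN2) hMc sM hMV (cM1.union cN2) sU hUV
  refine ⟨incl (VV p (2 * p + 1) ε) (M1 p (2 * p + 1) ε ∪ N2 p (2 * p + 1) ε) (dd p (2 * p + 1)) (cM1.union cN2) sU hUV,
    ?_, ?_, key⟩
  · change IsCNV (dd p (2 * p + 1)) (M1 p (2 * p + 1) ε ∪ N2 p (2 * p + 1) ε)
    rw [← hNU]
    exact hN
  · refine ⟨fun i => MvPolynomial.X i, 1, fun x _ => ⟨by simp, fun i => ?_⟩⟩
    rw [MvPolynomial.eval_X, map_one, div_one]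
    rfl

end Pool.Agent.Helper6.BP
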