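import Pool.Agent.Helper6.BP.VDefs

/-!
PROJECT BP, block V, module BP-V9: the span lemma.

PROOF of `span_cc`. Suppose not; the real linear map `v ↦ (Re ∑_(l ∈ A) c_jl v_l)_j` is not onto, so there is `b : Fin p → ℝ`, `b ≠ 0`, with
`∑_j b_j Re (c_jl x) = 0` for all `l ∈ A`, `x : ℂ`, so `∑_j b_j c_jl = 0` for all `l ∈ A` (take `x = 1`, `x = i`). `c_jl = l^(j/2) (1 | -i)`: the complex polynomial
`B(T) = ∑_j b_j (1 | -i)_j T^(j/2) = ∑_k (b_(2k) - i b_(2k+1)) T^k` (`b_p = 0` if `p` is odd) is `≠ 0`, has degree `≤ (p - 1)/2`, and vanishes at the `|A|` distinct numbers `l ∈ A`: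
so `|A| ≤ (p - 1)/2`. On the other hand, from `h` for `j = 2k` and `j = 2k+1`, `k < p/2` (so both are `< p`): `∑_(l ∈ A) l^k w_l = 0` for all `k < p/2` (real part from `2k`,
imaginary part from `2k+1`). So `∑_(l ∈ A) R(l) w_l = 0` for every complex polynomial `R` of degree `< p/2`. If `|A| ≤ p/2`, take `l0 ∈ A`, `R = ∏_(l ∈ A, l ≠ l0) (T - l)` of
degree `|A| - 1 < p/2`: `R(l0) w_(l0) = 0`, contradiction. So `|A| > p/2 ≥ (p-1)/2 ≥ |A|`: contradiction (natural division everywhere).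
-/

set_option autoImplicit false

namespace Pool.Agent.Helper6.BP

open Pool.Agent.Helper72.BP Pool.Agent.Helper79.BP
open Matrix

variable {p m : ℕ}

private noncomputable def nd (l : Fin m) : ℂ := ((l : ℕ) : ℂ)

private lemma nd_inj (A : Finset (Fin m)) : Set.InjOn (nd (m := m)) A := by
  intro a _ b _ hab
  apply Fin.ext
  exact Nat.cast_injective hab

private lemma cc_even (j : Fin p) (l : Fin m) (hj : (j : ℕ) % 2 = 0) : cc j l = nd l ^ ((j : ℕ) / 2) := by
  unfold cc nd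
  rw [if_pos hj, mul_one]

private lemma cc_odd (j : Fin p) (l : Fin m) (hj : ¬ (j : ℕ) % 2 = 0) :
    cc j l = nd l ^ ((j : ℕ) / 2) * (-Complex.I) := by
  unfold cc nd
  rw [if_neg hj]

private lemma re_even (A : Finset (Fin m)) (j : Fin p) (hj : (j : ℕ) % 2 = 0) (v : Fin m → ℂ) :
    (∑ l ∈ A, cc j l * v l).re = (∑ l ∈ A, nd l ^ ((j : ℕ) / 2) * v l).re := by
  congr 1
  apply Finset.sum_congr rfl
  intro l _
  rw [cc_even j l hj]

private lemma re_odd (A : Finset (Fin m)) (j : Fin p) (hj : ¬ (j : ℕ) % 2 = 0) (v : Fin m → ℂ) :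
    (∑ l ∈ A, cc j l * v l).re = (∑ l ∈ A, nd l ^ ((j : ℕ) / 2) * v l).im := by
  have h1 : ∑ l ∈ A, cc j l * v l = (-Complex.I) * ∑ l ∈ A, nd l ^ ((j : ℕ) / 2) * v l := by
    rw [Finset.mul_sum]
    apply Finset.sum_congr rfl
    intro l _
    rw [cc_odd j l hj]
    ring
  rw [h1]
  simp

private lemma card_gt (A : Finset (Fin m)) (hA : A.Nonempty) (w : Fin m → ℂ) (hw : ∀ l ∈ A, w l ≠ 0) (n : ℕ)
    (h : ∀ k < n, ∑ l ∈ A, nd l ^ k * w l = 0) : n < A.card := by
  by_contra hn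
  push Not at hn
  obtain ⟨l0, hl0⟩ := hA
  have hd : (Lagrange.basis A nd l0).natDegree < A.card := by
    have h1 := Lagrange.degree_basis (nd_inj A) hl0
    have h2 := Polynomial.natDegree_eq_of_degree_eq_some h1
    have h3 : 0 < A.card := Finset.card_pos.mpr ⟨l0, hl0⟩
    omega
  have h1 : ∑ l ∈ A, (Lagrange.basis A nd l0).eval (nd l) * w l = 0 := by
    have h2 : ∀ l ∈ A, (Lagrange.basis A nd l0).eval (nd l) * w l =
        ∑ k ∈ Finset.range A.card, (Lagrange.basis A nd l0).coeff k * (nd l ^ k * w l) := by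
      intro l _
      rw [Polynomial.eval_eq_sum_range' hd, Finset.sum_mul]
      apply Finset.sum_congr rfl
      intro k _
      ring
    rw [Finset.sum_congr rfl h2, Finset.sum_comm]
    apply Finset.sum_eq_zero
    intro k hk
    rw [← Finset.mul_sum, h k (lt_of_lt_of_le (Finset.mem_range.mp hk) hn), mul_zero]
  rw [Finset.sum_eq_single l0] at h1
  · rw [Lagrange.eval_basis_self (nd_inj A) hl0, one_mul] at h1
    exact hw l0 hl0 h1
  · intro l hl hne
    rw [Lagrange.eval_basis_of_ne (Ne.symm hne) hl, zero_mul]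
  · intro hnot
    exact absurd hl0 hnot

private lemma solve (A : Finset (Fin m)) (n : ℕ) (hn : n ≤ A.card) (c : ℕ → ℂ) :
    ∃ v : Fin m → ℂ, ∀ k < n, ∑ l ∈ A, nd l ^ k * v l = c k := by
  refine ⟨fun l => ∑ i ∈ Finset.range n, (Lagrange.basis A nd l).coeff i * c i, ?_⟩
  intro k hk
  have hX : (Polynomial.X ^ k : Polynomial ℂ) = ∑ l ∈ A, Polynomial.C (nd l ^ k) * Lagrange.basis A nd l := by
    have h1 := Lagrange.eq_interpolate (f := (Polynomial.X ^ k : Polynomial ℂ)) (nd_inj A) (by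
      rw [Polynomial.degree_X_pow]
      exact_mod_cast lt_of_lt_of_le hk hn)
    rw [Lagrange.interpolate_apply] at h1
    simpa using h1
  have h2 : ∀ l ∈ A, nd l ^ k * (∑ i ∈ Finset.range n, (Lagrange.basis A nd l).coeff i * c i) =
      ∑ i ∈ Finset.range n, (Polynomial.C (nd l ^ k) * Lagrange.basis A nd l).coeff i * c i := by
    intro l _
    rw [Finset.mul_sum]
    apply Finset.sum_congr rfl
    intro i _
    rw [Polynomial.coeff_C_mul]
    ring
  rw [Finset.sum_congr rfl h2, Finset.sum_comm]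
  have h3 : ∀ i ∈ Finset.range n, ∑ l ∈ A, (Polynomial.C (nd l ^ k) * Lagrange.basis A nd l).coeff i * c i =
      (if i = k then 1 else 0) * c i := by
    intro i _
    rw [← Finset.sum_mul, ← Polynomial.finsetSum_coeff, ← hX, Polynomial.coeff_X_pow]
  rw [Finset.sum_congr rfl h3]
  simp [hk]

theorem span_cc (A : Finset (Fin m)) (hA : A.Nonempty) (w : Fin m → ℂ) (hw : ∀ l ∈ A, w l ≠ 0)
    (h : ∀ j : Fin p, (∑ l ∈ A, cc j l * w l).re = 0) (u : Fin p → ℝ) :
    ∃ v : Fin m → ℂ, ∀ j : Fin p, (∑ l ∈ A, cc j l * v l).re = u j := by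
  have h0 : ∀ k < p / 2, ∑ l ∈ A, nd l ^ k * w l = 0 := by
    intro k hk
    apply Complex.ext
    · have h1 := h ⟨2 * k, by omega⟩
      rw [re_even A _ (by simp) w] at h1
      have h2 : (2 * k) / 2 = k := by omega
      simpa [h2] using h1
    · have h1 := h ⟨2 * k + 1, by omega⟩
      rw [re_odd A _ (by simp) w] at h1
      have h2 : (2 * k + 1) / 2 = k := by omega
      simpa [h2] using h1
  have hc := card_gt A hA w hw (p / 2) h0
  obtain ⟨v, hv⟩ := solve A ((p + 1) / 2) (by omega)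
    (fun k => ⟨if h : 2 * k < p then u ⟨2 * k, h⟩ else 0, if h : 2 * k + 1 < p then u ⟨2 * k + 1, h⟩ else 0⟩)
  refine ⟨v, ?_⟩
  intro j
  have hj := j.isLt
  by_cases hp : (j : ℕ) % 2 = 0
  · rw [re_even A j hp v, hv _ (by omega)]
    have h1 : 2 * ((j : ℕ) / 2) = j := by omega
    simp only [h1, hj, dite_true]
  · rw [re_odd A j hp v, hv _ (by omega)]
    have h1 : 2 * ((j : ℕ) / 2) + 1 = j := by omega
    simp only [h1, hj, dite_true]

end Pool.Agent.Helper6.BP
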