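import Pool.Agent.Helper6.BP.LocDefs

/-!
PROJECT BP, block V, module BP-V17: `Vemb G ε` and `NG G ε L` are algebraic and compact.

PROOF. `NG_zero`: no equations.
`isAlg_Vemb`: `Vemb G ε` is the zero set of `Y_ab - Y_ba`, `∑_c Y_ac Y_cb - Y_ab`, `tr Y - 1`, `|t|² + ∑_l (∑ G_l Y)² - ε`: if `Yᵀ = Y`, `Y² = Y`, `tr Y = 1`, some `Y_aa ≠ 0`, `Y_aa = ∑_c Y_ac² > 0`;
`y = Y_(·a) / √Y_aa`, `nsq y = 1`, `Y y = y`, so `∑_bc (Y_bc - y_b y_c)² = tr Y² - 2 yᵀ Y y + 1 = 0`. `isAlg_NG`: add the equations `∑_b Y_ib L_k b` (intersection of algebraic sets: union of the sets of polynomials).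
`isCompact_Vemb`: `Vt G ε` is closed and bounded (`|y_i| ≤ 1`, `t_s² ≤ ε`) in `(ι → ℝ) × (τ → ℝ)`, `emb` is continuous, `IsCompact.image`. `isCompact_NG`: closed subset (`IsAlg.isClosed` of KitC or continuity).
`emb_mem_NG`: `(y yᵀ L_k)_i = y_i (L_k·y)` and some `y_i ≠ 0` (`nsq y = 1`).
-/

set_option autoImplicit false

namespace Pool.Agent.Helper6.BP

open Pool.Agent.Helper72.BP Pool.Agent.Helper79.BP
open MvPolynomial

variable {ι τ : Type} [Fintype ι] [Fintype τ] [DecidableEq ι] {r q d : ℕ} (G : Fin r → Matrix ι ι ℝ) (ε : ℝ)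
  (L : Fin q → ι → ℝ)

theorem NG_zero (L : Fin 0 → ι → ℝ) : (NG G ε L : Set (Amb ι τ → ℝ)) = Vemb G ε := by
  ext x
  simp [NG]

/-- The equations of `Vemb G ε`, pointwise. -/
theorem mem_Vemb_iff (x : Amb ι τ → ℝ) : x ∈ (Vemb G ε : Set (Amb ι τ → ℝ)) ↔
    (∀ a b, x (Sum.inl (a, b)) = x (Sum.inl (b, a))) ∧
    (∀ a b, ∑ c, x (Sum.inl (a, c)) * x (Sum.inl (c, b)) = x (Sum.inl (a, b))) ∧
    ∑ a, x (Sum.inl (a, a)) = 1 ∧
    ∑ s, x (Sum.inr s) ^ 2 + ∑ l, (∑ a, ∑ b, G l a b * x (Sum.inl (a, b))) ^ 2 = ε := by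
  constructor
  · rintro ⟨⟨y, t⟩, ⟨h1, h2⟩, rfl⟩
    have hn : ∑ i, y i * y i = 1 := by
      have h : ∑ i, y i ^ 2 = 1 := h1
      rw [← h]
      exact Finset.sum_congr rfl fun i _ => by ring
    refine ⟨fun a b => ?_, fun a b => ?_, ?_, ?_⟩
    · simp only [emb, Sum.elim_inl]
      ring
    · simp only [emb, Sum.elim_inl]
      have : ∀ c, y a * y c * (y c * y b) = y a * y b * (y c * y c) := fun c => by ring
      simp_rw [this]
      rw [← Finset.mul_sum, hn, mul_one]
    · simpa only [emb, Sum.elim_inl] using hn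
    · simp only [emb, Sum.elim_inl, Sum.elim_inr]
      have h1' : nsq y = 1 := h1
      have h3 : nsq t + ∑ l, qf (G l) y ^ 2 - ε * nsq y ^ 2 = 0 := h2
      rw [h1'] at h3
      have h4 : ∀ l, ∑ a, ∑ b, G l a b * (y a * y b) = qf (G l) y := fun l => by
        unfold qf
        refine Finset.sum_congr rfl fun a _ => Finset.sum_congr rfl fun b _ => ?_
        simp only [Algebra.algebraMap_self, RingHom.id_apply]
        ring
      simp_rw [h4]
      have h5 : ∑ s, t s ^ 2 = nsq t := rfl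
      rw [h5]
      linarith
  · rintro ⟨h1, h2, h3, h4⟩
    obtain ⟨a, ha⟩ : ∃ a, x (Sum.inl (a, a)) ≠ 0 := by
      by_contra hcon
      push Not at hcon
      simp [hcon] at h3
    have hsq : ∑ c, x (Sum.inl (c, a)) ^ 2 = x (Sum.inl (a, a)) := by
      rw [← h2 a a]
      refine Finset.sum_congr rfl fun c _ => ?_
      rw [h1 a c]
      ring
    have hpos : 0 < x (Sum.inl (a, a)) := by
      refine lt_of_le_of_ne ?_ (Ne.symm ha)
      rw [← hsq]
      exact Finset.sum_nonneg fun c _ => sq_nonneg _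
    set r0 := Real.sqrt (x (Sum.inl (a, a))) with hr0
    have hr : 0 < r0 := Real.sqrt_pos.2 hpos
    have hr2 : r0 ^ 2 = x (Sum.inl (a, a)) := Real.sq_sqrt hpos.le
    set y : ι → ℝ := fun b => x (Sum.inl (b, a)) / r0 with hy
    have hn : nsq y = 1 := by
      have : nsq y = ∑ b, x (Sum.inl (b, a)) ^ 2 / r0 ^ 2 := by
        unfold nsq
        exact Finset.sum_congr rfl fun b _ => by rw [hy, div_pow]
      rw [this, ← Finset.sum_div, hsq, hr2, div_self ha]
    have hYy : ∀ b, ∑ c, x (Sum.inl (b, c)) * y c = y b := fun b => by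
      have : ∀ c, x (Sum.inl (b, c)) * y c = x (Sum.inl (b, c)) * x (Sum.inl (c, a)) / r0 := fun c => by
        rw [hy, mul_div_assoc]
      simp_rw [this]
      rw [← Finset.sum_div, h2 b a]
    have hYY : ∀ b, ∑ c, x (Sum.inl (b, c)) ^ 2 = x (Sum.inl (b, b)) := fun b => by
      rw [← h2 b b]
      refine Finset.sum_congr rfl fun c _ => ?_
      rw [h1 c b]
      ring
    have hzero : ∑ b, ∑ c, (x (Sum.inl (b, c)) - y b * y c) ^ 2 = 0 := by
      have e1 : ∀ b, ∑ c, (x (Sum.inl (b, c)) - y b * y c) ^ 2 =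
          x (Sum.inl (b, b)) - 2 * (y b * y b) + y b ^ 2 * nsq y := fun b => by
        have : ∀ c, (x (Sum.inl (b, c)) - y b * y c) ^ 2 =
            x (Sum.inl (b, c)) ^ 2 - 2 * y b * (x (Sum.inl (b, c)) * y c) + y b ^ 2 * y c ^ 2 := fun c => by ring
        simp_rw [this]
        rw [Finset.sum_add_distrib, Finset.sum_sub_distrib, ← Finset.mul_sum, ← Finset.mul_sum, hYY b, hYy b]
        unfold nsq
        ring
      simp_rw [e1, hn]
      rw [Finset.sum_add_distrib, Finset.sum_sub_distrib, h3]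
      have e2 : ∑ b, y b ^ 2 = 1 := hn
      have e3 : ∑ b, 2 * (y b * y b) = 2 := by
        rw [← Finset.mul_sum]
        have : ∑ b, y b * y b = 1 := by
          rw [← e2]
          exact Finset.sum_congr rfl fun i _ => by ring
        rw [this]
        norm_num
      simp only [mul_one]
      rw [e2, e3]
      norm_num
    have heq : ∀ b c, x (Sum.inl (b, c)) = y b * y c := fun b c => by
      have f1 := (Finset.sum_eq_zero_iff_of_nonneg fun b _ => Finset.sum_nonneg fun c _ => sq_nonneg _).1 hzero b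
        (Finset.mem_univ _)
      have f2 := (Finset.sum_eq_zero_iff_of_nonneg fun c _ => sq_nonneg _).1 f1 c (Finset.mem_univ _)
      have f3 := pow_eq_zero_iff (two_ne_zero) |>.1 f2
      linarith
    refine ⟨(y, fun s => x (Sum.inr s)), ⟨hn, ?_⟩, ?_⟩
    · have h5 : ∀ l, qf (G l) y = ∑ a, ∑ b, G l a b * x (Sum.inl (a, b)) := fun l => by
        unfold qf
        refine Finset.sum_congr rfl fun a _ => Finset.sum_congr rfl fun b _ => ?_
        rw [heq]
        simp only [Algebra.algebraMap_self, RingHom.id_apply]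
        ring
      unfold Ffun
      simp only
      simp_rw [h5]
      rw [hn]
      have h6 : nsq (fun s => x (Sum.inr s)) = ∑ s, x (Sum.inr s) ^ 2 := rfl
      rw [h6, h4]
      simp
    · funext i
      rcases i with ⟨b, c⟩ | s
      · simp only [emb, Sum.elim_inl]
        exact (heq b c).symm
      · simp only [emb, Sum.elim_inr]

theorem isAlg_Vemb : IsAlg (Vemb G ε : Set (Amb ι τ → ℝ)) := by
  refine ⟨{f | (∃ a b, f = X (Sum.inl (a, b)) - X (Sum.inl (b, a))) ∨
    (∃ a b, f = ∑ c, X (Sum.inl (a, c)) * X (Sum.inl (c, b)) - X (Sum.inl (a, b))) ∨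
    f = ∑ a, X (Sum.inl (a, a)) - 1 ∨
    f = ∑ s, X (Sum.inr s) ^ 2 + ∑ l, (∑ a, ∑ b, C (G l a b) * X (Sum.inl (a, b))) ^ 2 - C ε}, ?_⟩
  ext x
  rw [mem_Vemb_iff]
  constructor
  · rintro ⟨h1, h2, h3, h4⟩ f (⟨a, b, rfl⟩ | ⟨a, b, rfl⟩ | rfl | rfl)
    · simp [h1 a b]
    · simp [map_sum, h2 a b]
    · simp [map_sum, h3]
    · simp [map_sum, h4]
  · intro h
    refine ⟨fun a b => ?_, fun a b => ?_, ?_, ?_⟩
    · have := h _ (Or.inl ⟨a, b, rfl⟩)
      simp only [map_sub, eval_X] at this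
      linarith
    · have := h _ (Or.inr (Or.inl ⟨a, b, rfl⟩))
      simp only [map_sub, map_sum, map_mul, eval_X] at this
      linarith
    · have := h _ (Or.inr (Or.inr (Or.inl rfl)))
      simp only [map_sub, map_sum, map_one, eval_X] at this
      linarith
    · have := h _ (Or.inr (Or.inr (Or.inr rfl)))
      simp only [map_sub, map_add, map_sum, map_mul, map_pow, eval_X, eval_C] at this
      linarith

theorem isAlg_NG : IsAlg (NG G ε L : Set (Amb ι τ → ℝ)) := by
  obtain ⟨S, hS⟩ := isAlg_Vemb (τ := τ) G ε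
  refine ⟨S ∪ {f | ∃ k i, f = ∑ b, X (Sum.inl (i, b)) * C (L k b)}, ?_⟩
  ext x
  have hx : x ∈ (Vemb G ε : Set (Amb ι τ → ℝ)) ↔ ∀ f ∈ S, eval x f = 0 := by
    rw [hS]
    rfl
  constructor
  · rintro ⟨h1, h2⟩ f (hf | ⟨k, i, rfl⟩)
    · exact hx.1 h1 f hf
    · simpa [map_sum] using h2 k i
  · intro h
    refine ⟨hx.2 fun f hf => h f (Or.inl hf), fun k i => ?_⟩
    have := h _ (Or.inr ⟨k, i, rfl⟩)
    simpa only [map_sum, map_mul, eval_X, eval_C] using this

theorem continuous_emb : Continuous (emb : (ι → ℝ) × (τ → ℝ) → Amb ι τ → ℝ) := by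
  refine continuous_pi fun i => ?_
  rcases i with ⟨b, c⟩ | s
  · simp only [emb, Sum.elim_inl]
    fun_prop
  · simp only [emb, Sum.elim_inr]
    fun_prop

theorem isCompact_Vemb : IsCompact (Vemb G ε : Set (Amb ι τ → ℝ)) := by
  refine IsCompact.image ?_ continuous_emb
  refine Metric.isCompact_of_isClosed_isBounded ?_ ?_
  · have c1 : Continuous fun x : (ι → ℝ) × (τ → ℝ) => nsq x.1 := by
      unfold nsq
      fun_prop
    have c2 : Continuous fun x : (ι → ℝ) × (τ → ℝ) => Ffun G ε x.1 x.2 := by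
      unfold Ffun nsq qf
      fun_prop
    exact (isClosed_eq c1 continuous_const).inter (isClosed_eq c2 continuous_const)
  · refine (Metric.isBounded_closedBall (x := (0 : (ι → ℝ) × (τ → ℝ))) (r := 1 + |ε|)).subset ?_
    rintro ⟨y, t⟩ ⟨h1, h2⟩
    have h1' : ∑ i, y i ^ 2 = 1 := h1
    have h1'' : nsq y = 1 := h1
    have h3 : nsq t + ∑ l, qf (G l) y ^ 2 - ε * nsq y ^ 2 = 0 := h2
    rw [h1''] at h3
    have h4 : 0 ≤ ∑ l, qf (G l) y ^ 2 := Finset.sum_nonneg fun l _ => sq_nonneg _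
    have h5 : ∑ s, t s ^ 2 ≤ ε := by
      have : nsq t = ∑ s, t s ^ 2 := rfl
      rw [← this]
      linarith
    rw [mem_closedBall_zero_iff, Prod.norm_def]
    refine max_le ?_ ?_
    · refine (pi_norm_le_iff_of_nonneg (by positivity)).2 fun i => ?_
      have : y i ^ 2 ≤ 1 := by
        rw [← h1']
        exact Finset.single_le_sum (f := fun i => y i ^ 2) (fun i _ => sq_nonneg _) (Finset.mem_univ i)
      have h6 : |y i| ≤ 1 := by
        rw [← sq_le_one_iff_abs_le_one]
        exact this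
      rw [Real.norm_eq_abs]
      have := abs_nonneg ε
      linarith
    · refine (pi_norm_le_iff_of_nonneg (by positivity)).2 fun s => ?_
      have h7 : t s ^ 2 ≤ ε :=
        (Finset.single_le_sum (f := fun s => t s ^ 2) (fun s _ => sq_nonneg _) (Finset.mem_univ s)).trans h5
      rw [Real.norm_eq_abs]
      have h8 := le_abs_self ε
      have h9 : |t s| ^ 2 ≤ |ε| := by
        rw [sq_abs]
        linarith
      nlinarith [abs_nonneg (t s), abs_nonneg ε, sq_nonneg (|t s| - 1)]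

theorem isCompact_NG : IsCompact (NG G ε L : Set (Amb ι τ → ℝ)) := by
  have hcl : IsClosed (NG G ε L : Set (Amb ι τ → ℝ)) := by
    obtain ⟨S, hS⟩ := isAlg_NG (τ := τ) G ε L
    have : (NG G ε L : Set (Amb ι τ → ℝ)) = ⋂ f ∈ S, {x | eval x f = 0} := by
      rw [hS]
      ext x
      simp
    rw [this]
    exact isClosed_biInter fun f _ => isClosed_eq (MvPolynomial.continuous_eval f) continuous_const
  exact (isCompact_Vemb G ε).of_isClosed_subset hcl fun x hx => hx.1

theorem emb_mem_NG (x : (ι → ℝ) × (τ → ℝ)) (hx : x ∈ Vt G ε) :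
    emb x ∈ NG G ε L ↔ ∀ k, dotProduct (L k) x.1 = 0 := by
  have key : ∀ k i, ∑ b, (emb x : Amb ι τ → ℝ) (Sum.inl (i, b)) * L k b = x.1 i * dotProduct (L k) x.1 := by
    intro k i
    simp only [emb, Sum.elim_inl, dotProduct]
    rw [Finset.mul_sum]
    exact Finset.sum_congr rfl fun b _ => by ring
  constructor
  · rintro ⟨_, h⟩ k
    obtain ⟨i, hi⟩ : ∃ i, x.1 i ≠ 0 := by
      by_contra hcon
      push Not at hcon
      have h1 : ∑ i, x.1 i ^ 2 = 1 := hx.1
      simp [hcon] at h1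
    have := h k i
    rw [key] at this
    exact (mul_eq_zero.1 this).resolve_left hi
  · intro h
    refine ⟨⟨x, hx, rfl⟩, fun k i => ?_⟩
    rw [key, h k, mul_zero]

end Pool.Agent.Helper6.BP
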