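import Pool.Agent.Helper6.BP.IdentC

/-!
PROJECT BP, block V, module BP-V6: the critical values of `h` on the unit sphere are `0` or `≥ 1/4`.

PROOF. Let `|y| = 1`, `dh y v = 0` for all `v ⊥ y`. For every `v`: `dh y v = dh y (v - (y·v) y) + (y·v) dh y y = 4 h (y·v)` (`dh` is linear in `v`, `dh_self`).
By `dh_eq` (wsq + ssq = 1, `nsq_eq`), with `s = ssq y`, `S = Sm y`:
 (1) `v = (e_i, 0)`: `2 s w_i = 4 h w_i`;
 (2) `v = (0, ofS X)`, `X = S - S Sᴴ S - 2 h S`, which is symmetric (`Sᵀ = S`, `(S Sᴴ S)ᵀ = S (Sᴴ)ᵀ S = S conj(S) S = S Sᴴ S`): by `inner_Sm` the right side is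
   `4 h Re ∑ S_ij conj(X_ij)`, so `2 Re ∑ X_ij conj(X_ij) = 0`, so `X = 0`: `S Sᴴ S = (1 - 2 h) S`.
Put `T = S Sᴴ` (hermitian), `T² = (1 - 2h) T`, `tr T = s`, `∑ normSq T_ik = tr T² = (1 - 2 h) s`.
 Case `w ≠ 0`: `s = 2 h`. If `s = 0` then `h = 0`. If `s > 0`: `(1 - s) s = ∑ normSq T_ik ≤ s²` (Cauchy-Schwarz: `normSq T_ik ≤ (∑_j normSq S_ij)(∑_j normSq S_kj)`;
   or from `hh_eq`: `2 (h - (1 - s) s) = s² - ∑ normSq T_ik` and `h ≥ wsq * ssq = (1 - s) s` by `wsq_mul_ssq_le`). So `s ≥ 1/2`, `h ≥ 1/4`.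
 Case `w = 0`: `s = 1`. If `1 - 2 h = 0`, `h = 1/2`. Otherwise (`c = 1 - 2 h`) `P = c⁻¹ T` is idempotent, its trace `c⁻¹` is a natural number `n`
   (rank of an idempotent; `LinearMap.IsProj.trace` or `IsIdempotentElem` lemmas), `n ≥ 1` as `T ≠ 0`; `h = (1 - 1/n) / 2`: `0` for `n = 1` and `≥ 1/4` for `n ≥ 2`.
-/

set_option autoImplicit false

namespace Pool.Agent.Helper6.BP

open Pool.Agent.Helper72.BP Pool.Agent.Helper79.BP
open Matrix

variable {p m : ℕ}

private lemma trace_idem {n : ℕ} (P : Matrix (Fin n) (Fin n) ℂ) (h : P * P = P) : ∃ k : ℕ, P.trace = k := by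
  have h1 : IsIdempotentElem (Matrix.toLin' P) := by
    change Matrix.toLin' P * Matrix.toLin' P = Matrix.toLin' P
    rw [Module.End.mul_eq_comp, ← Matrix.toLin'_mul, h]
  have h2 := (LinearMap.isProj_range_iff_isIdempotentElem _).mpr h1
  refine ⟨Module.finrank ℂ (LinearMap.range (Matrix.toLin' P)), ?_⟩
  rw [← Matrix.trace_toLin'_eq, h2.trace]

private lemma trace_mul_star {n : ℕ} (S : Matrix (Fin n) (Fin n) ℂ) :
    (S * Sᴴ).trace = ((∑ i, ∑ j, Complex.normSq (S i j) : ℝ) : ℂ) := by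
  change ∑ i, ∑ j, S i j * star (S i j) = _
  push_cast
  refine Finset.sum_congr rfl fun i _ => Finset.sum_congr rfl fun j _ => ?_
  exact Complex.mul_conj _

private lemma dh_all (y : Ix p (Kx m) → ℝ) (hy : nsq y = 1)
    (h : ∀ v : Ix p (Kx m) → ℝ, dotProduct y v = 0 → dh y v = 0) (v : Ix p (Kx m) → ℝ) :
    dh y v = 4 * hh y * dotProduct y v := by
  have hyy : dotProduct y y = 1 := by
    rw [← hy]
    unfold nsq dotProduct
    exact Finset.sum_congr rfl fun i _ => (sq (y i)).symm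
  have e : v = (v + (-(dotProduct y v)) • y) + (dotProduct y v) • y := by
    rw [neg_smul]; abel
  have h1 : dotProduct y (v + (-(dotProduct y v)) • y) = 0 := by
    rw [dotProduct_add, dotProduct_smul, hyy, smul_eq_mul]; ring
  rw [e, dh_add, dh_smul, dh_self, h _ h1, ← e]
  ring

private lemma first (y : Ix p (Kx m) → ℝ) (hy : nsq y = 1)
    (h : ∀ v : Ix p (Kx m) → ℝ, dotProduct y v = 0 → dh y v = 0) (i : Fin (p + 1)) :
    ssq y * y (Sum.inl i) = 2 * hh y * y (Sum.inl i) := by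
  have h1 := dh_all y hy h (Sum.elim (fun j => if j = i then 1 else 0) (fun _ => 0))
  have h2 : Sm (Sum.elim (fun j => if j = i then 1 else 0) (fun _ => 0) : Ix p (Kx m) → ℝ) = 0 := by
    ext a b
    simp [Sm]
  have h3 : dotProduct y (Sum.elim (fun j => if j = i then 1 else 0) (fun _ => 0) : Ix p (Kx m) → ℝ) =
      y (Sum.inl i) := by
    unfold dotProduct
    rw [Fintype.sum_sum_type]
    simp
  rw [dh_eq, h2, h3] at h1
  simp only [Matrix.zero_apply, star_zero, mul_zero, Complex.zero_re, Finset.sum_const_zero, add_zero, Sum.elim_inl,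
    mul_ite, mul_one, Finset.sum_ite_eq', Finset.mem_univ, if_true] at h1
  linarith

private lemma second (y : Ix p (Kx m) → ℝ) (hy : nsq y = 1)
    (h : ∀ v : Ix p (Kx m) → ℝ, dotProduct y v = 0 → dh y v = 0) :
    Sm y * (Sm y)ᴴ * Sm y = ((1 - 2 * hh y : ℝ) : ℂ) • Sm y := by
  set S := Sm y with hS
  set X : Matrix (Fin m) (Fin m) ℂ := S - S * Sᴴ * S - ((2 * hh y : ℝ) : ℂ) • S with hX
  have hST : Sᵀ = S := Sm_transpose y
  have hXT : Xᵀ = X := by
    have e : (Sᴴ)ᵀ = S.map star := by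
      ext a b; simp [Matrix.conjTranspose_apply]
    have e' : Sᴴ = S.map star := by
      conv_rhs => rw [← hST]
      ext a b; simp [Matrix.conjTranspose_apply]
    rw [hX, Matrix.transpose_sub, Matrix.transpose_sub, Matrix.transpose_smul, Matrix.transpose_mul,
      Matrix.transpose_mul, hST, e, ← e', Matrix.mul_assoc]
  have h1 := dh_all y hy h (Sum.elim (fun _ => 0) (ofS X))
  have h2 : Sm (Sum.elim (fun _ => 0) (ofS X) : Ix p (Kx m) → ℝ) = X := Sm_ofS _ X hXT
  have h3 : dotProduct y (Sum.elim (fun _ => 0) (ofS X) : Ix p (Kx m) → ℝ) =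
      ∑ i, ∑ j, (S i j * star (X i j)).re := by
    have := inner_Sm y (Sum.elim (fun _ => 0) (ofS X) : Ix p (Kx m) → ℝ)
    rw [h2] at this
    rw [hS, this]
    unfold dotProduct
    rw [Fintype.sum_sum_type]
    simp
  have hws : wsq y + ssq y = 1 := by rw [← nsq_eq, hy]
  rw [dh_eq, h2, h3, hws] at h1
  simp only [Sum.elim_inl, mul_zero, Finset.sum_const_zero, zero_add, Complex.ofReal_one, one_smul] at h1
  have h4 : ∑ i, ∑ j, Complex.normSq (X i j) = 0 := by
    have e : ∀ i j, Complex.normSq (X i j) = (((S - S * Sᴴ * S) i j) * star (X i j)).re -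
        2 * hh y * (S i j * star (X i j)).re := by
      intro i j
      have e1 : (Complex.normSq (X i j) : ℝ) = (X i j * star (X i j)).re := by
        have := Complex.mul_conj (X i j)
        change _ = (X i j * (starRingEnd ℂ) (X i j)).re
        rw [this, Complex.ofReal_re]
      rw [e1]
      have e2 : X i j = (S - S * Sᴴ * S) i j - ((2 * hh y : ℝ) : ℂ) * S i j := by
        rw [hX]; rfl
      conv_lhs => rw [show X i j * star (X i j) = ((S - S * Sᴴ * S) i j - ((2 * hh y : ℝ) : ℂ) * S i j) * star (X i j)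
        from by rw [← e2]]
      rw [sub_mul, Complex.sub_re, mul_assoc ((2 * hh y : ℝ) : ℂ) (S i j) (star (X i j)), Complex.re_ofReal_mul]
    simp_rw [e, Finset.sum_sub_distrib, ← Finset.mul_sum]
    linarith
  have h5 : X = 0 := by
    ext i j
    have h6 := (Finset.sum_eq_zero_iff_of_nonneg (fun i _ => Finset.sum_nonneg fun j _ =>
      Complex.normSq_nonneg _)).mp h4 i (Finset.mem_univ i)
    have h7 := (Finset.sum_eq_zero_iff_of_nonneg (fun j _ => Complex.normSq_nonneg _)).mp h6 j (Finset.mem_univ j)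
    exact Complex.normSq_eq_zero.mp h7
  have h8 : S - S * Sᴴ * S - ((2 * hh y : ℝ) : ℂ) • S = 0 := h5
  have h9 : S * Sᴴ * S = S - ((2 * hh y : ℝ) : ℂ) • S := by
    rw [sub_right_comm, sub_eq_zero] at h8
    exact h8.symm
  rw [h9, Complex.ofReal_sub, Complex.ofReal_one, sub_smul, one_smul]

theorem crit (y : Ix p (Kx m) → ℝ) (hy : nsq y = 1) (h : ∀ v : Ix p (Kx m) → ℝ, dotProduct y v = 0 → dh y v = 0) :
    hh y = 0 ∨ 1 / 4 ≤ hh y := by
  have hws : wsq y + ssq y = 1 := by rw [← nsq_eq, hy]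
  have hs0 : 0 ≤ ssq y := Finset.sum_nonneg fun _ _ => sq_nonneg _
  by_cases hw : ∃ i : Fin (p + 1), y (Sum.inl i) ≠ 0
  · obtain ⟨i, hi⟩ := hw
    have h1 : ssq y = 2 * hh y := mul_right_cancel₀ hi (first y hy h i)
    have h2 := wsq_mul_ssq_le y
    have h3 : wsq y = 1 - ssq y := by linarith
    rw [h3] at h2
    have h4 : ssq y * (1 / 2 - ssq y) ≤ 0 := by nlinarith
    rcases hs0.eq_or_lt with h5 | h5
    · left; linarith
    · right
      have : 1 / 2 - ssq y ≤ 0 := by
        by_contra hc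
        push Not at hc
        have := mul_pos h5 hc
        linarith
      linarith
  · push Not at hw
    have h1 : wsq y = 0 := Finset.sum_eq_zero fun i _ => by rw [hw i]; ring
    have h2 : ssq y = 1 := by linarith
    by_cases hc : 1 - 2 * hh y = 0
    · right; linarith
    · have h3 := second y hy h
      set c : ℝ := 1 - 2 * hh y with hcdef
      have hc' : (c : ℂ) ≠ 0 := by exact_mod_cast hc
      have h4 : (Sm y * (Sm y)ᴴ) * (Sm y * (Sm y)ᴴ) = (c : ℂ) • (Sm y * (Sm y)ᴴ) := by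
        rw [← Matrix.mul_assoc, h3, Matrix.smul_mul]
      obtain ⟨k, hk⟩ := trace_idem ((c : ℂ)⁻¹ • (Sm y * (Sm y)ᴴ)) (by
        rw [Matrix.smul_mul, Matrix.mul_smul, h4, smul_smul, smul_smul, mul_assoc, inv_mul_cancel₀ hc', mul_one])
      rw [Matrix.trace_smul, trace_mul_star, sum_normSq_Sm, h2, smul_eq_mul, Complex.ofReal_one, mul_one] at hk
      have h5 : c⁻¹ = k := by exact_mod_cast hk
      have h6 : c * k = 1 := by rw [← h5]; exact mul_inv_cancel₀ hc
      have h7 : k ≠ 0 := by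
        rintro rfl
        simp at h6
      rcases Nat.lt_or_ge 1 k with h8 | h8
      · right
        have h9 : (2 : ℝ) ≤ k := by exact_mod_cast h8
        have h10 : c ≤ 1 / 2 := by
          have hk0 : (0 : ℝ) < k := by linarith
          have : c = 1 / k := by rw [eq_div_iff hk0.ne']; exact h6
          rw [this]
          exact one_div_le_one_div_of_le (by norm_num) h9
        linarith
      · left
        have h9 : k = 1 := by omega
        rw [h9, Nat.cast_one, mul_one] at h6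
        linarith

end Pool.Agent.Helper6.BP
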