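import Pool.Agent.Helper6.BP.LocB

/-!
PROJECT BP, block V, module BP-V16: the derivatives of the local equations are onto.

PROOF. Let `w : LI → ℝ` be given. First direction `v0`: `t`-part `0`, `δY_jj = 0`, `δY_jb = 0`, `δY_aj = w_a`, `δY_ab = (w_ab + w_a Y_jb) / Y_jj` (`a, b ≠ j`; `Y_jj = y_j² ≠ 0`) has the right derivatives for the first two
groups (`Y_ab Y_jj - Y_aj Y_jb`: `δY_ab Y_jj + Y_ab δY_jj - δY_aj Y_jb - Y_aj δY_jb = w_ab`). Then add `c0 • (Y, 0)` (the derivatives of the first two groups vanish in the direction `(Y, 0)`, `Y = y yᵀ`; trace: `1`; the group `L_k`: `y_j (L_k·y) = 0`), with `c0` such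
that the trace is right, then by `H1`, `H2` a vector `tv y v u` with `y·v = 0` and prescribed values of `2 t·u + dG G y v` and `L_k·v` (a multiple of the vector of `H1` plus a vector of `H2`); use `PP_tv`, `pd_add_right`, `pd_smul_right`.
-/

set_option autoImplicit false

namespace Pool.Agent.Helper6.BP

open Pool.Agent.Helper72.BP Pool.Agent.Helper79.BP
open MvPolynomial

variable {ι τ : Type} [Fintype ι] [Fintype τ] [DecidableEq ι] {r q d : ℕ} (G : Fin r → Matrix ι ι ℝ) (ε : ℝ)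
  (L : Fin q → ι → ℝ) (j : ι)

variable (hG : ∀ l a b, G l a b = G l b a) (y : ι → ℝ) (t : τ → ℝ) (hy : nsq y = 1)
  (hL : ∀ k, dotProduct (L k) y = 0)

include hG hy hL

theorem PP_onto (hj : y j ≠ 0)
    (H1 : ∃ (v : ι → ℝ) (u : τ → ℝ), dotProduct y v = 0 ∧ 2 * dotProduct t u + dG G y v ≠ 0)
    (H2 : ∀ w : Fin q → ℝ, ∃ (v : ι → ℝ) (u : τ → ℝ), dotProduct y v = 0 ∧ 2 * dotProduct t u + dG G y v = 0 ∧
      ∀ k, dotProduct (L k) v = w k) (w : LI ι j q → ℝ) :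
    ∃ v, ∀ i, pd (PP G ε L j i) (emb (y, t)) v = w i := by
  have hjj : y j * y j ≠ 0 := mul_ne_zero hj hj
  obtain ⟨v0, hv0⟩ : ∃ v0 : Amb ι τ → ℝ, v0 = Sum.elim (fun b : ι × ι =>
      if ha : b.1 = j then 0 else
        if hb : b.2 = j then w (Sum.inr (Sum.inl ⟨b.1, ha⟩)) else
          (w (Sum.inl (⟨b.1, ha⟩, ⟨b.2, hb⟩)) + w (Sum.inr (Sum.inl ⟨b.1, ha⟩)) * (y j * y b.2)) / (y j * y j))
      (fun _ => 0) := ⟨_, rfl⟩
  obtain ⟨e0, he0⟩ : ∃ e0 : Amb ι τ → ℝ, e0 = Sum.elim (fun b : ι × ι => y b.1 * y b.2) (fun _ => 0) := ⟨_, rfl⟩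
  have v0j : ∀ b, v0 (Sum.inl (j, b)) = 0 := by
    intro b
    rw [hv0]
    show (if ha : j = j then (0 : ℝ) else _) = 0
    rw [dif_pos rfl]
  have v0a : ∀ a : {a : ι // a ≠ j}, v0 (Sum.inl (a.1, j)) = w (Sum.inr (Sum.inl a)) := by
    intro a
    rw [hv0]
    show (if ha : a.1 = j then (0 : ℝ) else if hb : j = j then w (Sum.inr (Sum.inl ⟨a.1, ha⟩)) else _) = _
    rw [dif_neg a.2, dif_pos rfl]
  have v0ab : ∀ a b : {a : ι // a ≠ j}, v0 (Sum.inl (a.1, b.1)) =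
      (w (Sum.inl (a, b)) + w (Sum.inr (Sum.inl a)) * (y j * y b.1)) / (y j * y j) := by
    intro a b
    rw [hv0]
    show (if ha : a.1 = j then (0 : ℝ) else if hb : b.1 = j then w (Sum.inr (Sum.inl ⟨a.1, ha⟩)) else
      (w (Sum.inl (⟨a.1, ha⟩, ⟨b.1, hb⟩)) + w (Sum.inr (Sum.inl ⟨a.1, ha⟩)) * (y j * y b.1)) / (y j * y j)) = _
    rw [dif_neg a.2, dif_neg b.2]
  have hY : ∀ a b, emb (y, t) (Sum.inl (a, b)) = y a * y b := fun a b => rfl
  have e0v : ∀ a b, e0 (Sum.inl (a, b)) = y a * y b := by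
    intro a b
    rw [he0]
    rfl
  have h0a : ∀ ab, pd (PP G ε L j (Sum.inl ab)) (emb (y, t)) v0 = w (Sum.inl ab) := by
    rintro ⟨a, b⟩
    simp only [PP, pd_sub, pd_mul, pd_X, eval_X, hY, v0j, v0a, v0ab]
    field_simp
    ring
  have h0b : ∀ a, pd (PP G ε L j (Sum.inr (Sum.inl a))) (emb (y, t)) v0 = w (Sum.inr (Sum.inl a)) := by
    intro a
    simp only [PP, pd_sub, pd_X, v0j, v0a, sub_zero]
  have hea : ∀ ab, pd (PP G ε L j (Sum.inl ab)) (emb (y, t)) e0 = 0 := by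
    rintro ⟨a, b⟩
    simp only [PP, pd_sub, pd_mul, pd_X, eval_X, hY, e0v]
    ring
  have heb : ∀ a, pd (PP G ε L j (Sum.inr (Sum.inl a))) (emb (y, t)) e0 = 0 := by
    intro a
    simp only [PP, pd_sub, pd_X, e0v]
    ring
  have hec : pd (PP G ε L j (Sum.inr (Sum.inr (Sum.inl false)))) (emb (y, t)) e0 = 1 := by
    simp only [PP, pd_sub, pd_sum, pd_X, pd_one, e0v, sub_zero]
    rw [← hy, nsq]
    exact Finset.sum_congr rfl fun a _ => (sq (y a)).symm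
  have hed : ∀ k, pd (PP G ε L j (Sum.inr (Sum.inr (Sum.inr k)))) (emb (y, t)) e0 = 0 := by
    intro k
    have h := hL k
    rw [dotProduct] at h
    simp only [PP, pd_sum, pd_mul, pd_X, pd_C, e0v, eval_C, mul_zero, add_zero]
    calc ∑ b, y j * y b * L k b = y j * ∑ b, L k b * y b := by
          rw [Finset.mul_sum]
          exact Finset.sum_congr rfl fun b _ => by ring
      _ = 0 := by rw [h, mul_zero]
  obtain ⟨v2, u2, hyv2, hρ⟩ := H1
  obtain ⟨c0, hc0⟩ : ∃ c0 : ℝ, c0 = w (Sum.inr (Sum.inr (Sum.inl false))) -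
    pd (PP G ε L j (Sum.inr (Sum.inr (Sum.inl false)))) (emb (y, t)) v0 := ⟨_, rfl⟩
  obtain ⟨c1, hc1⟩ : ∃ c1 : ℝ, c1 = (w (Sum.inr (Sum.inr (Sum.inl true))) -
    pd (PP G ε L j (Sum.inr (Sum.inr (Sum.inl true)))) (emb (y, t)) v0 -
    c0 * pd (PP G ε L j (Sum.inr (Sum.inr (Sum.inl true)))) (emb (y, t)) e0) /
      (2 * dotProduct t u2 + dG G y v2) := ⟨_, rfl⟩
  obtain ⟨v1, u1, hyv1, hz, hv1⟩ := H2 (fun k => (w (Sum.inr (Sum.inr (Sum.inr k))) -
    pd (PP G ε L j (Sum.inr (Sum.inr (Sum.inr k)))) (emb (y, t)) v0 - c1 * (y j * dotProduct (L k) v2)) / y j)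
  refine ⟨v0 + c0 • e0 + c1 • tv y v2 u2 + tv y v1 u1, fun i => ?_⟩
  rw [pd_add_right, pd_add_right, pd_add_right, pd_smul_right, pd_smul_right,
    PP_tv G ε L j hG y t hy hL v2 u2 hyv2 i, PP_tv G ε L j hG y t hy hL v1 u1 hyv1 i]
  rcases i with ab | a | (_ | _) | k
  · rw [h0a, hea]
    ring
  · rw [h0b, heb]
    ring
  · rw [hec, hc0]
    ring
  · show _ + _ + c1 * (2 * dotProduct t u2 + dG G y v2) + (2 * dotProduct t u1 + dG G y v1) = _
    rw [hz, hc1, div_mul_cancel₀ _ hρ]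
    ring
  · show _ + _ + c1 * (y j * dotProduct (L k) v2) + y j * dotProduct (L k) v1 = _
    rw [hed, hv1 k, mul_div_cancel₀ _ hj]
    ring

end Pool.Agent.Helper6.BP
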