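import Pool.Agent.Helper6.BP.LocA
import Pool.Agent.Helper6.BP.LocC
import Pool.Agent.Helper6.BP.AlgV

/-!
PROJECT BP, block V, module BP-V18: `NonsingAt` and tangent vectors for `NG G ε L`; the abstract tube is a compact nonsingular variety.

PROOF. `H1_of_reg`: if `t ≠ 0` take `v = 0`, `u = t`: `2 t·t ≠ 0` (`dG G y 0 = 0`). If `t = 0`, `Ffun G ε y 0 = 0` says `∑ g² = ε` (`nsq y = 1`), take the `v` of `reg`, `u = 0` (`dG G y v = 4 ∑_l g_l bf ..`).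
`nonsing_NG`, `tan_NG`: as `nsq y = 1` some `y_j ≠ 0`; use `nonsing_of`, `tan_of` with `f = PP G ε L j`, `U = {x | 0 < x (inl (j, j))}` (open), `card_LI`, `PP_zero`, `PP_local`, `PP_onto`, `PP_tv`; `emb_mem_NG` for membership.
`isCNV_Vemb`, `tan_Vemb`: the case `q = 0` (`L = Fin.elim0`, `NG_zero`, `H2` is trivial with `v = 0`, `u = 0`), `isAlg_Vemb`, `isCompact_Vemb`, `H1_of_reg` with `IsTube.reg`.
-/

set_option autoImplicit false

namespace Pool.Agent.Helper6.BP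

open Pool.Agent.Helper72.BP Pool.Agent.Helper79.BP
open MvPolynomial

variable {ι τ : Type} [Fintype ι] [Fintype τ] [DecidableEq ι] {r q d : ℕ} (G : Fin r → Matrix ι ι ℝ) (ε : ℝ)
  (L : Fin q → ι → ℝ)

private theorem dG_zero (y : ι → ℝ) : dG G y 0 = 0 := by
  unfold dG bf
  simp

theorem H1_of_reg (h0 : 0 < ε)
    (reg : ∀ y : ι → ℝ, nsq y = 1 → ∑ l, qf (G l) y ^ 2 = ε →
      ∃ v : ι → ℝ, ∑ i, y i * v i = 0 ∧ ∑ l, qf (G l) y * ∑ i, ∑ j, G l i j * y i * v j ≠ 0)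
    (x : (ι → ℝ) × (τ → ℝ)) (hx : x ∈ Vt G ε) :
    ∃ (v : ι → ℝ) (u : τ → ℝ), dotProduct x.1 v = 0 ∧ 2 * dotProduct x.2 u + dG G x.1 v ≠ 0 := by
  obtain ⟨hx1, hx2⟩ := hx
  by_cases ht : x.2 = 0
  · have h1 : ∑ l, qf (G l) x.1 ^ 2 = ε := by
      unfold Ffun at hx2
      rw [hx1, ht] at hx2
      have h2 : nsq (0 : τ → ℝ) = 0 := by
        unfold nsq
        simp
      rw [h2] at hx2
      simp only [Algebra.algebraMap_self, RingHom.id_apply, one_pow, mul_one, zero_add] at hx2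
      linarith
    obtain ⟨v, hv1, hv2⟩ := reg x.1 hx1 h1
    refine ⟨v, 0, hv1, ?_⟩
    have h3 : dG G x.1 v = 4 * ∑ l, qf (G l) x.1 * ∑ i, ∑ j, G l i j * x.1 i * v j := by
      unfold dG bf
      rw [Finset.mul_sum]
    rw [h3, dotProduct_zero, mul_zero, zero_add]
    exact mul_ne_zero (by norm_num) hv2
  · refine ⟨0, x.2, dotProduct_zero _, ?_⟩
    rw [dG_zero, add_zero]
    refine mul_ne_zero (by norm_num) ?_
    intro h
    exact ht (dotProduct_self_eq_zero.1 h)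

private theorem exists_ne (y : ι → ℝ) (hy : nsq y = 1) : ∃ j, y j ≠ 0 := by
  by_contra h
  push Not at h
  have : nsq y = 0 := by
    unfold nsq
    simp [h]
  rw [this] at hy
  exact zero_ne_one hy

private theorem emb_jj (x : (ι → ℝ) × (τ → ℝ)) (j : ι) (hj : x.1 j ≠ 0) : 0 < emb x (Sum.inl (j, j)) :=
  mul_self_pos.2 hj

theorem nonsing_NG (hd : d + q + 2 = Fintype.card ι + Fintype.card τ) (hG : ∀ l a b, G l a b = G l b a)
    (x : (ι → ℝ) × (τ → ℝ)) (hx : x ∈ Vt G ε) (hL : ∀ k, dotProduct (L k) x.1 = 0)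
    (H1 : ∃ (v : ι → ℝ) (u : τ → ℝ), dotProduct x.1 v = 0 ∧ 2 * dotProduct x.2 u + dG G x.1 v ≠ 0)
    (H2 : ∀ w : Fin q → ℝ, ∃ (v : ι → ℝ) (u : τ → ℝ), dotProduct x.1 v = 0 ∧ 2 * dotProduct x.2 u + dG G x.1 v = 0 ∧
      ∀ k, dotProduct (L k) v = w k) :
    NonsingAt d (NG G ε L) (emb x) := by
  obtain ⟨j, hj⟩ := exists_ne x.1 hx.1
  exact nonsing_of (NG G ε L) (emb x) ((emb_mem_NG G ε L x hx).2 hL) (PP G ε L j) (card_LI j hd)
    (fun i y hy => PP_zero G ε L j i y hy) (PP_onto G ε L j hG x.1 x.2 hx.1 hL hj H1 H2)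
    {z | 0 < z (Sum.inl (j, j))} (isOpen_lt continuous_const (continuous_apply _)) (emb_jj x j hj)
    (fun y hy h => PP_local G ε L j y hy h)

theorem tan_NG (hG : ∀ l a b, G l a b = G l b a)
    (x : (ι → ℝ) × (τ → ℝ)) (hx : x ∈ Vt G ε) (hL : ∀ k, dotProduct (L k) x.1 = 0)
    (H1 : ∃ (v : ι → ℝ) (u : τ → ℝ), dotProduct x.1 v = 0 ∧ 2 * dotProduct x.2 u + dG G x.1 v ≠ 0)
    (H2 : ∀ w : Fin q → ℝ, ∃ (v : ι → ℝ) (u : τ → ℝ), dotProduct x.1 v = 0 ∧ 2 * dotProduct x.2 u + dG G x.1 v = 0 ∧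
      ∀ k, dotProduct (L k) v = w k) (v : ι → ℝ) (u : τ → ℝ) (hv : dotProduct x.1 v = 0)
    (hvu : 2 * dotProduct x.2 u + dG G x.1 v = 0) (hLv : ∀ k, dotProduct (L k) v = 0) :
    Tan (NG G ε L) (emb x) (tv x.1 v u) := by
  obtain ⟨j, hj⟩ := exists_ne x.1 hx.1
  refine tan_of (NG G ε L) (emb x) ((emb_mem_NG G ε L x hx).2 hL) (PP G ε L j)
    (fun i y hy => PP_zero G ε L j i y hy) (PP_onto G ε L j hG x.1 x.2 hx.1 hL hj H1 H2)
    {z | 0 < z (Sum.inl (j, j))} (isOpen_lt continuous_const (continuous_apply _)) (emb_jj x j hj)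
    (fun y hy h => PP_local G ε L j y hy h) _ (fun i => ?_)
  have h := PP_tv G ε L j hG x.1 x.2 hx.1 hL v u hv i
  refine Eq.trans h ?_
  rcases i with i | i | (i | i) | k
  · rfl
  · rfl
  · rfl
  · exact hvu
  · show x.1 j * dotProduct (L k) v = 0
    rw [hLv k, mul_zero]


/-- The abstract tube is a compact nonsingular variety (for T4, helper79). -/
theorem isCNV_Vemb {p m r d : ℕ} {κ : Type} [Fintype κ] [DecidableEq κ] (G : Fin r → Matrix (Ix p κ) (Ix p κ) ℝ)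
    (q : (Fin m → ℂ) → Ix p κ → ℝ) (ε : ℝ) (hT : IsTube G q ε)
    (hd : d + p + 2 = Fintype.card (Ix p κ) + Fintype.card (Tx p r κ)) :
    IsCNV (d + p) (Vemb G ε : Set (Amb (Ix p κ) (Tx p r κ) → ℝ)) := by
  refine ⟨isAlg_Vemb G ε, isCompact_Vemb G ε, ?_⟩
  rintro _ ⟨x, hx, rfl⟩
  have h := nonsing_NG (d := d + p) G ε (fun k : Fin 0 => k.elim0) (by rw [← hd]) hT.symm x hx
    (fun k => k.elim0) (H1_of_reg G ε hT.pos hT.reg x hx)
    (fun w => ⟨0, 0, dotProduct_zero _, by rw [dotProduct_zero, dG_zero]; ring, fun k => k.elim0⟩)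
  rwa [NG_zero] at h

theorem tan_Vemb {p m r : ℕ} {κ : Type} [Fintype κ] [DecidableEq κ] (G : Fin r → Matrix (Ix p κ) (Ix p κ) ℝ)
    (q : (Fin m → ℂ) → Ix p κ → ℝ) (ε : ℝ) (hT : IsTube G q ε)
    (x : (Ix p κ → ℝ) × (Tx p r κ → ℝ)) (hx : x ∈ Vt G ε) (v : Ix p κ → ℝ) (u : Tx p r κ → ℝ)
    (hv : dotProduct x.1 v = 0) (hvu : 2 * dotProduct x.2 u + dG G x.1 v = 0) :
    Tan (Vemb G ε : Set (Amb (Ix p κ) (Tx p r κ) → ℝ)) (emb x) (tv x.1 v u) := by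
  have h := tan_NG G ε (fun k : Fin 0 => k.elim0) hT.symm x hx
    (fun k => k.elim0) (H1_of_reg G ε hT.pos hT.reg x hx)
    (fun w => ⟨0, 0, dotProduct_zero _, by rw [dotProduct_zero, dG_zero]; ring, fun k => k.elim0⟩)
    v u hv hvu (fun k => k.elim0)
  rwa [NG_zero] at h

end Pool.Agent.Helper6.BP
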