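import Pool.Agent.Helper6.BP.GeoA
import Pool.Agent.Helper6.BP.NonsV

/-!
PROJECT BP, block V, module BP-V20: the concrete `V` is a compact nonsingular variety; its tangent vectors.

PROOF. `isTube` and `isCNV_Vemb`, `tan_Vemb`, `H1_of_reg` (`dh = dG (GG p m)`, `VV = Vemb (GG p m)`, `dd_eq`).
-/

set_option autoImplicit false

namespace Pool.Agent.Helper6.BP

open Pool.Agent.Helper72.BP Pool.Agent.Helper79.BP
open Matrix

variable {p m : ℕ}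

theorem h1V (ε : ℝ) (h0 : 0 < ε) (h1 : ε < 1 / 4) (x : (Ix p (Kx m) → ℝ) × (Tx p (rr p m) (Kx m) → ℝ))
    (hx : x ∈ Vt (GG p m) ε) :
    ∃ (v : Ix p (Kx m) → ℝ) (u : Tx p (rr p m) (Kx m) → ℝ), dotProduct x.1 v = 0 ∧
      2 * dotProduct x.2 u + dG (GG p m) x.1 v ≠ 0 := by
  exact H1_of_reg (GG p m) ε h0 (isTube ε h0 h1).reg x hx

theorem isCNV_VV (ε : ℝ) (h0 : 0 < ε) (h1 : ε < 1 / 4) : IsCNV (dd p m + p) (VV p m ε) := by
  exact isCNV_Vemb (GG p m) (qq p m) ε (isTube ε h0 h1) (dd_eq p m)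

theorem tan_VV (ε : ℝ) (h0 : 0 < ε) (h1 : ε < 1 / 4) (x : (Ix p (Kx m) → ℝ) × (Tx p (rr p m) (Kx m) → ℝ))
    (hx : x ∈ Vt (GG p m) ε) (v : Ix p (Kx m) → ℝ) (u : Tx p (rr p m) (Kx m) → ℝ) (hv : dotProduct x.1 v = 0)
    (hvu : 2 * dotProduct x.2 u + dh x.1 v = 0) : Tan (VV p m ε) (emb x) (tv x.1 v u) := by
  exact tan_Vemb (GG p m) (qq p m) ε (isTube ε h0 h1) x hx v u hv hvu

end Pool.Agent.Helper6.BP
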