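import Pool.Agent.Helper6.BP.Coord

/-!
PROJECT BP, block V, module BP-V2: the quadratic forms `g_l`, basic facts.

PROOF. `qf_sp`, `bf_sp`: expand (`Finset.sum_mul_sum`). `GG_symm`: `sp a b` is symmetric, so is every `Gm`. `GG_lin`: `cv (inr k)` and `vr`, `vi` vanish at `inl i`.
`sum_GG`: reindex by `Fintype.equivFin` (`Equiv.sum_comp`). `hh_sum`: `sum_GG`.
`qf_Gm_inl`: `qf_sp`, `dotProduct (cv i) y = y i`. `qf_Gm_re`, `qf_Gm_im`: `qf` is additive in the matrix, `qf_sp`, `Sm_re`, `Sm_im`, `Complex.mul_re`, `Complex.mul_im`.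
`wsq_mul_ssq_le`: the squares `(w_i y_k)²` are a part of the sum `hh_sum`. `dh_self`: `bf A y y = qf A y`. `dh_add`, `dh_smul`: `bf` is linear in `v`.
-/

set_option autoImplicit false

namespace Pool.Agent.Helper6.BP

open Pool.Agent.Helper72.BP Pool.Agent.Helper79.BP
open Matrix

variable {p m : ℕ}

private theorem qf_eq_bf {ι : Type} [Fintype ι] (A : Matrix ι ι ℝ) (y : ι → ℝ) : qf A y = bf A y y := rfl

private theorem bf_add_l {ι : Type} [Fintype ι] (A B : Matrix ι ι ℝ) (y v : ι → ℝ) :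
    bf (A + B) y v = bf A y v + bf B y v := by
  unfold bf
  rw [← Finset.sum_add_distrib]
  refine Finset.sum_congr rfl fun i _ => ?_
  rw [← Finset.sum_add_distrib]
  refine Finset.sum_congr rfl fun j _ => ?_
  rw [Matrix.add_apply]
  ring

private theorem bf_sub_l {ι : Type} [Fintype ι] (A B : Matrix ι ι ℝ) (y v : ι → ℝ) :
    bf (A - B) y v = bf A y v - bf B y v := by
  unfold bf
  rw [← Finset.sum_sub_distrib]
  refine Finset.sum_congr rfl fun i _ => ?_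
  rw [← Finset.sum_sub_distrib]
  refine Finset.sum_congr rfl fun j _ => ?_
  rw [Matrix.sub_apply]
  ring

private theorem bf_smul_l {ι : Type} [Fintype ι] (c : ℝ) (A : Matrix ι ι ℝ) (y v : ι → ℝ) :
    bf (c • A) y v = c * bf A y v := by
  unfold bf
  rw [Finset.mul_sum]
  refine Finset.sum_congr rfl fun i _ => ?_
  rw [Finset.mul_sum]
  refine Finset.sum_congr rfl fun j _ => ?_
  rw [Matrix.smul_apply, smul_eq_mul]
  ring

private theorem bf_add_r {ι : Type} [Fintype ι] (A : Matrix ι ι ℝ) (y v w : ι → ℝ) :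
    bf A y (v + w) = bf A y v + bf A y w := by
  unfold bf
  rw [← Finset.sum_add_distrib]
  refine Finset.sum_congr rfl fun i _ => ?_
  rw [← Finset.sum_add_distrib]
  refine Finset.sum_congr rfl fun j _ => ?_
  rw [Pi.add_apply]
  ring

private theorem bf_smul_r {ι : Type} [Fintype ι] (A : Matrix ι ι ℝ) (c : ℝ) (y v : ι → ℝ) :
    bf A y (c • v) = c * bf A y v := by
  unfold bf
  rw [Finset.mul_sum]
  refine Finset.sum_congr rfl fun i _ => ?_
  rw [Finset.mul_sum]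
  refine Finset.sum_congr rfl fun j _ => ?_
  rw [Pi.smul_apply, smul_eq_mul]
  ring

private theorem bf_sp' {ι : Type} [Fintype ι] (a b y v : ι → ℝ) :
    bf (sp a b) y v = (dotProduct a y * dotProduct b v + dotProduct b y * dotProduct a v) / 2 := by
  unfold bf dotProduct
  rw [Finset.sum_mul_sum, Finset.sum_mul_sum, ← Finset.sum_add_distrib, Finset.sum_div]
  refine Finset.sum_congr rfl fun i _ => ?_
  rw [← Finset.sum_add_distrib, Finset.sum_div]
  refine Finset.sum_congr rfl fun j _ => ?_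
  unfold sp
  ring

private theorem dot_cv {ι : Type} [Fintype ι] [DecidableEq ι] (i : ι) (y : ι → ℝ) : dotProduct (cv i) y = y i := by
  unfold dotProduct cv
  simp

private theorem sp_symm {ι : Type} (a b : ι → ℝ) (i j : ι) : sp a b i j = sp a b j i := by
  unfold sp
  ring

theorem qf_sp {ι : Type} [Fintype ι] (a b y : ι → ℝ) : qf (sp a b) y = dotProduct a y * dotProduct b y := by
  rw [qf_eq_bf, bf_sp']
  ring

theorem bf_sp {ι : Type} [Fintype ι] (a b y v : ι → ℝ) :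
    bf (sp a b) y v = (dotProduct a y * dotProduct b v + dotProduct b y * dotProduct a v) / 2 :=
  bf_sp' a b y v

private theorem Gm_symm (l : Lx p m) (i j : Ix p (Kx m)) :
    (Gm l : Matrix (Ix p (Kx m)) (Ix p (Kx m)) ℝ) i j = Gm l j i := by
  rcases l with ⟨i', k⟩ | ⟨⟨⟨a, b⟩, ⟨c, d⟩⟩, e⟩
  · exact sp_symm _ _ i j
  · cases e
    · show (((1 / 2 : ℝ) • (sp (vr a b) (vr c d) - sp (vi a b) (vi c d) - sp (vr a d) (vr c b) + sp (vi a d) (vi c b))) : Matrix (Ix p (Kx m)) (Ix p (Kx m)) ℝ) i j =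
        (((1 / 2 : ℝ) • (sp (vr a b) (vr c d) - sp (vi a b) (vi c d) - sp (vr a d) (vr c b) + sp (vi a d) (vi c b))) : Matrix (Ix p (Kx m)) (Ix p (Kx m)) ℝ) j i
      simp only [Matrix.smul_apply, Matrix.add_apply, Matrix.sub_apply]
      rw [sp_symm _ _ i j, sp_symm _ _ i j, sp_symm _ _ i j, sp_symm _ _ i j]
    · show (((1 / 2 : ℝ) • (sp (vr a b) (vi c d) + sp (vi a b) (vr c d) - sp (vr a d) (vi c b) - sp (vi a d) (vr c b))) : Matrix (Ix p (Kx m)) (Ix p (Kx m)) ℝ) i j =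
        (((1 / 2 : ℝ) • (sp (vr a b) (vi c d) + sp (vi a b) (vr c d) - sp (vr a d) (vi c b) - sp (vi a d) (vr c b))) : Matrix (Ix p (Kx m)) (Ix p (Kx m)) ℝ) j i
      simp only [Matrix.smul_apply, Matrix.add_apply, Matrix.sub_apply]
      rw [sp_symm _ _ i j, sp_symm _ _ i j, sp_symm _ _ i j, sp_symm _ _ i j]

theorem GG_symm (l : Fin (rr p m)) (i j : Ix p (Kx m)) : GG p m l i j = GG p m l j i :=
  Gm_symm _ i j

private theorem vr_inl (a b : Fin m) (i : Fin (p + 1)) : (vr a b : Ix p (Kx m) → ℝ) (Sum.inl i) = 0 :=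
  if_neg (fun h => by cases h)

private theorem vi_inl (a b : Fin m) (i : Fin (p + 1)) : (vi a b : Ix p (Kx m) → ℝ) (Sum.inl i) = 0 :=
  if_neg (fun h => by cases h)

private theorem cv_inl (k : Kx m) (i : Fin (p + 1)) : (cv (Sum.inr k) : Ix p (Kx m) → ℝ) (Sum.inl i) = 0 :=
  if_neg (fun h => by cases h)

private theorem Gm_lin (l : Lx p m) (i j : Fin (p + 1)) :
    (Gm l : Matrix (Ix p (Kx m)) (Ix p (Kx m)) ℝ) (Sum.inl i) (Sum.inl j) = 0 := by
  rcases l with ⟨i', k⟩ | ⟨⟨⟨a, b⟩, ⟨c, d⟩⟩, e⟩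
  · show sp (cv (Sum.inl i')) (cv (Sum.inr k)) (Sum.inl i) (Sum.inl j) = 0
    unfold sp
    rw [cv_inl, cv_inl]
    ring
  · cases e
    · show (((1 / 2 : ℝ) • (sp (vr a b) (vr c d) - sp (vi a b) (vi c d) - sp (vr a d) (vr c b) + sp (vi a d) (vi c b))) : Matrix (Ix p (Kx m)) (Ix p (Kx m)) ℝ)
        (Sum.inl i) (Sum.inl j) = 0
      simp only [Matrix.smul_apply, Matrix.add_apply, Matrix.sub_apply, sp, vr_inl, vi_inl]
      simp
    · show (((1 / 2 : ℝ) • (sp (vr a b) (vi c d) + sp (vi a b) (vr c d) - sp (vr a d) (vi c b) - sp (vi a d) (vr c b))) : Matrix (Ix p (Kx m)) (Ix p (Kx m)) ℝ)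
        (Sum.inl i) (Sum.inl j) = 0
      simp only [Matrix.smul_apply, Matrix.add_apply, Matrix.sub_apply, sp, vr_inl, vi_inl]
      simp

theorem GG_lin (l : Fin (rr p m)) (i j : Fin (p + 1)) : GG p m l (Sum.inl i) (Sum.inl j) = 0 :=
  Gm_lin _ i j

theorem sum_GG (F : Matrix (Ix p (Kx m)) (Ix p (Kx m)) ℝ → ℝ) : ∑ l, F (GG p m l) = ∑ l : Lx p m, F (Gm l) :=
  Equiv.sum_comp (Fintype.equivFin (Lx p m)).symm (fun l => F (Gm l))

theorem hh_sum (y : Ix p (Kx m) → ℝ) : hh y = ∑ l : Lx p m, qf (Gm l) y ^ 2 :=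
  sum_GG (fun A => qf A y ^ 2)

theorem qf_Gm_inl (y : Ix p (Kx m) → ℝ) (i : Fin (p + 1)) (k : Kx m) :
    qf (Gm (Sum.inl (i, k))) y = y (Sum.inl i) * y (Sum.inr k) := by
  show qf (sp (cv (Sum.inl i)) (cv (Sum.inr k))) y = _
  rw [qf_sp, dot_cv, dot_cv]

theorem qf_Gm_re (y : Ix p (Kx m) → ℝ) (i j k l : Fin m) :
    qf (Gm (Sum.inr (((i, j), (k, l)), false)) : Matrix (Ix p (Kx m)) (Ix p (Kx m)) ℝ) y =
      (Sm y i j * Sm y k l - Sm y i l * Sm y k j).re / 2 := by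
  show qf ((1 / 2 : ℝ) • (sp (vr i j) (vr k l) - sp (vi i j) (vi k l) - sp (vr i l) (vr k j) + sp (vi i l) (vi k j))) y = _
  rw [qf_eq_bf, bf_smul_l, bf_add_l, bf_sub_l, bf_sub_l, ← qf_eq_bf, ← qf_eq_bf, ← qf_eq_bf, ← qf_eq_bf, qf_sp, qf_sp,
    qf_sp, qf_sp, Complex.sub_re, Complex.mul_re, Complex.mul_re]
  simp only [Sm_re, Sm_im]
  ring

theorem qf_Gm_im (y : Ix p (Kx m) → ℝ) (i j k l : Fin m) :
    qf (Gm (Sum.inr (((i, j), (k, l)), true)) : Matrix (Ix p (Kx m)) (Ix p (Kx m)) ℝ) y =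
      (Sm y i j * Sm y k l - Sm y i l * Sm y k j).im / 2 := by
  show qf ((1 / 2 : ℝ) • (sp (vr i j) (vi k l) + sp (vi i j) (vr k l) - sp (vr i l) (vi k j) - sp (vi i l) (vr k j))) y = _
  rw [qf_eq_bf, bf_smul_l, bf_sub_l, bf_sub_l, bf_add_l, ← qf_eq_bf, ← qf_eq_bf, ← qf_eq_bf, ← qf_eq_bf, qf_sp, qf_sp,
    qf_sp, qf_sp, Complex.sub_im, Complex.mul_im, Complex.mul_im]
  simp only [Sm_re, Sm_im]
  ring

/-- `s (1 - s) ≤ h`. -/
theorem wsq_mul_ssq_le (y : Ix p (Kx m) → ℝ) : wsq y * ssq y ≤ hh y := by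
  rw [hh_sum, Fintype.sum_sum_type, Fintype.sum_prod_type]
  have h1 : wsq y * ssq y = ∑ i : Fin (p + 1), ∑ k : Kx m, qf (Gm (Sum.inl (i, k))) y ^ 2 := by
    unfold wsq ssq
    rw [Finset.sum_mul_sum]
    refine Finset.sum_congr rfl fun i _ => Finset.sum_congr rfl fun k _ => ?_
    rw [qf_Gm_inl]
    ring
  rw [h1]
  exact le_add_of_nonneg_right (Finset.sum_nonneg fun _ _ => sq_nonneg _)

theorem dh_add (y v w : Ix p (Kx m) → ℝ) : dh y (v + w) = dh y v + dh y w := by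
  unfold dh dG
  rw [← Finset.sum_add_distrib]
  refine Finset.sum_congr rfl fun l _ => ?_
  rw [bf_add_r]
  ring

theorem dh_smul (y : Ix p (Kx m) → ℝ) (c : ℝ) (v : Ix p (Kx m) → ℝ) : dh y (c • v) = c * dh y v := by
  unfold dh dG
  rw [Finset.mul_sum]
  refine Finset.sum_congr rfl fun l _ => ?_
  rw [bf_smul_r]
  ring

/-- Euler. -/
theorem dh_self (y : Ix p (Kx m) → ℝ) : dh y y = 4 * hh y := by
  unfold dh dG hh
  rw [Finset.mul_sum]
  refine Finset.sum_congr rfl fun l _ => ?_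
  rw [← qf_eq_bf]
  ring

end Pool.Agent.Helper6.BP
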