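import Pool.Agent.Helper6.BP.IdentA

/-!
PROJECT BP, block V, module BP-V3: the identity for `h = ∑ g_l²`.

PROOF. By `hh_sum`, `qf_Gm_inl`, `qf_Gm_re`, `qf_Gm_im` (`Fintype.sum_sum_type`, `Fintype.sum_prod_type`, `Fintype.sum_bool`):
`h = ∑_i ∑_k w_i² y_k² + (1/4) ∑_ijkl normSq (S_ij S_kl - S_il S_kj)`, and
`∑_ijkl normSq (S_ij S_kl - S_il S_kj) = 2 (∑ normSq S_ij)² - 2 Re ∑_ijkl S_ij conj(S_kj) S_kl conj(S_il) = 2 |S|⁴ - 2 ∑_ik normSq ((S Sᴴ)_ik)`,
as `(S Sᴴ)_ik = ∑_j S_ij conj(S_kj)` and `∑_l S_kl conj(S_il) = conj((S Sᴴ)_ik)`. Use `sum_normSq_Sm`. (`normSq (a - b) = normSq a + normSq b - 2 Re (a conj b)`: `Complex.normSq_sub`.)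
-/

set_option autoImplicit false

namespace Pool.Agent.Helper6.BP

open Pool.Agent.Helper72.BP Pool.Agent.Helper79.BP
open Matrix

variable {p m : ℕ}

theorem sum_minors (S : Matrix (Fin m) (Fin m) ℂ) :
    ∑ i, ∑ j, ∑ k, ∑ l, Complex.normSq (S i j * S k l - S i l * S k j) =
      2 * (∑ i, ∑ j, Complex.normSq (S i j)) ^ 2 - 2 * ∑ i, ∑ k, Complex.normSq ((S * Sᴴ) i k) := by
  have h1 : ∀ i j k l, Complex.normSq (S i j * S k l - S i l * S k j) =
      Complex.normSq (S i j) * Complex.normSq (S k l) + Complex.normSq (S i l) * Complex.normSq (S k j) -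
        2 * ((S i j * (starRingEnd ℂ) (S k j)) * (S k l * (starRingEnd ℂ) (S i l))).re := by
    intro i j k l
    rw [Complex.normSq_sub, Complex.normSq_mul, Complex.normSq_mul, map_mul]
    congr 3
    ring
  have hA : ∑ i, ∑ j, ∑ k, ∑ l, Complex.normSq (S i j) * Complex.normSq (S k l) =
      (∑ i, ∑ j, Complex.normSq (S i j)) ^ 2 := by
    simp_rw [← Finset.mul_sum]
    simp_rw [← Finset.sum_mul]
    rw [_root_.sq]
  have hB : ∑ i, ∑ j, ∑ k, ∑ l, Complex.normSq (S i l) * Complex.normSq (S k j) =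
      (∑ i, ∑ j, Complex.normSq (S i j)) ^ 2 := by
    simp_rw [← Finset.sum_mul]
    simp_rw [← Finset.mul_sum]
    simp_rw [← Finset.sum_mul]
    rw [_root_.sq]
    congr 1
    rw [Finset.sum_comm]
  have hC : ∑ i, ∑ j, ∑ k, ∑ l, ((S i j * (starRingEnd ℂ) (S k j)) * (S k l * (starRingEnd ℂ) (S i l))).re =
      ∑ i, ∑ k, Complex.normSq ((S * Sᴴ) i k) := by
    refine Finset.sum_congr rfl fun i _ => ?_
    rw [Finset.sum_comm]
    refine Finset.sum_congr rfl fun k _ => ?_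
    have hM : (S * Sᴴ) i k = ∑ j, S i j * (starRingEnd ℂ) (S k j) := by
      rw [Matrix.mul_apply]
      rfl
    have hM' : (starRingEnd ℂ) ((S * Sᴴ) i k) = ∑ l, S k l * (starRingEnd ℂ) (S i l) := by
      rw [hM, map_sum]
      refine Finset.sum_congr rfl fun l _ => ?_
      rw [map_mul, Complex.conj_conj, mul_comm]
    have h2 : ((S * Sᴴ) i k * (starRingEnd ℂ) ((S * Sᴴ) i k)).re = Complex.normSq ((S * Sᴴ) i k) := by
      rw [Complex.mul_conj, Complex.ofReal_re]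
    rw [← h2, hM', hM, Finset.sum_mul_sum, Complex.re_sum]
    refine Finset.sum_congr rfl fun j _ => ?_
    rw [Complex.re_sum]
  simp_rw [h1, Finset.sum_sub_distrib, Finset.sum_add_distrib]
  rw [hA, hB]
  simp_rw [← Finset.mul_sum]
  rw [hC]
  ring

theorem hh_eq (y : Ix p (Kx m) → ℝ) : hh y = wsq y * ssq y +
    (ssq y ^ 2 - ∑ i, ∑ k, Complex.normSq ((Sm y * (Sm y)ᴴ) i k)) / 2 := by
  have h1 : ∑ x : Fin (p + 1) × Kx m, qf (Gm (Sum.inl x)) y ^ 2 = wsq y * ssq y := by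
    unfold wsq ssq
    rw [Fintype.sum_prod_type, Finset.sum_mul_sum]
    refine Finset.sum_congr rfl fun i _ => Finset.sum_congr rfl fun k _ => ?_
    rw [qf_Gm_inl, mul_pow]
  have h2 : ∑ x : ((Fin m × Fin m) × (Fin m × Fin m)) × Bool,
      qf (Gm (Sum.inr x) : Matrix (Ix p (Kx m)) (Ix p (Kx m)) ℝ) y ^ 2 =
      (∑ i, ∑ j, ∑ k, ∑ l, Complex.normSq (Sm y i j * Sm y k l - Sm y i l * Sm y k j)) / 4 := by
    rw [Fintype.sum_prod_type, Fintype.sum_prod_type, Fintype.sum_prod_type]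
    simp_rw [Fintype.sum_prod_type, Fintype.sum_bool, qf_Gm_re, qf_Gm_im]
    simp_rw [Finset.sum_div]
    refine Finset.sum_congr rfl fun i _ => Finset.sum_congr rfl fun j _ =>
      Finset.sum_congr rfl fun k _ => Finset.sum_congr rfl fun l _ => ?_
    rw [Complex.normSq_apply]
    ring
  rw [hh_sum, Fintype.sum_sum_type, h1, h2, sum_minors, sum_normSq_Sm]
  ring

end Pool.Agent.Helper6.BP
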