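import Pool.Agent.Helper6.BP.IdentB

/-!
PROJECT BP, block V, module BP-V4: the derivative of `h`.

PROOF. Both sides are the derivative at `t = 0` of `t ↦ h(y + t v)`. Left side (`deriv_left`): `qf G (y + t v) = qf G y + 2 t bf G y v + t² qf G v` for symmetric `G`, so the derivative of the square is
`4 qf G y * bf G y v`. Right side (`deriv_right`): use `hh_eq` for `y + t v`, `Sm (y + t v) = S + t S'` (`Sm_add`, `Sm_smul`); `wsq (y + t v)`, `ssq (y + t v)` have derivatives `2 ∑ w_i w'_i`, `2 ∑ y_k v_k = 2 Re ∑ S_ij conj(S'_ij)` (`inner_Sm`);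
`d/dt ∑_ik normSq ((S Sᴴ)_ik) = 2 Re ∑_ik (S Sᴴ)_ik conj((S' Sᴴ + S S'ᴴ)_ik) = 4 Re ∑_ij (S Sᴴ S)_ij conj(S'_ij)` (`re_inner_1`, `re_inner_2`: both halves are `Re tr (S Sᴴ S S'ᴴ)`, because
`tr (S Sᴴ (S' Sᴴ)ᴴ) = tr (S Sᴴ S S'ᴴ)` and `tr (S Sᴴ (S S'ᴴ)ᴴ) = tr (S Sᴴ S' Sᴴ)` is the complex conjugate of `tr (S S'ᴴ S Sᴴ) = tr (S Sᴴ S S'ᴴ)`).
The entries of `(S + t S')(S + t S')ᴴ = S Sᴴ + t (S' Sᴴ + S S'ᴴ) + t² S' S'ᴴ` are polynomials in `t`; `normSq (a + t b + t² c)` has derivative `2 Re (a conj b)` at `t = 0`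
(real polynomial in `t`: write `normSq (a + t b + t² c) = normSq a + t (2 Re(a conj b)) + t² R1 + t³ R2 + t⁴ R3`). Conclude by `HasDerivAt.unique`.
-/

set_option autoImplicit false

namespace Pool.Agent.Helper6.BP

open Pool.Agent.Helper72.BP Pool.Agent.Helper79.BP
open Matrix

variable {p m : ℕ}

private theorem hd_sq (a b c : ℝ) : HasDerivAt (fun t : ℝ => (a + t * b + t ^ 2 * c) ^ 2) (2 * (a * b)) 0 := by
  have h1 : HasDerivAt (fun t : ℝ => a + t * b + t ^ 2 * c) b 0 := by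
    have e1 : HasDerivAt (fun t : ℝ => a + t * b) (0 + 1 * b) 0 :=
      (hasDerivAt_const (0 : ℝ) a).add ((hasDerivAt_id' (0 : ℝ)).mul_const b)
    have e2 : HasDerivAt (fun t : ℝ => t ^ 2 * c) ((2 : ℕ) * (0 : ℝ) ^ (2 - 1) * c) 0 :=
      (hasDerivAt_pow 2 (0 : ℝ)).mul_const c
    have e3 := e1.add e2
    refine (e3.congr_deriv ?_)
    norm_num
  have h2 := h1.pow 2
  refine (h2.congr_deriv ?_)
  norm_num
  ring

private theorem hd_lin (a b c : ℝ) : HasDerivAt (fun t : ℝ => a + t * b + t ^ 2 * c) b 0 := by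
  have e1 : HasDerivAt (fun t : ℝ => a + t * b) (0 + 1 * b) 0 :=
    (hasDerivAt_const (0 : ℝ) a).add ((hasDerivAt_id' (0 : ℝ)).mul_const b)
  have e2 : HasDerivAt (fun t : ℝ => t ^ 2 * c) ((2 : ℕ) * (0 : ℝ) ^ (2 - 1) * c) 0 :=
    (hasDerivAt_pow 2 (0 : ℝ)).mul_const c
  have e3 := e1.add e2
  refine (e3.congr_deriv ?_)
  norm_num

private theorem hd_normSq (a b c : ℂ) :
    HasDerivAt (fun t : ℝ => Complex.normSq (a + (t : ℂ) * b + (t : ℂ) ^ 2 * c)) (2 * (a * star b).re) 0 := by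
  have h := (hd_sq a.re b.re c.re).add (hd_sq a.im b.im c.im)
  have e : (fun t : ℝ => Complex.normSq (a + (t : ℂ) * b + (t : ℂ) ^ 2 * c)) =
      (fun t : ℝ => (a.re + t * b.re + t ^ 2 * c.re) ^ 2) + (fun t : ℝ => (a.im + t * b.im + t ^ 2 * c.im) ^ 2) := by
    funext t
    have q : ((t : ℂ) ^ 2) = ((t ^ 2 : ℝ) : ℂ) := by push_cast; rfl
    rw [Pi.add_apply, q, Complex.normSq_apply]
    simp only [Complex.add_re, Complex.add_im, Complex.re_ofReal_mul, Complex.im_ofReal_mul]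
    ring
  rw [e]
  refine h.congr_deriv ?_
  have q : star b = (starRingEnd ℂ) b := rfl
  rw [q, Complex.mul_re, Complex.conj_re, Complex.conj_im]
  ring

private theorem inner_trace (A B : Matrix (Fin m) (Fin m) ℂ) :
    ∑ i, ∑ j, (A i j * star (B i j)).re = (Matrix.trace (A * Bᴴ)).re := by
  unfold Matrix.trace
  rw [Complex.re_sum]
  refine Finset.sum_congr rfl (fun i _ => ?_)
  rw [Matrix.diag_apply, Matrix.mul_apply, Complex.re_sum]
  refine Finset.sum_congr rfl (fun j _ => ?_)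
  rw [Matrix.conjTranspose_apply]

private theorem re_inner (S T : Matrix (Fin m) (Fin m) ℂ) :
    ∑ i, ∑ k, ((S * Sᴴ) i k * star ((T * Sᴴ + S * Tᴴ) i k)).re =
      2 * ∑ i, ∑ j, ((S * Sᴴ * S) i j * star (T i j)).re := by
  rw [inner_trace, inner_trace, Matrix.conjTranspose_add, Matrix.mul_add, Matrix.trace_add, Complex.add_re]
  have e1 : S * Sᴴ * (T * Sᴴ)ᴴ = S * Sᴴ * S * Tᴴ := by
    rw [Matrix.conjTranspose_mul, Matrix.conjTranspose_conjTranspose]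
    simp only [Matrix.mul_assoc]
  have e2 : (Matrix.trace (S * Sᴴ * (S * Tᴴ)ᴴ)).re = (Matrix.trace (S * Sᴴ * S * Tᴴ)).re := by
    have f1 : (Matrix.trace (S * Sᴴ * (S * Tᴴ)ᴴ)) = star (Matrix.trace (S * Sᴴ * S * Tᴴ)) := by
      rw [← Matrix.trace_conjTranspose]
      have g1 : (S * Sᴴ * S * Tᴴ)ᴴ = T * (Sᴴ * (S * Sᴴ)) := by
        simp only [Matrix.conjTranspose_mul, Matrix.conjTranspose_conjTranspose]
      rw [g1, Matrix.conjTranspose_mul, Matrix.conjTranspose_conjTranspose]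
      rw [Matrix.trace_mul_comm (S * Sᴴ) (T * Sᴴ), Matrix.mul_assoc]
    rw [f1]
    exact Complex.conj_re _
  rw [e1, e2]
  ring

private theorem hd_N (S T : Matrix (Fin m) (Fin m) ℂ) :
    HasDerivAt (fun t : ℝ => ∑ i, ∑ k, Complex.normSq (((S + (t : ℂ) • T) * (S + (t : ℂ) • T)ᴴ) i k))
      (4 * ∑ i, ∑ j, ((S * Sᴴ * S) i j * star (T i j)).re) 0 := by
  have h : HasDerivAt (fun t : ℝ => ∑ i, ∑ k, Complex.normSq ((S * Sᴴ) i k + (t : ℂ) * (T * Sᴴ + S * Tᴴ) i k +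
      (t : ℂ) ^ 2 * (T * Tᴴ) i k)) (∑ i, ∑ k, 2 * ((S * Sᴴ) i k * star ((T * Sᴴ + S * Tᴴ) i k)).re) 0 :=
    HasDerivAt.fun_sum (fun i _ => HasDerivAt.fun_sum (fun k _ => hd_normSq _ _ _))
  have e : (fun t : ℝ => ∑ i, ∑ k, Complex.normSq (((S + (t : ℂ) • T) * (S + (t : ℂ) • T)ᴴ) i k)) =
      (fun t : ℝ => ∑ i, ∑ k, Complex.normSq ((S * Sᴴ) i k + (t : ℂ) * (T * Sᴴ + S * Tᴴ) i k +
      (t : ℂ) ^ 2 * (T * Tᴴ) i k)) := by
    funext t
    refine Finset.sum_congr rfl (fun i _ => Finset.sum_congr rfl (fun k _ => ?_))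
    congr 1
    have q : (S + (t : ℂ) • T)ᴴ = Sᴴ + (t : ℂ) • Tᴴ := by
      rw [Matrix.conjTranspose_add, Matrix.conjTranspose_smul]
      congr 2
      exact Complex.conj_ofReal t
    have r : (S + (t : ℂ) • T) * (S + (t : ℂ) • T)ᴴ = S * Sᴴ + (t : ℂ) • (T * Sᴴ + S * Tᴴ) + ((t : ℂ) ^ 2) • (T * Tᴴ) := by
      rw [q, Matrix.add_mul, Matrix.mul_add, Matrix.mul_add, Matrix.smul_mul, Matrix.smul_mul, Matrix.mul_smul,
        Matrix.mul_smul, smul_smul, smul_add, pow_two]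
      abel
    rw [r]
    simp only [Matrix.add_apply, Matrix.smul_apply, smul_eq_mul]
  rw [e]
  refine h.congr_deriv ?_
  have k : ∑ i, ∑ k, 2 * ((S * Sᴴ) i k * star ((T * Sᴴ + S * Tᴴ) i k)).re =
      2 * ∑ i, ∑ k, ((S * Sᴴ) i k * star ((T * Sᴴ + S * Tᴴ) i k)).re := by
    rw [Finset.mul_sum]
    refine Finset.sum_congr rfl (fun i _ => ?_)
    rw [Finset.mul_sum]
  rw [k, re_inner]
  ring

private theorem hd_wsq (y v : Ix p (Kx m) → ℝ) :
    HasDerivAt (fun t : ℝ => wsq (y + t • v)) (2 * ∑ i : Fin (p + 1), y (Sum.inl i) * v (Sum.inl i)) 0 := by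
  have h : HasDerivAt (fun t : ℝ => ∑ i : Fin (p + 1), (y (Sum.inl i) + t * v (Sum.inl i) + t ^ 2 * 0) ^ 2)
      (∑ i : Fin (p + 1), 2 * (y (Sum.inl i) * v (Sum.inl i))) 0 :=
    HasDerivAt.fun_sum (fun i _ => hd_sq _ _ _)
  have e : (fun t : ℝ => wsq (y + t • v)) =
      (fun t : ℝ => ∑ i : Fin (p + 1), (y (Sum.inl i) + t * v (Sum.inl i) + t ^ 2 * 0) ^ 2) := by
    funext t
    unfold wsq
    refine Finset.sum_congr rfl (fun i _ => ?_)
    rw [Pi.add_apply, Pi.smul_apply, smul_eq_mul, mul_zero, add_zero]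
  rw [e]
  refine h.congr_deriv ?_
  rw [Finset.mul_sum]

private theorem hd_ssq (y v : Ix p (Kx m) → ℝ) :
    HasDerivAt (fun t : ℝ => ssq (y + t • v)) (2 * ∑ k : Kx m, y (Sum.inr k) * v (Sum.inr k)) 0 := by
  have h : HasDerivAt (fun t : ℝ => ∑ k : Kx m, (y (Sum.inr k) + t * v (Sum.inr k) + t ^ 2 * 0) ^ 2)
      (∑ k : Kx m, 2 * (y (Sum.inr k) * v (Sum.inr k))) 0 :=
    HasDerivAt.fun_sum (fun k _ => hd_sq _ _ _)
  have e : (fun t : ℝ => ssq (y + t • v)) =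
      (fun t : ℝ => ∑ k : Kx m, (y (Sum.inr k) + t * v (Sum.inr k) + t ^ 2 * 0) ^ 2) := by
    funext t
    unfold ssq
    refine Finset.sum_congr rfl (fun k _ => ?_)
    rw [Pi.add_apply, Pi.smul_apply, smul_eq_mul, mul_zero, add_zero]
  rw [e]
  refine h.congr_deriv ?_
  rw [Finset.mul_sum]

private theorem qf_line {ι : Type} [Fintype ι] (A : Matrix ι ι ℝ) (hA : ∀ i j, A i j = A j i) (y v : ι → ℝ) (t : ℝ) :
    qf A (y + t • v) = qf A y + t * (2 * bf A y v) + t ^ 2 * qf A v := by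
  have hs : ∑ i, ∑ j, A i j * v i * y j = ∑ i, ∑ j, A i j * y i * v j := by
    rw [Finset.sum_comm]
    refine Finset.sum_congr rfl (fun i _ => Finset.sum_congr rfl (fun j _ => ?_))
    rw [hA j i]
    ring
  have key : qf A (y + t • v) = qf A y + t * (∑ i, ∑ j, A i j * v i * y j) + t * (∑ i, ∑ j, A i j * y i * v j) +
      t ^ 2 * qf A v := by
    unfold qf
    simp only [Finset.mul_sum, ← Finset.sum_add_distrib]
    refine Finset.sum_congr rfl (fun i _ => Finset.sum_congr rfl (fun j _ => ?_))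
    rw [Pi.add_apply, Pi.add_apply, Pi.smul_apply, Pi.smul_apply, smul_eq_mul, smul_eq_mul]
    simp only [Algebra.algebraMap_self, RingHom.id_apply]
    ring
  rw [key, hs]
  unfold bf
  ring

private theorem deriv_left (y v : Ix p (Kx m) → ℝ) :
    HasDerivAt (fun t : ℝ => hh (y + t • v)) (dh y v) 0 := by
  have h : HasDerivAt (fun t : ℝ => ∑ l, (qf (GG p m l) y + t * (2 * bf (GG p m l) y v) + t ^ 2 * qf (GG p m l) v) ^ 2)
      (∑ l, 2 * (qf (GG p m l) y * (2 * bf (GG p m l) y v))) 0 :=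
    HasDerivAt.fun_sum (fun l _ => hd_sq _ _ _)
  have e : (fun t : ℝ => hh (y + t • v)) =
      (fun t : ℝ => ∑ l, (qf (GG p m l) y + t * (2 * bf (GG p m l) y v) + t ^ 2 * qf (GG p m l) v) ^ 2) := by
    funext t
    unfold hh
    refine Finset.sum_congr rfl (fun l _ => ?_)
    rw [qf_line _ (GG_symm l)]
  rw [e]
  refine h.congr_deriv ?_
  unfold dh dG
  refine Finset.sum_congr rfl (fun l _ => ?_)
  ring

private theorem deriv_right (y v : Ix p (Kx m) → ℝ) :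
    HasDerivAt (fun t : ℝ => hh (y + t • v)) (2 * ssq y * (∑ i : Fin (p + 1), y (Sum.inl i) * v (Sum.inl i)) +
      2 * ((wsq y + ssq y) * ∑ i, ∑ j, (Sm y i j * star (Sm v i j)).re -
        ∑ i, ∑ j, ((Sm y * (Sm y)ᴴ * Sm y) i j * star (Sm v i j)).re)) 0 := by
  have hw := hd_wsq y v
  have hs := hd_ssq y v
  have hn := hd_N (Sm y) (Sm v)
  have e : (fun t : ℝ => hh (y + t • v)) = (fun t : ℝ => wsq (y + t • v) * ssq (y + t • v) +
      (ssq (y + t • v) ^ 2 - ∑ i, ∑ k, Complex.normSq (((Sm y + (t : ℂ) • Sm v) * (Sm y + (t : ℂ) • Sm v)ᴴ) i k)) / 2) := by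
    funext t
    rw [hh_eq, Sm_add, Sm_smul]
  rw [e]
  have h := (hw.fun_mul hs).fun_add (((hs.fun_pow 2).fun_sub hn).div_const 2)
  refine h.congr_deriv ?_
  have z : y + (0 : ℝ) • v = y := by rw [zero_smul, add_zero]
  rw [inner_Sm]
  simp only [z]
  norm_num
  ring

theorem dh_eq (y v : Ix p (Kx m) → ℝ) : dh y v = 2 * ssq y * (∑ i : Fin (p + 1), y (Sum.inl i) * v (Sum.inl i)) +
    2 * ∑ i, ∑ j, (((((wsq y + ssq y : ℝ) : ℂ) • Sm y - Sm y * (Sm y)ᴴ * Sm y) i j) * star (Sm v i j)).re := by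
  rw [(deriv_left y v).unique (deriv_right y v)]
  congr 2
  rw [Finset.mul_sum, ← Finset.sum_sub_distrib]
  refine Finset.sum_congr rfl (fun i _ => ?_)
  rw [Finset.mul_sum, ← Finset.sum_sub_distrib]
  refine Finset.sum_congr rfl (fun j _ => ?_)
  have q1 : (((((wsq y + ssq y : ℝ) : ℂ) • Sm y - Sm y * (Sm y)ᴴ * Sm y) i j) * star (Sm v i j)) =
      ((wsq y + ssq y : ℝ) : ℂ) * (Sm y i j * star (Sm v i j)) - (Sm y * (Sm y)ᴴ * Sm y) i j * star (Sm v i j) := by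
    rw [Matrix.sub_apply, Matrix.smul_apply, smul_eq_mul]
    ring
  rw [q1, Complex.sub_re, Complex.re_ofReal_mul]

end Pool.Agent.Helper6.BP
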