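import Pool.Agent.Helper6.BP.MfdA
import Pool.Agent.Helper72.BP.O.Tube

/-!
PROJECT BP, block V, module BP-V25: the base section and `M` near the section over `q`.

PROOF. `S0_mem`: `tube_identR` (Helper72/BP/O/Tube.lean) with `γ = 1`, `W = 0` (`Near δ 1 0`), `R = ℝ`; `act 1 y = y`; so `Ffun G ε y (tR G ε 1 0 y) = 0`. (`isTube` is an instance of the hypothesis.)
`S0_tpp`: `cay 0 = 1`, `act 1 u = u`, `uR` is `0` on the last coordinates.
`q_mem`: `y = q z`, `nsq y = 1` (`nsq_qq`, `z ∈ Sph m`), `g(y) = 0` (`IsTube.g_q`): `S0_mem`; `sY = ssq (q z) = nsq - wsq = 1`; `tpp = 0`: in `M2`.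
`q_near`: `|sY x' - sY x| ≤ card (Kx m) * dist x' x`; take `ρ = 1 / (2 (card (Kx m) + 1))`: `sY x' > 1/2`, so `x' ∈ M` is in `M2`.
-/

set_option autoImplicit false

namespace Pool.Agent.Helper6.BP

open Pool.Agent.Helper72.BP Pool.Agent.Helper79.BP
open Matrix

variable {p m : ℕ}

theorem S0_mem {m' r : ℕ} {κ : Type} [Fintype κ] [DecidableEq κ] (G : Fin r → Matrix (Ix p κ) (Ix p κ) ℝ)
    (q : (Fin m' → ℂ) → Ix p κ → ℝ) (ε : ℝ) (hT : IsTube G q ε) (y : Ix p κ → ℝ) (hy : nsq y = 1)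
    (hg : ∀ l, qf (G l) y = 0) : S0 G ε y ∈ Vt G ε := by
  obtain ⟨δ, hδ, h⟩ := tube_identR G q ε hT
  have h1 := h 1 0 ⟨fun i j => by rw [sub_self, abs_zero]; exact hδ,
    fun i j => by rw [Matrix.zero_apply, abs_zero]; exact hδ, by rw [Matrix.transpose_zero, neg_zero]⟩ ℝ y hg
  rw [act_one] at h1
  exact ⟨hy, h1⟩

theorem S0_tpp {r : ℕ} {κ : Type} [Fintype κ] [DecidableEq κ] (G : Fin r → Matrix (Ix p κ) (Ix p κ) ℝ)
    (ε : ℝ) (y : Ix p κ → ℝ) (s : Fin r ⊕ Fin p) : (S0 G ε y).2 (Sum.inr s) = 0 := by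
  have h0 : cay (0 : Matrix (Tx p r κ) (Tx p r κ) ℝ) = 1 := by
    unfold cay
    rw [sub_zero, add_zero, inv_one, mul_one]
  show act (cay 0) (uR G ε 1 y) (Sum.inr s) = 0
  rw [h0, act_one]
  rfl

private theorem isma_sY (ε : ℝ) (z : Fin m → ℂ) (hz : z ∈ Sph m) :
    sY (emb (S0 (GG p m) ε (qq p m z))) = 1 := by
  have h1 : nsq (qq p m z) = 1 := by
    rw [nsq_qq]
    have h2 : (∑ a, ‖z a‖ ^ 2) = 1 := hz
    rw [h2, one_pow]
  have h3 : wsq (qq p m z) = 0 := by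
    unfold wsq qq
    refine Finset.sum_eq_zero fun i _ => ?_
    rw [Sum.elim_inl]
    norm_num
  have h4 : sY (emb (S0 (GG p m) ε (qq p m z))) = ssq (qq p m z) := by
    unfold sY ssq
    refine Finset.sum_congr rfl fun k _ => ?_
    rw [pow_two]
    rfl
  rw [h4, ← h1, nsq_eq, h3, zero_add]

theorem q_mem_MM (ε : ℝ) (h0 : 0 < ε) (h1 : ε < 1 / 4) (z : Fin m → ℂ) (hz : z ∈ Sph m) :
    emb (S0 (GG p m) ε (qq p m z)) ∈ M2 p m ε := by
  have hT : IsTube (GG p m) (qq p m) ε := isTube ε h0 h1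
  have h2 : nsq (qq p m z) = 1 := by
    rw [nsq_qq]
    have h3 : (∑ a, ‖z a‖ ^ 2) = 1 := hz
    rw [h3, one_pow]
  refine ⟨⟨_, S0_mem (GG p m) (qq p m) ε hT _ h2 (fun l => hT.g_q l z), rfl⟩, ?_, ?_⟩
  · rw [isma_sY ε z hz]
    norm_num
  · intro j
    exact S0_tpp (GG p m) ε (qq p m z) (Sum.inr j)

theorem sY_dist {τ : Type} [Fintype τ] (x x' : Amb (Ix p (Kx m)) τ → ℝ) :
    |sY x - sY x'| ≤ Fintype.card (Kx m) * dist x x' := by
  unfold sY
  rw [← Finset.sum_sub_distrib]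
  refine (Finset.abs_sum_le_sum_abs _ _).trans ?_
  have h1 : ∀ k ∈ (Finset.univ : Finset (Kx m)),
      |x (Sum.inl (Sum.inr k, Sum.inr k)) - x' (Sum.inl (Sum.inr k, Sum.inr k))| ≤ dist x x' := by
    intro k _
    rw [← Real.dist_eq]
    exact dist_le_pi_dist x x' _
  refine (Finset.sum_le_sum h1).trans ?_
  rw [Finset.sum_const, Finset.card_univ, nsmul_eq_mul]

theorem q_near_MM (hp : 0 < p) (ε : ℝ) (h0 : 0 < ε) (h1 : ε < 1 / 4) : ∃ ρ > 0, ∀ x ∈ MM p m ε, ∀ z ∈ Sph m,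
    dist x (emb (S0 (GG p m) ε (qq p m z))) < ρ → x (Sum.inr (Sum.inr (Sum.inr ⟨0, hp⟩))) = 0 := by
  have hc : (0 : ℝ) ≤ (Fintype.card (Kx m) : ℝ) := Nat.cast_nonneg _
  refine ⟨1 / (2 * ((Fintype.card (Kx m) : ℝ) + 1)), by positivity, ?_⟩
  intro x hx z hz hd
  rcases hx with hx | hx
  · exfalso
    have h2 := sY_dist x (emb (S0 (GG p m) ε (qq p m z)))
    rw [isma_sY ε z hz] at h2
    have h3 : (Fintype.card (Kx m) : ℝ) * dist x (emb (S0 (GG p m) ε (qq p m z))) ≤ 1 / 2 := by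
      have h4 : (Fintype.card (Kx m) : ℝ) * dist x (emb (S0 (GG p m) ε (qq p m z))) ≤
          (Fintype.card (Kx m) : ℝ) * (1 / (2 * ((Fintype.card (Kx m) : ℝ) + 1))) :=
        mul_le_mul_of_nonneg_left hd.le hc
      refine h4.trans ?_
      rw [mul_one_div, div_le_div_iff₀ (by positivity) (by norm_num)]
      linarith
    have h5 := (abs_le.1 (h2.trans h3)).1
    have h6 := hx.2.1
    linarith
  · exact hx.2.2 ⟨0, hp⟩

end Pool.Agent.Helper6.BP
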