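import Pool.Agent.Helper6.BP.IsMA

/-!
PROJECT BP, block V, module BP-V26: `M` near the base point; `IsM`.

PROOF. `Lam_emb`: `Lam aa j (emb x) = ∑_b y_b y_0 λ_j b = y_0 (λ_j·y)`, `y = x.1`, `y_0 = y (inl 0)`.
`e_near`: at the base point `y = inc e0`: `sY = ssq (inc e0) = 0` and `Y_(0,0) = 1`; for `x' ∈ V` at distance `< ρ = 1 / (2 (card (Kx m) + 1))`: `sY x' < 1/2` (`sY_dist`), `Y'_(0,0) > 0`; `x' = emb (y', t')`: `y'_0 ≠ 0`; `x' ∈ M` iff
`x' ∈ M1` iff `λ_j·y' = 0` for all `j` (`Yl_zero_iff`) iff `Lam aa j x' = 0` for all `j`.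
`e_only`: `emb (S0 (inc x)) ∈ M`: `ssq (inc x) = 0`, so it is in `M1`, and `λ_j·(inc x) = x_(j+1) = 0` for all `j` (`Yl_zero_iff`), `x_0² = nsq x = 1`.
`isM_MM`: `compact_M1`, `compact_M2`, `q_mem_MM`, `q_near_MM` and the above.
-/

set_option autoImplicit false

namespace Pool.Agent.Helper6.BP

open Pool.Agent.Helper72.BP Pool.Agent.Helper79.BP
open Matrix

variable {p m : ℕ}

theorem Lam_emb {τ : Type} [Fintype τ] (x : (Ix p (Kx m) → ℝ) × (τ → ℝ)) (j : Fin p) :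
    Lam (fun j => aa j) j (emb x) = x.1 (Sum.inl 0) * dotProduct (lam j) x.1 := by
  rw [dot_lam, ff_Sm, mul_add, Finset.mul_sum]
  unfold Lam
  simp only [emb, Sum.elim_inl]
  rw [mul_comm (x.1 (Sum.inl j.succ))]
  congr 1
  refine Finset.sum_congr rfl fun k _ => ?_
  ring

private theorem ismb_ssq (x : Fin (p + 1) → ℝ) : ssq (inc x : Ix p (Kx m) → ℝ) = 0 := by
  unfold ssq inc
  refine Finset.sum_eq_zero fun k _ => ?_
  rw [Sum.elim_inr]
  norm_num

private theorem ismb_sY (ε : ℝ) (x : Fin (p + 1) → ℝ) : sY (emb (S0 (GG p m) ε (inc x))) = 0 := by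
  rw [sY_emb]
  exact ismb_ssq x

theorem e_near_MM (ε : ℝ) : ∃ ρ > 0, ∀ x ∈ VV p m ε, dist x (emb (S0 (GG p m) ε (inc e0))) < ρ →
    (x ∈ MM p m ε ↔ ∀ j, Lam (fun j => aa j) j x = 0) := by
  have hc : (0 : ℝ) ≤ (Fintype.card (Kx m) : ℝ) := Nat.cast_nonneg _
  refine ⟨1 / (2 * ((Fintype.card (Kx m) : ℝ) + 1)), by positivity, ?_⟩
  intro x hx hd
  have h2 : sY x < 1 / 2 := by
    have h3 := sY_dist x (emb (S0 (GG p m) ε (inc e0)))
    rw [ismb_sY ε e0, sub_zero] at h3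
    have h4 : (Fintype.card (Kx m) : ℝ) * dist x (emb (S0 (GG p m) ε (inc e0))) < 1 / 2 := by
      have h5 : (Fintype.card (Kx m) : ℝ) * dist x (emb (S0 (GG p m) ε (inc e0))) ≤
          (Fintype.card (Kx m) : ℝ) * (1 / (2 * ((Fintype.card (Kx m) : ℝ) + 1))) :=
        mul_le_mul_of_nonneg_left hd.le hc
      refine h5.trans_lt ?_
      rw [mul_one_div, div_lt_div_iff₀ (by positivity) (by norm_num)]
      linarith
    exact (le_abs_self _).trans_lt (h3.trans_lt h4)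
  have h3 : 0 < x (Sum.inl (Sum.inl 0, Sum.inl 0)) := by
    have h4 : dist (x (Sum.inl (Sum.inl 0, Sum.inl 0)))
        (emb (S0 (GG p m) ε (inc e0)) (Sum.inl (Sum.inl 0, Sum.inl 0))) ≤
        dist x (emb (S0 (GG p m) ε (inc e0))) := dist_le_pi_dist _ _ _
    have h5 : emb (S0 (GG p m) ε (inc e0)) (Sum.inl (Sum.inl 0, Sum.inl 0)) = 1 := by
      show (e0 : Fin (p + 1) → ℝ) 0 * (e0 : Fin (p + 1) → ℝ) 0 = 1
      unfold e0
      norm_num
    have h6 : 1 / (2 * ((Fintype.card (Kx m) : ℝ) + 1)) ≤ 1 / 2 := by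
      apply one_div_le_one_div_of_le (by norm_num)
      linarith
    rw [h5, Real.dist_eq] at h4
    have h7 := (abs_le.1 h4).1
    linarith
  obtain ⟨y, hy, rfl⟩ := hx
  have h4 : y.1 (Sum.inl 0) ≠ 0 := by
    intro h5
    have h6 : (0 : ℝ) < y.1 (Sum.inl 0) * y.1 (Sum.inl 0) := h3
    rw [h5, mul_zero] at h6
    exact lt_irrefl _ h6
  have h5 : emb y ∈ MM p m ε ↔ ∀ j i, Yl (emb y) j i = 0 := by
    constructor
    · rintro (h | h)
      · exact h.2.2
      · exact absurd h.2.1 (not_lt.2 h2.le)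
    · intro h
      exact Or.inl ⟨⟨y, hy, rfl⟩, h2, h⟩
  rw [h5, Yl_zero_iff y hy.1]
  refine forall_congr' fun j => ?_
  rw [Lam_emb, mul_eq_zero]
  exact ⟨Or.inr, fun h => h.resolve_left h4⟩

theorem e_only_MM (ε : ℝ) (x : Fin (p + 1) → ℝ) (hx : nsq x = 1) (h : emb (S0 (GG p m) ε (inc x)) ∈ MM p m ε) :
    x = e0 ∨ x = -e0 := by
  have hn : nsq (inc x : Ix p (Kx m) → ℝ) = 1 := by
    have h2 : wsq (inc x : Ix p (Kx m) → ℝ) = nsq x := rfl
    rw [nsq_eq, ismb_ssq, h2, hx, add_zero]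
  have h1 : ∀ j i, Yl (emb (S0 (GG p m) ε (inc x))) j i = 0 := by
    rcases h with h | h
    · exact h.2.2
    · exfalso
      have h2 := h.2.1
      rw [ismb_sY] at h2
      norm_num at h2
  have h2 := (Yl_zero_iff (S0 (GG p m) ε (inc x)) hn).1 h1
  have h3 : ∀ j : Fin p, x j.succ = 0 := by
    intro j
    have h4 := h2 j
    rw [dot_lam, ff_Sm] at h4
    have h5 : ∑ k : Kx m, aa j k * (S0 (GG p m) ε (inc x)).1 (Sum.inr k) = 0 := by
      refine Finset.sum_eq_zero fun k _ => ?_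
      show aa j k * (0 : ℝ) = 0
      rw [mul_zero]
    rw [h5, add_zero] at h4
    exact h4
  have h4 : x 0 ^ 2 = 1 := by
    have h5 : nsq x = ∑ i, x i ^ 2 := rfl
    rw [h5, Fin.sum_univ_succ] at hx
    have h6 : ∑ i : Fin p, x i.succ ^ 2 = 0 := by
      refine Finset.sum_eq_zero fun i _ => ?_
      rw [h3 i]
      norm_num
    rw [h6, add_zero] at hx
    exact hx
  have h5 : (x 0 - 1) * (x 0 + 1) = 0 := by linear_combination h4
  rcases mul_eq_zero.1 h5 with h6 | h6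
  · left
    funext i
    refine Fin.cases ?_ (fun j => ?_) i
    · show x 0 = if (0 : Fin (p + 1)) = 0 then 1 else 0
      rw [if_pos rfl]
      linarith
    · rw [h3 j]
      show (0 : ℝ) = if j.succ = 0 then 1 else 0
      rw [if_neg (Fin.succ_ne_zero j)]
  · right
    funext i
    refine Fin.cases ?_ (fun j => ?_) i
    · show x 0 = -(if (0 : Fin (p + 1)) = 0 then 1 else 0)
      rw [if_pos rfl]
      linarith
    · rw [h3 j]
      show (0 : ℝ) = -(if j.succ = 0 then 1 else 0)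
      rw [if_neg (Fin.succ_ne_zero j), neg_zero]

theorem isM_MM (hp : 0 < p) (ε : ℝ) (h0 : 0 < ε) (h1 : ε < 1 / 4) :
    IsM hp (GG p m) (qq p m) ε (fun j => aa j) (MM p m ε) where
  compact := (compact_M1 ε h1).union (compact_M2 ε h1)
  sub := by
    rintro x (hx | hx)
    · exact hx.1
    · exact hx.1
  q_mem := fun z hz => Or.inr (q_mem_MM ε h0 h1 z hz)
  q_near := q_near_MM hp ε h0 h1
  e_near := e_near_MM ε
  e_only := fun x hx h => e_only_MM ε x hx h

end Pool.Agent.Helper6.BP
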