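import Pool.Agent.Helper6.BP.LocDefs

/-!
PROJECT BP, block V, module BP-V14: the local equations cut out `NG`.

PROOF. `card_LI`: `(n-1)² + (n-1) + 2 + q + (n + k - 2 - q) = n² + k`, `n = card ι ≥ 1` (`Fintype.card_subtype_compl` / `Fintype.card_ne`..).
`PP_zero`: `x = emb (y, t)`, `nsq y = 1`, `Ffun G ε y t = 0`: direct (`qf (G l) y = ∑ G_l ij y_i y_j`).
`PP_local`: let `c = Y_jj > 0`, `y_a = Y_aj / √c`. For `a, b ≠ j` the equation gives `Y_ab = Y_aj Y_jb / c = y_a y_b` (`Y_jb = Y_bj`); for `b = j`: `y_a y_j = Y_aj c / c`; for `a = j`: `Y_jb = Y_bj`. So `Y = y yᵀ`;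
the trace gives `nsq y = 1`, the next one `Ffun G ε y t = 0`, and `(Y L_k)_i = y_i (y·L_k)`, `y_j (y·L_k) = 0`, `y_j ≠ 0`.
-/

set_option autoImplicit false
set_option linter.unusedSectionVars false

namespace Pool.Agent.Helper6.BP

open Pool.Agent.Helper72.BP Pool.Agent.Helper79.BP
open MvPolynomial

variable {ι τ : Type} [Fintype ι] [Fintype τ] [DecidableEq ι] {r q d : ℕ} (G : Fin r → Matrix ι ι ℝ) (ε : ℝ)
  (L : Fin q → ι → ℝ) (j : ι)

theorem card_LI (hd : d + q + 2 = Fintype.card ι + Fintype.card τ) :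
    Fintype.card (LI ι j q) + d = Fintype.card (Amb ι τ) := by
  have hn : Fintype.card {a : ι // a ≠ j} + 1 = Fintype.card ι := by
    have h1 : Fintype.card {a : ι // a ≠ j} = Fintype.card ι - 1 := by
      rw [Fintype.card_subtype_compl (fun a => a = j), Fintype.card_subtype_eq]
    have h2 : 0 < Fintype.card ι := Fintype.card_pos_iff.2 ⟨j⟩
    omega
  have h3 : Fintype.card (LI ι j q) = Fintype.card {a : ι // a ≠ j} * Fintype.card {a : ι // a ≠ j} +
      (Fintype.card {a : ι // a ≠ j} + (2 + q)) := by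
    simp only [LI, Fintype.card_sum, Fintype.card_prod, Fintype.card_bool, Fintype.card_fin]
  have h4 : Fintype.card (Amb ι τ) = Fintype.card ι * Fintype.card ι + Fintype.card τ := by
    simp only [Amb, Fintype.card_sum, Fintype.card_prod]
  rw [h3, h4, ← hn]
  rw [← hn] at hd
  nlinarith [hd]

theorem PP_zero (i : LI ι j q) (x : Amb ι τ → ℝ) (hx : x ∈ NG G ε L) : eval x (PP G ε L j i) = 0 := by
  obtain ⟨⟨z, ⟨hz1, hz2⟩, rfl⟩, hL⟩ := hx
  have he : ∀ a b, emb z (Sum.inl (a, b)) = z.1 a * z.1 b := fun a b => rfl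
  have het : ∀ s, emb z (Sum.inr s) = z.2 s := fun s => rfl
  rcases i with ⟨a, b⟩ | a | (b | k)
  · simp only [PP, map_sub, map_mul, eval_X, he]
    ring
  · simp only [PP, map_sub, eval_X, he]
    ring
  · cases b with
    | false =>
      simp only [PP, map_sub, map_sum, eval_X, map_one, he]
      have : ∑ a, z.1 a * z.1 a = 1 := by
        rw [← hz1]
        unfold nsq
        exact Finset.sum_congr rfl (fun a _ => by ring)
      rw [this, sub_self]
    | true =>
      simp only [PP, map_sub, map_add, map_sum, map_mul, map_pow, eval_X, eval_C, he, het]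
      unfold Ffun at hz2
      rw [hz1] at hz2
      have h1 : ∀ l, qf (G l) z.1 = ∑ a, ∑ b, G l a b * (z.1 a * z.1 b) := by
        intro l
        unfold qf
        refine Finset.sum_congr rfl (fun a _ => Finset.sum_congr rfl (fun b _ => ?_))
        rw [Algebra.algebraMap_self_apply]
        ring
      simp only [h1, Algebra.algebraMap_self_apply, one_pow, mul_one] at hz2
      unfold nsq at hz2
      exact hz2
  · simp only [PP, map_sum, map_mul, eval_X, eval_C]
    exact hL k j

theorem PP_local (x : Amb ι τ → ℝ) (hj : 0 < x (Sum.inl (j, j))) (h : ∀ i, eval x (PP G ε L j i) = 0) :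
    x ∈ NG G ε L := by
  obtain ⟨c, hc⟩ : ∃ c, c = x (Sum.inl (j, j)) := ⟨_, rfl⟩
  rw [← hc] at hj
  have hs : Real.sqrt c * Real.sqrt c = c := Real.mul_self_sqrt hj.le
  have hs0 : Real.sqrt c ≠ 0 := (Real.sqrt_pos.2 hj).ne'
  have hsym : ∀ a, x (Sum.inl (a, j)) = x (Sum.inl (j, a)) := by
    intro a
    by_cases ha : a = j
    · rw [ha]
    · have := h (Sum.inr (Sum.inl ⟨a, ha⟩))
      simp only [PP, map_sub, eval_X] at this
      linarith
  have hY : ∀ a b, x (Sum.inl (a, b)) = (x (Sum.inl (a, j)) / Real.sqrt c) * (x (Sum.inl (b, j)) / Real.sqrt c) := by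
    intro a b
    have h1 : x (Sum.inl (a, b)) * c = x (Sum.inl (a, j)) * x (Sum.inl (b, j)) := by
      by_cases hb : b = j
      · rw [hb, ← hc]
      · by_cases ha : a = j
        · rw [ha, ← hc, hsym b]
          ring
        · have := h (Sum.inl (⟨a, ha⟩, ⟨b, hb⟩))
          simp only [PP, map_sub, map_mul, eval_X] at this
          rw [hc, hsym b]
          linarith
    rw [div_mul_div_comm, hs, eq_div_iff hj.ne', h1]
  have hn1 : nsq (fun a => x (Sum.inl (a, j)) / Real.sqrt c) = 1 := by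
    have := h (Sum.inr (Sum.inr (Sum.inl false)))
    simp only [PP, map_sub, map_sum, eval_X, map_one] at this
    unfold nsq
    rw [← sub_eq_zero, ← this]
    congr 1
    refine Finset.sum_congr rfl (fun a _ => ?_)
    rw [hY a a]
    ring
  have hF : Ffun G ε (fun a => x (Sum.inl (a, j)) / Real.sqrt c) (fun s => x (Sum.inr s)) = 0 := by
    have := h (Sum.inr (Sum.inr (Sum.inl true)))
    simp only [PP, map_sub, map_add, map_sum, map_mul, map_pow, eval_X, eval_C] at this
    unfold Ffun
    rw [hn1]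
    have h1 : ∀ l, qf (G l) (fun a => x (Sum.inl (a, j)) / Real.sqrt c) = ∑ a, ∑ b, G l a b * x (Sum.inl (a, b)) := by
      intro l
      unfold qf
      refine Finset.sum_congr rfl (fun a _ => Finset.sum_congr rfl (fun b _ => ?_))
      rw [Algebra.algebraMap_self_apply, hY a b]
      ring
    simp only [h1, Algebra.algebraMap_self_apply, one_pow, mul_one]
    unfold nsq
    exact this
  refine ⟨⟨(fun a => x (Sum.inl (a, j)) / Real.sqrt c, fun s => x (Sum.inr s)), ⟨hn1, hF⟩, ?_⟩, ?_⟩
  · ext i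
    rcases i with ⟨a, b⟩ | s
    · exact (hY a b).symm
    · rfl
  · intro k i
    have h1 := h (Sum.inr (Sum.inr (Sum.inr k)))
    simp only [PP, map_sum, map_mul, eval_X, eval_C] at h1
    have h2 : ∑ b, x (Sum.inl (i, b)) * L k b = (x (Sum.inl (i, j)) / c) * ∑ b, x (Sum.inl (j, b)) * L k b := by
      rw [Finset.mul_sum]
      refine Finset.sum_congr rfl (fun b _ => ?_)
      rw [hY i b, ← hsym b, div_mul_div_comm, hs]
      ring
    rw [h2, h1, mul_zero]

end Pool.Agent.Helper6.BP
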