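import Pool.Agent.Helper6.BP.LocDefs

/-!
PROJECT BP, block V, module BP-V15: the derivatives of the local equations in the directions `tv y v u = (v yᵀ + y vᵀ, u)`.

PROOF. Use `pd_sub`, `pd_mul`, `pd_X`, `pd_sum`, `pd_sq`, `pd_C`, `pd_one` (file Pd.lean), by cases on `i`:
 `Y_ab Y_jj - Y_aj Y_jb`: `(v_a y_b + y_a v_b) y_j² + y_a y_b 2 y_j v_j - (v_a y_j + y_a v_j) y_j y_b - y_a y_j (v_j y_b + y_j v_b) = 0`; `Y_aj - Y_ja`: `0`; trace: `2 y·v = 0`;
 `∑ t_s² + ∑_l (∑_ab G_l ab Y_ab)² - ε`: `2 t·u + ∑_l 2 (qf (G l) y) ∑_ab G_l ab (v_a y_b + y_a v_b) = 2 t·u + ∑_l 4 (qf (G l) y) (bf (G l) y v)` as `G l` is symmetric (swap the two sums);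
 `(Y L_k)_j`: `∑_b (v_j y_b + y_j v_b) L_k b = v_j (L_k·y) + y_j (L_k·v)`.
-/

set_option autoImplicit false

namespace Pool.Agent.Helper6.BP

open Pool.Agent.Helper72.BP Pool.Agent.Helper79.BP
open MvPolynomial

variable {ι τ : Type} [Fintype ι] [Fintype τ] [DecidableEq ι] {r q d : ℕ} (G : Fin r → Matrix ι ι ℝ) (ε : ℝ)
  (L : Fin q → ι → ℝ) (j : ι)

variable (hG : ∀ l a b, G l a b = G l b a) (y : ι → ℝ) (t : τ → ℝ) (hy : nsq y = 1)
  (hL : ∀ k, dotProduct (L k) y = 0)

include hG hy hL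

theorem PP_tv (v : ι → ℝ) (u : τ → ℝ) (hv : dotProduct y v = 0) (i : LI ι j q) :
    pd (PP G ε L j i) (emb (y, t)) (tv y v u) = match i with
      | Sum.inl _ => 0
      | Sum.inr (Sum.inl _) => 0
      | Sum.inr (Sum.inr (Sum.inl false)) => 0
      | Sum.inr (Sum.inr (Sum.inl true)) => 2 * dotProduct t u + dG G y v
      | Sum.inr (Sum.inr (Sum.inr k)) => y j * dotProduct (L k) v := by
  classical
  have hE : ∀ a b, (emb (y, t) : Amb ι τ → ℝ) (Sum.inl (a, b)) = y a * y b := fun a b => rfl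
  have hE2 : ∀ s, (emb (y, t) : Amb ι τ → ℝ) (Sum.inr s) = t s := fun s => rfl
  have hT : ∀ a b, (tv y v u : Amb ι τ → ℝ) (Sum.inl (a, b)) = v a * y b + y a * v b := fun a b => rfl
  have hT2 : ∀ s, (tv y v u : Amb ι τ → ℝ) (Sum.inr s) = u s := fun s => rfl
  rcases i with ⟨a, b⟩ | a | (_ | _) | k
  · change pd (X (Sum.inl (a.1, b.1)) * X (Sum.inl (j, j)) - X (Sum.inl (a.1, j)) * X (Sum.inl (j, b.1)))
      (emb (y, t)) (tv y v u) = 0
    simp only [pd_sub, pd_mul, pd_X, eval_X, hE, hT]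
    ring
  · change pd (X (Sum.inl (a.1, j)) - X (Sum.inl (j, a.1))) (emb (y, t)) (tv y v u) = 0
    simp only [pd_sub, pd_X, hT]
    ring
  · change pd (∑ a, X (Sum.inl (a, a)) - 1) (emb (y, t)) (tv y v u) = 0
    rw [pd_sub, pd_one, pd_sum, sub_zero]
    simp only [pd_X, hT]
    have h2 : ∑ x, (v x * y x + y x * v x) = 2 * dotProduct y v := by
      unfold dotProduct
      rw [Finset.mul_sum]
      refine Finset.sum_congr rfl fun x _ => ?_
      ring
    rw [h2, hv, mul_zero]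
  · change pd (∑ s, X (Sum.inr s) ^ 2 + ∑ l, (∑ a, ∑ b, C (G l a b) * X (Sum.inl (a, b))) ^ 2 - C ε)
      (emb (y, t)) (tv y v u) = 2 * dotProduct t u + dG G y v
    rw [pd_sub, pd_C, pd_add, pd_sum, pd_sum, sub_zero]
    congr 1
    · unfold dotProduct
      rw [Finset.mul_sum]
      refine Finset.sum_congr rfl fun s _ => ?_
      rw [pd_sq, pd_X, eval_X, hE2, hT2]
      ring
    · unfold dG
      refine Finset.sum_congr rfl fun l _ => ?_
      rw [pd_sq]
      have h1 : eval (emb (y, t) : Amb ι τ → ℝ) (∑ a, ∑ b, C (G l a b) * X (Sum.inl (a, b))) = qf (G l) y := by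
        unfold qf
        rw [map_sum]
        refine Finset.sum_congr rfl fun a _ => ?_
        rw [map_sum]
        refine Finset.sum_congr rfl fun b _ => ?_
        rw [map_mul, eval_C, eval_X, hE, Algebra.algebraMap_self, RingHom.id_apply]
        ring
      have h2 : pd (∑ a, ∑ b, C (G l a b) * X (Sum.inl (a, b))) (emb (y, t) : Amb ι τ → ℝ) (tv y v u) =
          2 * bf (G l) y v := by
        have h3 : pd (∑ a, ∑ b, C (G l a b) * X (Sum.inl (a, b))) (emb (y, t) : Amb ι τ → ℝ) (tv y v u) =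
            ∑ a, ∑ b, (G l a b * v a * y b) + ∑ a, ∑ b, (G l a b * y a * v b) := by
          rw [pd_sum, ← Finset.sum_add_distrib]
          refine Finset.sum_congr rfl fun a _ => ?_
          rw [pd_sum, ← Finset.sum_add_distrib]
          refine Finset.sum_congr rfl fun b _ => ?_
          rw [pd_mul, pd_C, pd_X, eval_C, hT]
          ring
        have h4 : ∑ a, ∑ b, (G l a b * v a * y b) = ∑ a, ∑ b, (G l a b * y a * v b) := by
          rw [Finset.sum_comm]
          refine Finset.sum_congr rfl fun a _ => Finset.sum_congr rfl fun b _ => ?_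
          rw [hG l b a]
          ring
        rw [h3, h4]
        unfold bf
        ring
      rw [h1, h2]
      ring
  · change pd (∑ b, X (Sum.inl (j, b)) * C (L k b)) (emb (y, t)) (tv y v u) = y j * dotProduct (L k) v
    rw [pd_sum]
    have h1 : ∑ b, pd (X (Sum.inl (j, b)) * C (L k b)) (emb (y, t) : Amb ι τ → ℝ) (tv y v u) =
        v j * dotProduct (L k) y + y j * dotProduct (L k) v := by
      unfold dotProduct
      rw [Finset.mul_sum, Finset.mul_sum, ← Finset.sum_add_distrib]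
      refine Finset.sum_congr rfl fun b _ => ?_
      rw [pd_mul, pd_C, pd_X, eval_C, hT]
      ring
    rw [h1, hL k, mul_zero, zero_add]

end Pool.Agent.Helper6.BP
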