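import Pool.Agent.Helper6.BP.GeoA
import Pool.Agent.Helper6.BP.AlgV

/-!
PROJECT BP, block V, module BP-V22: the sets `M_1`, `M_2`, `N_2`: unions and compactness.

PROOF. `sY` is linear. On `V` `s ≠ 1/2` (`sY_ne`). So `M1 = NN ∩ {s ≤ 1/2}`, `N2 = NN ∩ {s ≥ 1/2}`, `M2 = V ∩ {s ≥ 1/2} ∩ {t'' = 0}` are closed subsets of the compact set `VV` (`isCompact_Vemb`, `isCompact_NG`, `NN_eq`, `IsCompact.inter_right`).
-/

set_option autoImplicit false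

namespace Pool.Agent.Helper6.BP

open Pool.Agent.Helper72.BP Pool.Agent.Helper79.BP
open Matrix

variable {p m : ℕ}

theorem continuous_sY {τ : Type} [Fintype τ] : Continuous (sY : (Amb (Ix p (Kx m)) τ → ℝ) → ℝ) := by
  unfold sY
  fun_prop

theorem NN_union (ε : ℝ) (h1 : ε < 1 / 4) : NN p m ε = M1 p m ε ∪ N2 p m ε := by
  ext x
  constructor
  · rintro ⟨hV, hY⟩
    rcases lt_or_gt_of_ne (sY_ne ε h1 x hV) with h | h
    · exact Or.inl ⟨hV, h, hY⟩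
    · exact Or.inr ⟨hV, h, hY⟩
  · rintro (⟨hV, _, hY⟩ | ⟨hV, _, hY⟩)
    · exact ⟨hV, hY⟩
    · exact ⟨hV, hY⟩

theorem disjoint_M1_M2 (ε : ℝ) : Disjoint (M1 p m ε) (M2 p m ε) := by
  rw [Set.disjoint_left]
  rintro x ⟨_, h1, _⟩ ⟨_, h2, _⟩
  exact absurd h1 (not_lt.2 h2.le)

theorem disjoint_M1_N2 (ε : ℝ) : Disjoint (M1 p m ε) (N2 p m ε) := by
  rw [Set.disjoint_left]
  rintro x ⟨_, h1, _⟩ ⟨_, h2, _⟩
  exact absurd h1 (not_lt.2 h2.le)

theorem compact_M1 (ε : ℝ) (h1 : ε < 1 / 4) : IsCompact (M1 p m ε) := by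
  have he : M1 p m ε = NN p m ε ∩ {x | sY x ≤ 1 / 2} := by
    ext x
    constructor
    · rintro ⟨hV, h, hY⟩
      exact ⟨⟨hV, hY⟩, h.le⟩
    · rintro ⟨⟨hV, hY⟩, h⟩
      exact ⟨hV, lt_of_le_of_ne h (sY_ne ε h1 x hV), hY⟩
  rw [he, NN_eq]
  exact (isCompact_NG (GG p m) ε lam).inter_right (isClosed_le continuous_sY continuous_const)

theorem compact_N2 (ε : ℝ) (h1 : ε < 1 / 4) : IsCompact (N2 p m ε) := by
  have he : N2 p m ε = NN p m ε ∩ {x | 1 / 2 ≤ sY x} := by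
    ext x
    constructor
    · rintro ⟨hV, h, hY⟩
      exact ⟨⟨hV, hY⟩, h.le⟩
    · rintro ⟨⟨hV, hY⟩, h⟩
      exact ⟨hV, lt_of_le_of_ne h (sY_ne ε h1 x hV).symm, hY⟩
  rw [he, NN_eq]
  exact (isCompact_NG (GG p m) ε lam).inter_right (isClosed_le continuous_const continuous_sY)

theorem compact_M2 (ε : ℝ) (h1 : ε < 1 / 4) : IsCompact (M2 p m ε) := by
  have he : M2 p m ε = (VV p m ε ∩ {x | 1 / 2 ≤ sY x}) ∩ ⋂ j : Fin p, {x | tpp x j = 0} := by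
    ext x
    constructor
    · rintro ⟨hV, h, hY⟩
      exact ⟨⟨hV, h.le⟩, Set.mem_iInter.2 fun j => hY j⟩
    · rintro ⟨⟨hV, h⟩, hY⟩
      exact ⟨hV, lt_of_le_of_ne h (sY_ne ε h1 x hV).symm, fun j => (Set.mem_iInter.1 hY j : _)⟩
  rw [he]
  refine IsCompact.inter_right (IsCompact.inter_right (isCompact_Vemb (GG p m) ε)
    (isClosed_le continuous_const continuous_sY)) (isClosed_iInter fun j => ?_)
  refine isClosed_eq ?_ continuous_const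
  unfold tpp
  fun_prop

end Pool.Agent.Helper6.BP
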