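import Pool.Agent.Helper6.BP.MfdA
import Pool.Agent.Helper6.BP.GeoB
import Pool.Agent.Helper79.BP.KitD

/-!
PROJECT BP, block V, module BP-V23: `M_1`, `M_2`, `N_2`, `M` are submanifolds.

PROOF. `M1 = NN ∩ {s < 1/2}`, `N2 = NN ∩ {s > 1/2}`: `IsCNV.isSubmfd` and `IsSubmfd.inter`. `tan_tpp`: `x = emb (y, t)`, `t'' = 0` (`tpp_emb`): `tv y 0 u`, `u = w` in the `t''`-coordinates and `0` elsewhere, is tangent to `V` by `tan_VV` (`t·u = 0`, `dh y 0 = 0`).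
`M2`: `IsSubmfd.zeros` (KitD) with `V` (`isCNV_VV`, `IsCNV.isSubmfd`), `O = {s > 1/2}`, `g x = tpp x` (linear, smooth; `fderiv ℝ g x v = tpp v`), `tan_tpp`. `MM = M1 ∪ M2`: `IsSubmfd.union_compact` (`compact_M1`, `compact_M2`, `disjoint_M1_M2`).
-/

set_option autoImplicit false

namespace Pool.Agent.Helper6.BP

open Pool.Agent.Helper72.BP Pool.Agent.Helper79.BP
open Matrix

variable {p m : ℕ}

theorem submfd_M1 (ε : ℝ) (hN : IsCNV (dd p m) (NN p m ε)) : IsSubmfd (dd p m) (M1 p m ε) := by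
  have h : M1 p m ε = NN p m ε ∩ {x | sY x < 1 / 2} := by
    ext x
    exact ⟨fun hx => ⟨⟨hx.1, hx.2.2⟩, hx.2.1⟩, fun hx => ⟨hx.1.1, hx.2, hx.1.2⟩⟩
  rw [h]
  exact hN.isSubmfd.inter (isOpen_lt continuous_sY continuous_const)

theorem submfd_N2 (ε : ℝ) (hN : IsCNV (dd p m) (NN p m ε)) : IsSubmfd (dd p m) (N2 p m ε) := by
  have h : N2 p m ε = NN p m ε ∩ {x | 1 / 2 < sY x} := by
    ext x
    exact ⟨fun hx => ⟨⟨hx.1, hx.2.2⟩, hx.2.1⟩, fun hx => ⟨hx.1.1, hx.2, hx.1.2⟩⟩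
  rw [h]
  exact hN.isSubmfd.inter (isOpen_lt continuous_const continuous_sY)

theorem tan_tpp (ε : ℝ) (h0 : 0 < ε) (h1 : ε < 1 / 4) (x : Amb (Ix p (Kx m)) (Tx p (rr p m) (Kx m)) → ℝ)
    (hx : x ∈ VV p m ε) (ht : ∀ j, tpp x j = 0) (w : Fin p → ℝ) :
    ∃ v, Tan (VV p m ε) x v ∧ ∀ j, tpp v j = w j := by
  obtain ⟨⟨y, t⟩, hyt, rfl⟩ := hx
  refine ⟨tv y 0 (Sum.elim (fun _ => 0) (Sum.elim (fun _ => 0) w)),
    tan_VV ε h0 h1 (y, t) hyt 0 (Sum.elim (fun _ => 0) (Sum.elim (fun _ => 0) w)) (by simp) ?_, fun j => rfl⟩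
  have h2 : ∀ j, t (Sum.inr (Sum.inr j)) = 0 := fun j => by
    have := ht j
    rwa [tpp_emb] at this
  have h3 : dh (p := p) (m := m) y 0 = 0 := by
    simp [dh, dG, bf]
  have h4 : dotProduct t (Sum.elim (fun _ => 0) (Sum.elim (fun _ => 0) w)) = 0 := by
    simp only [dotProduct, Fintype.sum_sum_type, Sum.elim_inl, Sum.elim_inr, mul_zero, Finset.sum_const_zero,
      zero_add]
    exact Finset.sum_eq_zero fun j _ => by rw [h2 j, zero_mul]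
  show 2 * dotProduct t _ + dh y 0 = 0
  rw [h3, h4]
  norm_num

theorem submfd_M2 (ε : ℝ) (h0 : 0 < ε) (h1 : ε < 1 / 4) : IsSubmfd (dd p m) (M2 p m ε) := by
  let T : (Amb (Ix p (Kx m)) (Tx p (rr p m) (Kx m)) → ℝ) →L[ℝ] (Fin p → ℝ) :=
    ContinuousLinearMap.pi fun j => ContinuousLinearMap.proj (Sum.inr (Sum.inr (Sum.inr j)))
  have hT : ∀ x, T x = fun j => tpp x j := fun x => rfl
  have h : M2 p m ε = {x | x ∈ VV p m ε ∧ x ∈ {x : Amb (Ix p (Kx m)) (Tx p (rr p m) (Kx m)) → ℝ | 1 / 2 < sY x} ∧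
      T x = 0} := by
    ext x
    constructor
    · rintro ⟨a, b, c⟩
      exact ⟨a, b, by rw [hT]; ext j; exact c j⟩
    · rintro ⟨a, b, c⟩
      exact ⟨a, b, fun j => congrFun c j⟩
  rw [h]
  refine IsSubmfd.zeros (isCNV_VV ε h0 h1).isSubmfd (isOpen_lt continuous_const continuous_sY)
    T.contDiff.contDiffOn ?_
  intro x hxV _ hx0 w
  obtain ⟨v, hv, hw⟩ := tan_tpp ε h0 h1 x hxV (fun j => congrFun hx0 j) w
  refine ⟨v, hv, ?_⟩
  rw [T.fderiv, hT]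
  ext j
  exact hw j


theorem submfd_MM (ε : ℝ) (h0 : 0 < ε) (h1 : ε < 1 / 4) (hN : IsCNV (dd p m) (NN p m ε)) :
    IsSubmfd (dd p m) (MM p m ε) :=
  (submfd_M1 ε hN).union_compact (submfd_M2 ε h0 h1) (compact_M1 ε h1) (compact_M2 ε h1) (disjoint_M1_M2 ε)

end Pool.Agent.Helper6.BP
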