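import Pool.Agent.Helper6.BP.Zero

/-!
PROJECT BP, block V, module BP-V11: `w_0 ≠ 0` on `M_1` for small `ε`, by compactness.

PROOF of `small1`. `K = {y | nsq y = 1, ssq y ≤ 1/2, λ_j·y = 0, y_(0) = 0}` is compact and `h > 0` on `K`: if `h(y) = 0` then by `hh_zero` `ssq y = 0` (in the other case
`ssq y = 1`, `nsq_eq`), so all `y_k = 0`, `Sm y = 0`, and `0 = λ_j·y = w_(j+1)` (`dot_lam`), `w_0 = 0`: `y = 0`, contradiction. A continuous positive function on a compact set is `≥ ε0 > 0`.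
-/

set_option autoImplicit false

namespace Pool.Agent.Helper6.BP

open Pool.Agent.Helper72.BP Pool.Agent.Helper79.BP
open Matrix

variable {p m : ℕ}

theorem continuous_hh (p m : ℕ) : Continuous (fun y : Ix p (Kx m) → ℝ => hh y) := by
  unfold hh qf
  fun_prop

theorem hh_nonneg' (y : Ix p (Kx m) → ℝ) : 0 ≤ hh y := by
  unfold hh
  exact Finset.sum_nonneg fun l _ => sq_nonneg _

theorem small1_isCompact (p m : ℕ) : IsCompact {y : Ix p (Kx m) → ℝ | nsq y = 1 ∧ ssq y ≤ 1 / 2 ∧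
    (∀ j, dotProduct (lam j) y = 0) ∧ y (Sum.inl 0) = 0} := by
  apply Metric.isCompact_of_isClosed_isBounded
  · have h1 : Continuous (fun y : Ix p (Kx m) → ℝ => nsq y) := by
      unfold nsq
      fun_prop
    have h2 : Continuous (fun y : Ix p (Kx m) → ℝ => ssq y) := by
      unfold ssq
      fun_prop
    have h3 : ∀ j, Continuous (fun y : Ix p (Kx m) → ℝ => dotProduct (lam j) y) := by
      intro j
      unfold dotProduct
      fun_prop
    have e : {y : Ix p (Kx m) → ℝ | nsq y = 1 ∧ ssq y ≤ 1 / 2 ∧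
        (∀ j, dotProduct (lam j) y = 0) ∧ y (Sum.inl 0) = 0} =
        {y : Ix p (Kx m) → ℝ | nsq y = 1} ∩ ({y : Ix p (Kx m) → ℝ | ssq y ≤ 1 / 2} ∩
        ((⋂ j, {y : Ix p (Kx m) → ℝ | dotProduct (lam j) y = 0}) ∩
          {y : Ix p (Kx m) → ℝ | y (Sum.inl 0) = 0})) := by
      ext y
      simp only [Set.mem_ofPred_eq, Set.mem_inter_iff, Set.mem_iInter]
    rw [e]
    refine (isClosed_eq h1 continuous_const).inter ((isClosed_le h2 continuous_const).inter
      ((isClosed_iInter fun j => isClosed_eq (h3 j) continuous_const).inter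
        (isClosed_eq (continuous_apply _) continuous_const)))
  · rw [isBounded_iff_forall_norm_le]
    refine ⟨1, ?_⟩
    intro y hy
    have hn : nsq y = 1 := hy.1
    rw [pi_norm_le_iff_of_nonneg zero_le_one]
    intro i
    have h1 : y i ^ 2 ≤ nsq y := by
      unfold nsq
      exact Finset.single_le_sum (f := fun i => y i ^ 2) (fun i _ => sq_nonneg _) (Finset.mem_univ i)
    rw [hn] at h1
    rw [Real.norm_eq_abs]
    exact abs_le_one_iff_mul_self_le_one.mpr (by nlinarith)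

theorem small1_pos (y : Ix p (Kx m) → ℝ) (hn : nsq y = 1) (hs : ssq y ≤ 1 / 2)
    (hl : ∀ j, dotProduct (lam j) y = 0) (h0 : y (Sum.inl 0) = 0) : 0 < hh y := by
  refine lt_of_le_of_ne (hh_nonneg' y) ?_
  intro hne
  have hz := hh_zero y hn hne.symm
  have hne2 := nsq_eq y
  rw [hn] at hne2
  rcases hz with hz | ⟨hw, -⟩
  · have hk : ∀ k : Kx m, y (Sum.inr k) = 0 := by
      intro k
      unfold ssq at hz
      have := (Finset.sum_eq_zero_iff_of_nonneg (fun k _ => sq_nonneg (y (Sum.inr k)))).mp hz k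
        (Finset.mem_univ k)
      exact pow_eq_zero_iff (two_ne_zero) |>.mp this
    have hw : ∀ i : Fin (p + 1), y (Sum.inl i) = 0 := by
      intro i
      refine Fin.cases h0 (fun j => ?_) i
      have h1 := dot_lam j y
      rw [hl j, ff_Sm] at h1
      have h2 : ∑ k : Kx m, aa j k * y (Sum.inr k) = 0 :=
        Finset.sum_eq_zero fun k _ => by rw [hk k, mul_zero]
      rw [h2, add_zero] at h1
      exact h1.symm
    have : wsq y = 0 := by
      unfold wsq
      exact Finset.sum_eq_zero fun i _ => by rw [hw i]; norm_num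
    rw [this, hz] at hne2
    norm_num at hne2
  · rw [hw] at hne2
    linarith

theorem small1 (p m : ℕ) : ∃ ε0 > 0, ∀ y : Ix p (Kx m) → ℝ, nsq y = 1 → ssq y ≤ 1 / 2 → hh y < ε0 →
    (∀ j, dotProduct (lam j) y = 0) → y (Sum.inl 0) ≠ 0 := by
  set K : Set (Ix p (Kx m) → ℝ) := {y : Ix p (Kx m) → ℝ | nsq y = 1 ∧ ssq y ≤ 1 / 2 ∧
    (∀ j, dotProduct (lam j) y = 0) ∧ y (Sum.inl 0) = 0} with hK
  by_cases hne : K.Nonempty
  · obtain ⟨y0, hy0, hmin⟩ := (small1_isCompact p m).exists_isMinOn hne (continuous_hh p m).continuousOn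
    refine ⟨hh y0, small1_pos y0 hy0.1 hy0.2.1 hy0.2.2.1 hy0.2.2.2, ?_⟩
    intro y hn hs hlt hl h0
    have := hmin (show y ∈ K from ⟨hn, hs, hl, h0⟩)
    simp only [Set.mem_ofPred_eq] at this
    linarith
  · refine ⟨1, one_pos, ?_⟩
    intro y hn hs _ hl h0
    exact hne ⟨y, hn, hs, hl, h0⟩

end Pool.Agent.Helper6.BP
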