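import Pool.Agent.Helper6.BP.Crit

/-!
PROJECT BP, block V, module BP-V7: `IsTube`.

PROOF. `symm`, `lin`: `GG_symm`, `GG_lin`. `g_q`: the forms `w_i y_k` vanish as `w = 0`; `S(q z) = z zᵀ` (`Sm_ofS`) and `z_i z_j z_k z_l - z_i z_l z_k z_j = 0`
(`qf_sp`, `Sm_re`, `Sm_im`, `Gm`). `q_cont`: `continuous_ofS`. `q_I`: `(i z)(i z)ᵀ = - z zᵀ`, `ofS` is linear. `q_norm`: `nsq_eq`, `sum_normSq_Sm`,
`∑ normSq (z_i z_j) = (∑ normSq z_i)²`. `reg`: if `∑ g² = ε` and the conclusion fails then `dh y v = 0` for all `v` with `y·v = 0`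
(`dh y v = 4 ∑_l g_l bf (G l) y v`), so by `crit` `ε = 0` or `ε ≥ 1/4`.
-/

set_option autoImplicit false

namespace Pool.Agent.Helper6.BP

open Pool.Agent.Helper72.BP Pool.Agent.Helper79.BP
open Matrix

variable {p m : ℕ}

theorem Sm_qq (z : Fin m → ℂ) : Sm (qq p m z) = vecMulVec z z := by
  refine Sm_ofS _ _ ?_
  ext i j
  rw [transpose_apply, vecMulVec_apply, vecMulVec_apply, mul_comm]

theorem nsq_qq (z : Fin m → ℂ) : nsq (qq p m z) = (∑ a, ‖z a‖ ^ 2) ^ 2 := by
  have hw : wsq (qq p m z) = 0 := Finset.sum_eq_zero fun i _ => by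
    change (0 : ℝ) ^ 2 = 0
    norm_num
  rw [nsq_eq, hw, zero_add, ← sum_normSq_Sm, Sm_qq, pow_two, Finset.sum_mul_sum]
  refine Finset.sum_congr rfl fun i _ => Finset.sum_congr rfl fun j _ => ?_
  rw [vecMulVec_apply, Complex.normSq_mul, Complex.normSq_eq_norm_sq, Complex.normSq_eq_norm_sq]

private theorem GG_qq (l : Fin (rr p m)) (z : Fin m → ℂ) : qf (GG p m l) (qq p m z) = 0 := by
  unfold GG
  generalize (Fintype.equivFin (Lx p m)).symm l = l'
  rcases l' with ⟨i, k⟩ | ⟨⟨⟨a, b⟩, ⟨c, d⟩⟩, e⟩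
  · rw [qf_Gm_inl]
    change (0 : ℝ) * _ = 0
    rw [zero_mul]
  · have h : Sm (qq p m z) a b * Sm (qq p m z) c d - Sm (qq p m z) a d * Sm (qq p m z) c b = 0 := by
      rw [Sm_qq, vecMulVec_apply, vecMulVec_apply, vecMulVec_apply, vecMulVec_apply]
      ring
    cases e
    · rw [qf_Gm_re, h]
      simp
    · rw [qf_Gm_im, h]
      simp

theorem isTube (ε : ℝ) (h0 : 0 < ε) (h1 : ε < 1 / 4) : IsTube (GG p m) (qq p m) ε := by
  refine ⟨GG_symm, GG_lin, GG_qq, ?_, ?_, nsq_qq, h0, ?_⟩
  · unfold qq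
    refine continuous_pi fun x => ?_
    rcases x with i | k
    · exact continuous_const
    · have hc : Continuous fun z : Fin m → ℂ => ofS (vecMulVec z z) := by
        refine continuous_ofS.comp (continuous_matrix fun i j => ?_)
        exact (continuous_apply i).mul (continuous_apply j)
      exact (continuous_apply k).comp hc
  · intro z
    have h : vecMulVec (fun a => Complex.I * z a) (fun a => Complex.I * z a) = (((-1 : ℝ)) : ℂ) • vecMulVec z z := by
      ext i j
      rw [Matrix.smul_apply, vecMulVec_apply, vecMulVec_apply, smul_eq_mul]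
      push_cast
      have : Complex.I * z i * (Complex.I * z j) = (Complex.I * Complex.I) * (z i * z j) := by ring
      rw [this, Complex.I_mul_I]
    unfold qq
    funext x
    rcases x with i | k
    · change (0 : ℝ) = -0
      norm_num
    · change ofS (vecMulVec (fun a => Complex.I * z a) (fun a => Complex.I * z a)) k = -(ofS (vecMulVec z z) k)
      rw [h, ofS_smul]
      simp
  · intro y hy he
    by_contra hcon
    push Not at hcon
    have hd : ∀ v : Ix p (Kx m) → ℝ, dotProduct y v = 0 → dh y v = 0 := by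
      intro v hv
      have h2 := hcon v hv
      have h3 : dh y v = 4 * ∑ l, qf (GG p m l) y * ∑ i, ∑ j, GG p m l i j * y i * v j := by
        unfold dh dG bf
        rw [Finset.mul_sum]
      rw [h3, h2, mul_zero]
    have hh' : hh y = ε := he
    rcases crit y hy hd with h2 | h2
    · linarith
    · linarith

end Pool.Agent.Helper6.BP
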