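import Pool.Agent.Helper6.BP.IdentA

/-!
PROJECT BP, block V, module BP-V8: the zeros of `h` on the unit sphere.

PROOF. All squares in `hh_sum` vanish: `w_i y_k = 0` for all `i, k` and (`qf_sp`, `Sm_re`, `Sm_im`) `S_ij S_kl = S_il S_kj` for all `i, j, k, l`.
If all `y_k = 0` the first case holds. Otherwise `w = 0`, `ssq y = 1`. Some `S_ij ≠ 0` (`sum_normSq_Sm`); `S_ii S_jj = S_ij S_ji = S_ij² ≠ 0`, so `S_aa ≠ 0` for some `a`.
Choose `c` with `c² = S_aa`, `z_i = S_ia / c`: `z_i z_j = S_ia S_aj / S_aa = S_ij`. `(∑ normSq z_i)² = ∑ normSq (z_i z_j) = ssq y = 1`.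
-/

set_option autoImplicit false

namespace Pool.Agent.Helper6.BP

open Pool.Agent.Helper72.BP Pool.Agent.Helper79.BP
open Matrix

variable {p m : ℕ}

private lemma zero_forms (y : Ix p (Kx m) → ℝ) (h : hh y = 0) (l : Lx p m) : qf (Gm l) y = 0 := by
  rw [hh_sum] at h
  have h1 := (Finset.sum_eq_zero_iff_of_nonneg (fun l _ => sq_nonneg (qf (Gm l) y))).1 h l (Finset.mem_univ l)
  exact pow_eq_zero_iff (two_ne_zero) |>.1 h1

private lemma zero_minor (y : Ix p (Kx m) → ℝ) (h : hh y = 0) (i j k l : Fin m) :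
    Sm y i j * Sm y k l = Sm y i l * Sm y k j := by
  have h1 := zero_forms y h (Sum.inr (((i, j), (k, l)), false))
  have h2 := zero_forms y h (Sum.inr (((i, j), (k, l)), true))
  rw [qf_Gm_re] at h1
  rw [qf_Gm_im] at h2
  have h3 : Sm y i j * Sm y k l - Sm y i l * Sm y k j = 0 := by
    apply Complex.ext
    · rw [Complex.zero_re]; linarith
    · rw [Complex.zero_im]; linarith
  exact sub_eq_zero.1 h3

theorem hh_zero (y : Ix p (Kx m) → ℝ) (hy : nsq y = 1) (h : hh y = 0) :
    ssq y = 0 ∨ (wsq y = 0 ∧ ∃ z : Fin m → ℂ, Sm y = vecMulVec z z ∧ ∑ a, ‖z a‖ ^ 2 = 1) := by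
  by_cases hk : ∀ k : Kx m, y (Sum.inr k) = 0
  · left
    unfold ssq
    exact Finset.sum_eq_zero fun k _ => by rw [hk k]; ring
  · right
    push Not at hk
    obtain ⟨k0, hk0⟩ := hk
    have hw : ∀ i : Fin (p + 1), y (Sum.inl i) = 0 := by
      intro i
      have h1 := zero_forms y h (Sum.inl (i, k0))
      rw [qf_Gm_inl] at h1
      exact (mul_eq_zero.1 h1).resolve_right hk0
    have hw2 : wsq y = 0 := by
      unfold wsq
      exact Finset.sum_eq_zero fun i _ => by rw [hw i]; ring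
    have hs : ssq y = 1 := by
      rw [nsq_eq, hw2, zero_add] at hy
      exact hy
    refine ⟨hw2, ?_⟩
    have hS : ∃ i j, Sm y i j ≠ 0 := by
      by_contra hcon
      push Not at hcon
      have h1 : ∑ i, ∑ j, Complex.normSq (Sm y i j) = 0 :=
        Finset.sum_eq_zero fun i _ => Finset.sum_eq_zero fun j _ => by rw [hcon i j, Complex.normSq_zero]
      rw [sum_normSq_Sm, hs] at h1
      exact one_ne_zero h1
    obtain ⟨a, b, hab⟩ := hS
    have haa : Sm y a a ≠ 0 := by
      intro h0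
      have h1 := zero_minor y h a a b b
      rw [h0, zero_mul, Sm_symm y b a] at h1
      exact mul_ne_zero hab hab h1.symm
    obtain ⟨c, hc⟩ := IsAlgClosed.exists_eq_mul_self (Sm y a a)
    have hc0 : c ≠ 0 := by
      rintro rfl
      exact haa (by rw [hc, mul_zero])
    have hz : Sm y = vecMulVec (fun i => Sm y i a / c) (fun i => Sm y i a / c) := by
      ext i j
      rw [vecMulVec_apply]
      have h1 := zero_minor y h i j a a
      rw [Sm_symm y a j] at h1
      have h2 : Sm y i a / c * (Sm y j a / c) = (Sm y i a * Sm y j a) / (c * c) := by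
        field_simp
      rw [h2, ← hc, ← h1, mul_div_assoc, div_self haa, mul_one]
    refine ⟨fun i => Sm y i a / c, hz, ?_⟩
    set z : Fin m → ℂ := fun i => Sm y i a / c with hzdef
    have h1 : (∑ i, ‖z i‖ ^ 2) * (∑ j, ‖z j‖ ^ 2) = 1 := by
      rw [← hs, ← sum_normSq_Sm, Finset.sum_mul_sum]
      refine Finset.sum_congr rfl fun i _ => Finset.sum_congr rfl fun j _ => ?_
      rw [Complex.normSq_eq_norm_sq]
      have h2 : Sm y i j = z i * z j := by
        conv_lhs => rw [hz]
        rfl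
      rw [h2, norm_mul, mul_pow]
    have h3 : 0 ≤ ∑ i, ‖z i‖ ^ 2 := Finset.sum_nonneg fun i _ => sq_nonneg _
    have h4 : (∑ i, ‖z i‖ ^ 2) ^ 2 = 1 := by rw [_root_.sq]; exact h1
    exact (pow_eq_one_iff_of_nonneg h3 two_ne_zero).1 h4

end Pool.Agent.Helper6.BP
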